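import Pool.Agent.R196.BB.Defs

/-!
# Assembly, part A: consequences of `bmoSq ζ ≤ 1`
-/

open MeasureTheory Set
open scoped ENNReal

namespace Pool.Agent.R196.BB

lemma bmo_ineq {ζ : ℝ → ℝ} (h : bmoSq ζ ≤ 1) {a b : ℝ} (ha : 0 ≤ a) (hab : a < b) (hb : b ≤ 1) :
    ∫⁻ t in Icc a b, ENNReal.ofReal (|ζ t - avg ζ a b| ^ 2) ≤ ENNReal.ofReal (b - a) := by
  have h1 : (∫⁻ t in Icc a b, ENNReal.ofReal (|ζ t - avg ζ a b| ^ 2)) / ENNReal.ofReal (b - a) ≤ 1 := by
    refine le_trans ?_ h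
    unfold bmoSq
    exact le_iSup_of_le a (le_iSup_of_le b (le_iSup_of_le ⟨ha, hab, hb⟩ le_rfl))
  have hpos : ENNReal.ofReal (b - a) ≠ 0 := by
    rw [Ne, ENNReal.ofReal_eq_zero, not_le]; linarith
  rw [ENNReal.div_le_iff hpos ENNReal.ofReal_ne_top, one_mul] at h1
  exact h1

lemma sq_integrable {ζ : ℝ → ℝ} (hζ : IntegrableOn ζ (Icc 0 1)) (h : bmoSq ζ ≤ 1) :
    IntegrableOn (fun t => (ζ t) ^ 2) (Icc 0 1) := by
  have h1 := bmo_ineq h le_rfl zero_lt_one le_rfl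
  set c := avg ζ 0 1
  have hm : AEStronglyMeasurable (fun t => (ζ t - c) ^ 2) (volume.restrict (Icc (0:ℝ) 1)) :=
    (hζ.aestronglyMeasurable.sub aestronglyMeasurable_const).pow 2
  have h2 : IntegrableOn (fun t => (ζ t - c) ^ 2) (Icc 0 1) := by
    refine ⟨hm, ?_⟩
    rw [hasFiniteIntegral_iff_ofReal (Filter.Eventually.of_forall fun t => sq_nonneg _)]
    have e : ∀ t, (ζ t - c) ^ 2 = |ζ t - c| ^ 2 := fun t => (sq_abs _).symm
    simp_rw [e]
    exact lt_of_le_of_lt h1 ENNReal.ofReal_lt_top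
  have h3 : IntegrableOn (fun t => 2 * c * ζ t) (Icc 0 1) := hζ.const_mul (2 * c)
  have h4 : IntegrableOn (fun _ : ℝ => c ^ 2) (Icc (0:ℝ) 1) := by
    simp
  have h5 := (h2.add h3).sub h4
  refine h5.congr (Filter.Eventually.of_forall fun t => ?_)
  simp only [Pi.add_apply, Pi.sub_apply]
  ring

lemma bmo_integral {ζ : ℝ → ℝ} (hζ : IntegrableOn ζ (Icc 0 1)) (h : bmoSq ζ ≤ 1) {a b : ℝ}
    (ha : 0 ≤ a) (hab : a < b) (hb : b ≤ 1) :
    ∫ t in a..b, (ζ t - avg ζ a b) ^ 2 ≤ b - a := by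
  have h1 := bmo_ineq h ha hab hb
  have hsub : Icc a b ⊆ Icc (0:ℝ) 1 := Icc_subset_Icc ha hb
  have hζ' : IntegrableOn ζ (Icc a b) := hζ.mono_set hsub
  set c := avg ζ a b
  have hm : AEStronglyMeasurable (fun t => (ζ t - c) ^ 2) (volume.restrict (Icc a b)) :=
    (hζ'.aestronglyMeasurable.sub aestronglyMeasurable_const).pow 2
  rw [intervalIntegral.integral_of_le hab.le, ← integral_Icc_eq_integral_Ioc,
    integral_eq_lintegral_of_nonneg_ae (Filter.Eventually.of_forall fun t => sq_nonneg _) hm]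
  have e : ∀ t, (ζ t - c) ^ 2 = |ζ t - c| ^ 2 := fun t => (sq_abs _).symm
  simp_rw [e]
  refine ENNReal.toReal_le_of_le_ofReal (by linarith) h1

/-- conditions on a function on `[0,1]` corresponding to the class `M(u,u)` -/
structure FLaw (ζ : ℝ → ℝ) (u : ℝ) : Prop where
  int1 : IntegrableOn ζ (Icc 0 1)
  int2 : IntegrableOn (fun t => (ζ t) ^ 2) (Icc 0 1)
  mean : ∫ t in Icc (0:ℝ) 1, ζ t = u
  second : ∫ t in Icc (0:ℝ) 1, (ζ t) ^ 2 = u ^ 2 + 1
  left : ∀ g, Lk g u u ≤ ∫ t in Icc (0:ℝ) 1, Lk g (ζ t + 1) (ζ t - 1)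
  right : ∀ g, Rk g u u ≤ ∫ t in Icc (0:ℝ) 1, Rk g (ζ t + 1) (ζ t - 1)

lemma Rk_top (g x : ℝ) : Rk g (x + 1) (x - 1) =
    ((x - g) ^ 2 - 1) - (if x ≤ g + 1 then (x - g) ^ 2 - 1 else 0) := by
  unfold Rk
  split_ifs with h
  · rw [max_eq_right (by linarith : x - 1 - g ≤ 0)]; ring
  · push Not at h
    rw [max_eq_left (by linarith : 0 ≤ x - 1 - g), max_eq_left (by linarith : 0 ≤ x + 1 - g)]
    ring

lemma Lk_top (g x : ℝ) : Lk g (x + 1) (x - 1) =
    ((x - g) ^ 2 - 1) - (if -x ≤ -g + 1 then (-x - -g) ^ 2 - 1 else 0) := by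
  unfold Lk
  split_ifs with h
  · rw [max_eq_right (by linarith : g - (x + 1) ≤ 0)]; ring
  · push Not at h
    rw [max_eq_left (by linarith : 0 ≤ g - (x - 1)), max_eq_left (by linarith : 0 ≤ g - (x + 1))]
    ring

lemma Rk_nonneg (g p q : ℝ) : 0 ≤ Rk g p q := mul_nonneg (le_max_right _ _) (le_max_right _ _)

lemma Lk_nonneg (g p q : ℝ) : 0 ≤ Lk g p q := mul_nonneg (le_max_right _ _) (le_max_right _ _)

lemma int_sq {ζ : ℝ → ℝ} (h1 : IntegrableOn ζ (Icc 0 1))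
    (h2 : IntegrableOn (fun t => (ζ t) ^ 2) (Icc 0 1)) (g : ℝ) :
    IntegrableOn (fun t => (ζ t - g) ^ 2 - 1) (Icc 0 1) := by
  have h3 : IntegrableOn (fun t => 2 * g * ζ t) (Icc 0 1) := h1.const_mul (2 * g)
  have h4 : IntegrableOn (fun _ : ℝ => g ^ 2 - 1) (Icc (0:ℝ) 1) := by simp
  refine ((h2.sub h3).add h4).congr (Filter.Eventually.of_forall fun t => ?_)
  simp only [Pi.add_apply, Pi.sub_apply]
  ring

lemma integral_sq {ζ : ℝ → ℝ} {u : ℝ} (h1 : IntegrableOn ζ (Icc 0 1))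
    (h2 : IntegrableOn (fun t => (ζ t) ^ 2) (Icc 0 1))
    (hm : ∫ t in Icc (0:ℝ) 1, ζ t = u) (hs : ∫ t in Icc (0:ℝ) 1, (ζ t) ^ 2 = u ^ 2 + 1) (g : ℝ) :
    ∫ t in Icc (0:ℝ) 1, ((ζ t - g) ^ 2 - 1) = (u - g) ^ 2 := by
  have h3 : IntegrableOn (fun t => 2 * g * ζ t) (Icc 0 1) := h1.const_mul (2 * g)
  have h4 : IntegrableOn (fun _ : ℝ => g ^ 2 - 1) (Icc (0:ℝ) 1) := by simp
  have e : ∀ t, (ζ t - g) ^ 2 - 1 = ((ζ t) ^ 2 - 2 * g * ζ t) + (g ^ 2 - 1) := fun t => by ring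
  simp_rw [e]
  have h5 : IntegrableOn (fun t => (ζ t) ^ 2 - 2 * g * ζ t) (Icc 0 1) := h2.sub h3
  rw [integral_add h5 h4, integral_sub h2 h3, integral_const_mul, hm, hs]
  simp
  ring

lemma int_ite {ζ : ℝ → ℝ} (h1 : IntegrableOn ζ (Icc 0 1))
    (h2 : IntegrableOn (fun t => (ζ t) ^ 2) (Icc 0 1)) (g : ℝ) :
    IntegrableOn (fun t => if ζ t ≤ g + 1 then (ζ t - g) ^ 2 - 1 else 0) (Icc 0 1) := by
  have h := int_sq h1 h2 g
  refine Integrable.mono' h.abs ?_ (Filter.Eventually.of_forall fun t => ?_)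
  · have hmz : AEMeasurable ζ (volume.restrict (Icc (0:ℝ) 1)) := h1.aestronglyMeasurable.aemeasurable
    have hφ : Measurable (fun x : ℝ => if x ≤ g + 1 then (x - g) ^ 2 - 1 else 0) :=
      Measurable.ite measurableSet_Iic (by fun_prop) measurable_const
    exact (hφ.comp_aemeasurable hmz).aestronglyMeasurable
  · rw [Real.norm_eq_abs]
    split_ifs
    · exact le_rfl
    · simp

/-- functions of BMO seminorm at most one satisfy the moment conditions -/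
theorem flaw_of_bmo (hRS : RisingSun) {ζ : ℝ → ℝ} {u : ℝ} (hζ : IntegrableOn ζ (Icc 0 1))
    (h : bmoSq ζ ≤ 1) (hm : ∫ t in (0:ℝ)..1, ζ t = u)
    (hs : ∫ t in (0:ℝ)..1, (ζ t) ^ 2 = u ^ 2 + 1) : FLaw ζ u := by
  have h2 := sq_integrable hζ h
  have hm' : ∫ t in Icc (0:ℝ) 1, ζ t = u := by
    rw [integral_Icc_eq_integral_Ioc, ← intervalIntegral.integral_of_le zero_le_one, hm]
  have hs' : ∫ t in Icc (0:ℝ) 1, (ζ t) ^ 2 = u ^ 2 + 1 := by
    rw [integral_Icc_eq_integral_Ioc, ← intervalIntegral.integral_of_le zero_le_one, hs]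
  have hb : ∀ a b, 0 ≤ a → a < b → b ≤ 1 → ∫ t in a..b, (ζ t - avg ζ a b) ^ 2 ≤ b - a :=
    fun a b ha hab hb => bmo_integral hζ h ha hab hb
  refine ⟨hζ, h2, hm', hs', ?_, ?_⟩
  · intro g
    rcases le_or_gt g u with hg | hg
    · have : Lk g u u = 0 := by unfold Lk; rw [max_eq_right (by linarith)]; simp
      rw [this]
      exact integral_nonneg fun t => Lk_nonneg _ _ _
    · have hζn : IntegrableOn (fun t => -ζ t) (Icc 0 1) := hζ.neg
      have h2n : IntegrableOn (fun t => (-ζ t) ^ 2) (Icc 0 1) := by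
        simpa using h2
      have hbn : ∀ a b, 0 ≤ a → a < b → b ≤ 1 →
          ∫ t in a..b, (-ζ t - avg (fun t => -ζ t) a b) ^ 2 ≤ b - a := by
        intro a b ha hab hb1
        have e : avg (fun t => -ζ t) a b = - avg ζ a b := by
          unfold avg; rw [intervalIntegral.integral_neg]; ring
        rw [e]
        have e2 : ∀ t, (-ζ t - -avg ζ a b) ^ 2 = (ζ t - avg ζ a b) ^ 2 := fun t => by ring
        simp_rw [e2]
        exact hb a b ha hab hb1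
      have hrs := hRS (fun t => -ζ t) hζn h2n hbn (-g) (by
        rw [intervalIntegral.integral_neg, hm]; linarith)
      have e3 : ∀ t, Lk g (ζ t + 1) (ζ t - 1) = ((ζ t - g) ^ 2 - 1) -
          (if -ζ t ≤ -g + 1 then (-ζ t - -g) ^ 2 - 1 else 0) := fun t => Lk_top g (ζ t)
      simp_rw [e3]
      rw [integral_sub (int_sq hζ h2 g) (int_ite hζn h2n (-g)), integral_sq hζ h2 hm' hs']
      have : Lk g u u = (u - g) ^ 2 := by
        unfold Lk; rw [max_eq_left (by linarith)]; ring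
      rw [this]
      linarith
  · intro g
    rcases le_or_gt u g with hg | hg
    · have : Rk g u u = 0 := by unfold Rk; rw [max_eq_right (by linarith)]; simp
      rw [this]
      exact integral_nonneg fun t => Rk_nonneg _ _ _
    · have hrs := hRS ζ hζ h2 hb g (by rw [hm]; exact hg)
      have e3 : ∀ t, Rk g (ζ t + 1) (ζ t - 1) = ((ζ t - g) ^ 2 - 1) -
          (if ζ t ≤ g + 1 then (ζ t - g) ^ 2 - 1 else 0) := fun t => Rk_top g (ζ t)
      simp_rw [e3]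
      rw [integral_sub (int_sq hζ h2 g) (int_ite hζ h2 g), integral_sq hζ h2 hm' hs']
      have : Rk g u u = (u - g) ^ 2 := by
        unfold Rk; rw [max_eq_left (by linarith)]; ring
      rw [this]
      linarith

end Pool.Agent.R196.BB
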