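import Pool.Agent.R196.BB.Core4

/-!
# Core, part 5: the majorant theorem
-/

open Finset

namespace Pool.Agent.R196.BB

lemma max_lip (c x y : ℝ) : |max (x - c) 0 - max (y - c) 0| ≤ |x - y| := by
  have := abs_max_sub_max_le_abs (x - c) (y - c) 0
  rwa [show x - c - (y - c) = x - y by ring] at this

lemma max_lip' (c x y : ℝ) : |max (c - x) 0 - max (c - y) 0| ≤ |x - y| := by
  have := abs_max_sub_max_le_abs (c - x) (c - y) 0
  rw [show c - x - (c - y) = -(x - y) by ring, abs_neg] at this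
  exact this

lemma prod_lip {a b a' b' d E : ℝ} (ha0 : 0 ≤ a) (haE : a ≤ E) (hb0 : 0 ≤ b') (hbE : b' ≤ E)
    (h1 : |a - a'| ≤ d) (h2 : |b - b'| ≤ d) : |a * b - a' * b'| ≤ 2 * E * d := by
  have e : a * b - a' * b' = a * (b - b') + (a - a') * b' := by ring
  rw [e]
  refine (abs_add_le _ _).trans ?_
  rw [abs_mul, abs_mul, abs_of_nonneg ha0, abs_of_nonneg hb0]
  have hd : 0 ≤ d := (abs_nonneg _).trans h1
  have k1 : a * |b - b'| ≤ E * d := mul_le_mul haE h2 (abs_nonneg _) (ha0.trans haE)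
  have k2 : |a - a'| * b' ≤ d * E := mul_le_mul h1 hbE hb0 hd
  linarith

lemma Lk_lip {g x y D : ℝ} (hx : |x - g| ≤ D) (hy : |y - g| ≤ D) :
    |Lk g (x + 1) (x - 1) - Lk g (y + 1) (y - 1)| ≤ (2 * D + 2) * |x - y| := by
  have hD : 0 ≤ D := (abs_nonneg _).trans hx
  rw [abs_le] at hx hy
  unfold Lk
  have h := prod_lip (E := D + 1) (le_max_right (g - (x + 1)) 0)
    (max_le (by linarith) (by linarith)) (le_max_right (g - (y - 1)) 0)
    (max_le (by linarith) (by linarith)) (max_lip' g (x + 1) (y + 1))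
    (b := max (g - (x - 1)) 0) (by
      have := max_lip' g (x - 1) (y - 1)
      rw [show x - 1 - (y - 1) = x + 1 - (y + 1) by ring] at this
      exact this)
  rw [show x + 1 - (y + 1) = x - y by ring] at h
  linarith

lemma Rk_lip {g x y D : ℝ} (hx : |x - g| ≤ D) (hy : |y - g| ≤ D) :
    |Rk g (x + 1) (x - 1) - Rk g (y + 1) (y - 1)| ≤ (2 * D + 2) * |x - y| := by
  have hD : 0 ≤ D := (abs_nonneg _).trans hx
  rw [abs_le] at hx hy
  unfold Rk
  have h := prod_lip (E := D + 1) (le_max_right (x + 1 - g) 0)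
    (max_le (by linarith) (by linarith)) (le_max_right (y - 1 - g) 0)
    (max_le (by linarith) (by linarith)) (max_lip g (x + 1) (y + 1))
    (b := max (x - 1 - g) 0) (by
      have := max_lip g (x - 1) (y - 1)
      rw [show x - 1 - (y - 1) = x + 1 - (y + 1) by ring] at this
      exact this)
  rw [show x + 1 - (y + 1) = x - y by ring] at h
  linarith

lemma sq_lip {g x y D : ℝ} (hx : |x - g| ≤ D) (hy : |y - g| ≤ D) :
    |(x + 1 - g) * (x - 1 - g) - (y + 1 - g) * (y - 1 - g)| ≤ (2 * D) * |x - y| := by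
  have e : (x + 1 - g) * (x - 1 - g) - (y + 1 - g) * (y - 1 - g) =
    ((x - g) + (y - g)) * (x - y) := by ring
  rw [e, abs_mul]
  refine mul_le_mul_of_nonneg_right ?_ (abs_nonneg _)
  refine (abs_add_le _ _).trans ?_
  linarith

section
variable {g : ℤ → ℝ} {w : ℤ} {V : ℤ → ℤ → ℝ} {m K : ℝ}

/-- Lipschitz estimate for the majorant on the top line -/
lemma Good.Bf_lip (hV : Good g w V) (hB : Bdd g w V m K) (n : ℕ) (hn : 1 ≤ n)
    (hwn : w = 4 * n) (hgn : ∀ k, g (k + n) = g k + 1 / 2) (k0 : ℤ) (t M : ℕ) (htM : t ≤ M * n)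
    (x y D : ℝ) (hx : ∀ k : ℕ, k ≤ t → |x - g (k0 + k)| ≤ D)
    (hy : ∀ k : ℕ, k ≤ t → |y - g (k0 + k)| ≤ D) :
    |Bf g V k0 t (x + 1) (x - 1) - Bf g V k0 t (y + 1) (y - 1)| ≤
      ((K - m) * (1 + 36 * D) + (4 * D + 2) * (8 * M * (K - m))) * |x - y| := by
  have hw : 1 < w := by lia
  have hx0 := hx 0 (Nat.zero_le _)
  have hy0 := hy 0 (Nat.zero_le _)
  simp only [Nat.cast_zero, add_zero] at hx0 hy0
  have hD : 0 ≤ D := (abs_nonneg _).trans hx0
  have hs := hV.sl_abs hw hB k0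
  have hg := hV.ga_abs hB n hn hwn hgn k0
  have hKm : 0 ≤ K - m := by
    have := (abs_nonneg _).trans hg
    linarith
  have d0 := abs_nonneg (x - y)
  -- affine part
  have hA : |Af g V k0 (x + 1) (x - 1) - Af g V k0 (y + 1) (y - 1)| ≤
      (K - m) * (1 + 36 * D) * |x - y| := by
    have e : Af g V k0 (x + 1) (x - 1) - Af g V k0 (y + 1) (y - 1) =
        2 * sl g V k0 * (x - y) + ga g V k0 *
          ((x + 1 - g k0) * (x - 1 - g k0) - (y + 1 - g k0) * (y - 1 - g k0)) := by
      unfold Af; ring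
    rw [e]
    refine (abs_add_le _ _).trans ?_
    rw [abs_mul, abs_mul, abs_mul]
    have : |(2:ℝ)| = 2 := by norm_num
    rw [this]
    have h1 : 2 * |sl g V k0| * |x - y| ≤ (K - m) * |x - y| :=
      mul_le_mul_of_nonneg_right (by linarith) d0
    have h2 : |ga g V k0| * |(x + 1 - g k0) * (x - 1 - g k0) - (y + 1 - g k0) * (y - 1 - g k0)| ≤
        (18 * (K - m)) * ((2 * D) * |x - y|) :=
      mul_le_mul hg (sq_lip hx0 hy0) (abs_nonneg _) (by linarith)
    calc _ ≤ (K - m) * |x - y| + (18 * (K - m)) * ((2 * D) * |x - y|) := add_le_add h1 h2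
      _ = _ := by ring
  have hcm := hV.cm_long hB n hn hwn hgn (k0 + 1) M
  have hcp := hV.cp_long hB n hn hwn hgn (k0 + 1) M
  have hcm' : ∑ k ∈ range t, cm g V (k0 + 1 + k) ≤ M * (4 * (K - m)) :=
    (sum_le_sum_of_subset_of_nonneg (range_subset_range.2 htM)
      fun k _ _ => hV.cm_nonneg hw _).trans hcm
  have hcp' : ∑ k ∈ range t, cp g V (k0 + 1 + k) ≤ M * (4 * (K - m)) :=
    (sum_le_sum_of_subset_of_nonneg (range_subset_range.2 htM)
      fun k _ _ => hV.cp_nonneg hw _).trans hcp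
  have hS : |∑ k ∈ range t,
      (cm g V (k0 + 1 + k) * ((x + 1 - g (k0 + 1 + k)) * (x - 1 - g (k0 + 1 + k)) -
        Lk (g (k0 + 1 + k)) (x + 1) (x - 1)) - cp g V (k0 + 1 + k) *
          Rk (g (k0 + 1 + k)) (x + 1) (x - 1)) - ∑ k ∈ range t,
      (cm g V (k0 + 1 + k) * ((y + 1 - g (k0 + 1 + k)) * (y - 1 - g (k0 + 1 + k)) -
        Lk (g (k0 + 1 + k)) (y + 1) (y - 1)) - cp g V (k0 + 1 + k) *
          Rk (g (k0 + 1 + k)) (y + 1) (y - 1))| ≤
      (4 * D + 2) * (8 * M * (K - m)) * |x - y| := by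
    rw [← sum_sub_distrib]
    refine (abs_sum_le_sum_abs _ _).trans ?_
    have hterm : ∀ k ∈ range t,
        |(cm g V (k0 + 1 + k) * ((x + 1 - g (k0 + 1 + k)) * (x - 1 - g (k0 + 1 + k)) -
        Lk (g (k0 + 1 + k)) (x + 1) (x - 1)) - cp g V (k0 + 1 + k) *
          Rk (g (k0 + 1 + k)) (x + 1) (x - 1)) -
        (cm g V (k0 + 1 + k) * ((y + 1 - g (k0 + 1 + k)) * (y - 1 - g (k0 + 1 + k)) -
        Lk (g (k0 + 1 + k)) (y + 1) (y - 1)) - cp g V (k0 + 1 + k) *
          Rk (g (k0 + 1 + k)) (y + 1) (y - 1))| ≤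
        (cm g V (k0 + 1 + k) + cp g V (k0 + 1 + k)) * ((4 * D + 2) * |x - y|) := by
      intro k hk
      rw [mem_range] at hk
      have hxk := hx (k + 1) (by lia)
      have hyk := hy (k + 1) (by lia)
      have e0 : k0 + ((k + 1 : ℕ) : ℤ) = k0 + 1 + k := by push_cast; ring
      rw [e0] at hxk hyk
      have l1 := sq_lip hxk hyk
      have l2 := Lk_lip hxk hyk
      have l3 := Rk_lip hxk hyk
      have c1 := hV.cm_nonneg hw (k0 + 1 + k)
      have c2 := hV.cp_nonneg hw (k0 + 1 + k)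
      set G := g (k0 + 1 + k)
      set a := cm g V (k0 + 1 + k)
      set b := cp g V (k0 + 1 + k)
      have e : (a * ((x + 1 - G) * (x - 1 - G) - Lk G (x + 1) (x - 1)) -
          b * Rk G (x + 1) (x - 1)) - (a * ((y + 1 - G) * (y - 1 - G) - Lk G (y + 1) (y - 1)) -
          b * Rk G (y + 1) (y - 1)) =
          a * (((x + 1 - G) * (x - 1 - G) - (y + 1 - G) * (y - 1 - G)) -
            (Lk G (x + 1) (x - 1) - Lk G (y + 1) (y - 1))) -
          b * (Rk G (x + 1) (x - 1) - Rk G (y + 1) (y - 1)) := by ring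
      rw [e]
      refine (abs_sub _ _).trans ?_
      rw [abs_mul, abs_mul, abs_of_nonneg c1, abs_of_nonneg c2, add_mul]
      refine add_le_add (mul_le_mul_of_nonneg_left ?_ c1) (mul_le_mul_of_nonneg_left ?_ c2)
      · refine (abs_sub _ _).trans ?_
        nlinarith
      · nlinarith
    refine (sum_le_sum hterm).trans ?_
    rw [← sum_mul, sum_add_distrib]
    have : ∑ k ∈ range t, cm g V (k0 + 1 + k) + ∑ k ∈ range t, cp g V (k0 + 1 + k) ≤
      8 * M * (K - m) := by linarith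
    calc _ ≤ (8 * M * (K - m)) * ((4 * D + 2) * |x - y|) :=
          mul_le_mul_of_nonneg_right this (mul_nonneg (by linarith) d0)
      _ = _ := by ring
  unfold Bf
  rw [add_sub_add_comm]
  refine (abs_add_le _ _).trans ?_
  rw [add_mul]
  exact add_le_add hA hS

end

lemma tail_num {m κ x : ℝ} (hκ : 0 ≤ κ) :
    -(|m| + 35 * κ) * (1 + x ^ 2) ≤ m - κ * |x| - 18 * κ * (x ^ 2 + 1) - 16 * κ := by
  have hm1 := neg_abs_le m
  have h1 : 0 ≤ |m| * x ^ 2 := mul_nonneg (abs_nonneg m) (sq_nonneg x)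
  have h2 : 0 ≤ κ * (1 + 17 * x ^ 2 - |x|) := by
    refine mul_nonneg hκ ?_
    rw [← sq_abs x]
    nlinarith [sq_nonneg (|x| - 1 / 2), abs_nonneg x]
  nlinarith

/-- existence of a near-maximum point on a nonempty set -/
lemma exists_near_max (f : ℝ → ℝ) (K : ℝ) (hf : ∀ x, f x ≤ K) (S : Set ℝ) (hS : S.Nonempty)
    (ε : ℝ) (hε : 0 < ε) : ∃ a ∈ S, ∀ x ∈ S, f x ≤ f a + ε := by
  have hbdd : BddAbove (f '' S) := ⟨K, by rintro _ ⟨x, _, rfl⟩; exact hf x⟩
  have hne : (f '' S).Nonempty := hS.image f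
  obtain ⟨_, ⟨a, ha, rfl⟩, h⟩ := exists_lt_of_lt_csSup hne (sub_lt_self (sSup (f '' S)) hε)
  refine ⟨a, ha, fun x hx => ?_⟩
  have := le_csSup hbdd ⟨x, hx, rfl⟩
  linarith

/-- The majorant theorem. -/
theorem majorant (hG : GridExists) (W : ℝ → ℝ → ℝ) (m K : ℝ) (hsymm : ∀ p q, W p q = W q p)
    (hconc : ∀ q, ConcaveOn ℝ (Set.Icc (q - 2) (q + 2)) (fun p => W p q))
    (hm : ∀ p q, |p - q| ≤ 2 → m ≤ W p q) (hK : ∀ p q, |p - q| ≤ 2 → W p q ≤ K)
    (f : ℝ → ℝ) (hf : ∀ x, f x ≤ W (x + 1) (x - 1)) (u N ε : ℝ) (hN : |u| + 1 ≤ N)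
    (hε : 0 < ε) :
    ∃ (g : ℤ → ℝ) (w : ℤ) (V : ℤ → ℤ → ℝ) (k0 : ℤ) (t : ℕ), Good g w V ∧ 1 < w ∧
      Bf g V k0 t u u ≤ W u u ∧
      (∀ x, |x| ≤ N → f x ≤ Bf g V k0 t (x + 1) (x - 1) + ε) ∧
      (∀ x, N < |x| → -(|m| + 35 * (K - m)) * (1 + x ^ 2) ≤ Bf g V k0 t (x + 1) (x - 1)) := by
  have hKm : 0 ≤ K - m := by
    have h1 := hm 0 0 (by norm_num)
    have h2 := hK 0 0 (by norm_num)
    linarith
  have hu := abs_le.1 (show |u| ≤ N - 1 by linarith)
  have hN1 : 1 ≤ N := by linarith [abs_nonneg u]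
  set D : ℝ := 2 * N + 2 with hD
  obtain ⟨M, hM⟩ := exists_nat_ge (4 * N)
  set L : ℝ := (K - m) * (1 + 36 * D) + (4 * D + 2) * (8 * M * (K - m)) with hL
  have hD0 : 0 ≤ D := by rw [hD]; linarith
  have hL0 : 0 ≤ L := by
    rw [hL]
    have : (0:ℝ) ≤ M := Nat.cast_nonneg M
    have h1 : 0 ≤ (K - m) * (1 + 36 * D) := mul_nonneg hKm (by linarith)
    have h2 : 0 ≤ (4 * D + 2) * (8 * M * (K - m)) :=
      mul_nonneg (by linarith) (mul_nonneg (by linarith) hKm)
    linarith
  obtain ⟨P, hP⟩ := exists_nat_ge (4 * N * (L + 1) / ε + 1)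
  have hPpos : (0:ℝ) < P := by
    have : 0 ≤ 4 * N * (L + 1) / ε := by positivity
    linarith
  set η : ℝ := 2 * N / P with hη
  have hη0 : 0 < η := by rw [hη]; positivity
  have hηL : L * η ≤ ε / 2 := by
    have h1 : 4 * N * (L + 1) / ε ≤ P := by linarith
    rw [div_le_iff₀ hε] at h1
    rw [hη, ← mul_div_assoc, div_le_iff₀ hPpos]
    nlinarith
  have hfK : ∀ x, f x ≤ K := fun x => (hf x).trans (hK _ _ (by
    rw [show x + 1 - (x - 1) = 2 by ring]; norm_num))
  have hcell : ∀ c : ℕ, ∃ a ∈ Set.Icc (-N + c * η) (-N + (c + 1) * η),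
      ∀ x ∈ Set.Icc (-N + c * η) (-N + (c + 1) * η), f x ≤ f a + ε / 2 := by
    intro c
    refine exists_near_max f K hfK _ ⟨-N + c * η, ?_⟩ _ (by linarith)
    rw [Set.mem_Icc]
    constructor
    · exact le_rfl
    · nlinarith
  choose a ha hamax using hcell
  classical
  obtain ⟨n, g, hn, hg, hgn, hgA⟩ := hG ({u, -N - 1, N - 1} ∪ (range P).image (fun c => a c - 1))
  set w : ℤ := 4 * n with hwdef
  have hw : 1 < w := by lia
  have hper : ∀ k, g (k + w) = g k + 2 := by
    intro k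
    have e : k + w = k + n + n + n + n := by rw [hwdef]; ring
    rw [e, hgn, hgn, hgn, hgn]
    ring
  have hdist : ∀ i j : ℤ, |i - j| ≤ w → |g i - g j| ≤ 2 := by
    intro i j hij
    rw [abs_le] at hij ⊢
    have h1 : g i ≤ g (j + w) := hg.monotone (by linarith)
    have h2 : g j ≤ g (i + w) := hg.monotone (by linarith)
    rw [hper] at h1 h2
    constructor <;> linarith
  set h : ℤ → ℝ := fun j => W (g j + 2) (g j) with hh
  set F0 : ℤ → ℤ → ℝ := fun i j => if |i - j| ≤ w then W (g i) (g j) else m with hF0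
  have hfeas : Feas g w h m F0 := by
    refine ⟨?_, ?_, ?_, ?_⟩
    · intro i j
      simp only [hF0]
      rw [abs_sub_comm, hsymm]
    · intro i j hij
      have e1 : F0 (i + 1) j = W (g (i + 1)) (g j) := by
        simp only [hF0]
        rw [if_pos]
        rw [abs_lt] at hij
        rw [abs_le]
        constructor <;> lia
      have e2 : F0 (i - 1) j = W (g (i - 1)) (g j) := by
        simp only [hF0]
        rw [if_pos]
        rw [abs_lt] at hij
        rw [abs_le]
        constructor <;> lia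
      have e3 : F0 i j = W (g i) (g j) := by
        simp only [hF0]
        rw [if_pos hij.le]
      unfold Jp
      rw [e1, e2, e3]
      have hd1 := hdist (i + 1) j (by
        rw [abs_lt] at hij
        rw [abs_le]
        constructor <;> lia)
      have hd2 := hdist (i - 1) j (by
        rw [abs_lt] at hij
        rw [abs_le]
        constructor <;> lia)
      rw [abs_le] at hd1 hd2
      have := (hconc (g j)).slope_anti_adjacent (x := g (i - 1)) (y := g i) (z := g (i + 1))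
        (by rw [Set.mem_Icc]; constructor <;> linarith)
        (by rw [Set.mem_Icc]; constructor <;> linarith) (hg (by lia)) (hg (by lia))
      linarith
    · intro j
      simp only [hF0, hh]
      rw [if_pos (by rw [add_sub_cancel_left, abs_of_pos (by linarith)]), hper]
    · intro i j
      simp only [hF0]
      split_ifs with h'
      · exact hm _ _ (hdist i j h')
      · exact le_rfl
  set V := Vmin g w h m with hVdef
  have hV : Good g w V := Vmin_good hg hfeas
  have hB : Bdd g w V m K := by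
    refine ⟨hper, ?_, ?_⟩
    · intro i j _
      exact (Vmin_feas hg hfeas).low i j
    · intro i j hij
      refine (Vmin_le hfeas i j).trans ?_
      simp only [hF0]
      rw [if_pos hij]
      exact hK _ _ (hdist i j hij)
  obtain ⟨k0, hk0⟩ := hgA (-N - 1) (by simp)
  obtain ⟨k1, hk1⟩ := hgA (N - 1) (by simp)
  obtain ⟨ku, hku⟩ := hgA u (by simp)
  have hk01 : k0 ≤ k1 := by
    rw [← hg.le_iff_le, hk0, hk1]; linarith
  obtain ⟨t, ht⟩ := Int.eq_ofNat_of_zero_le (sub_nonneg.2 hk01)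
  have hk1' : k0 + t = k1 := by
    rw [show ((t : ℕ) : ℤ) = k1 - k0 from ht.symm]; ring
  have gper : ∀ (M : ℕ) (k : ℤ), g (k + (M * n : ℕ)) = g k + M / 2 := by
    intro M k
    induction M with
    | zero => simp
    | succ M ih =>
      have e : k + (((M + 1) * n : ℕ) : ℤ) = k + (M * n : ℕ) + n := by push_cast; ring
      rw [e, hgn, ih]
      push_cast
      ring
  have htM : t ≤ M * n := by
    have h1 : g (k0 + t) ≤ g (k0 + (M * n : ℕ)) := by
      rw [gper, hk1', hk1, hk0]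
      linarith
    rw [hg.le_iff_le] at h1
    lia
  have hgrid : ∀ x, |x| ≤ N → ∀ k : ℕ, k ≤ t → |x - g (k0 + k)| ≤ D := by
    intro x hx k hk
    have h1 : g k0 ≤ g (k0 + k) := hg.monotone (by lia)
    have h2 : g (k0 + k) ≤ g k1 := hg.monotone (by lia)
    rw [hk0] at h1
    rw [hk1] at h2
    rw [abs_le] at hx ⊢
    constructor <;> linarith
  refine ⟨g, w, V, k0, t, hV, hw, ?_, ?_, ?_⟩
  · -- midline value
    have hle : k0 ≤ ku := by rw [← hg.le_iff_le, hk0, hku]; linarith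
    have hle' : ku ≤ k1 := by rw [← hg.le_iff_le, hk1, hku]; linarith
    obtain ⟨r, hr⟩ := Int.eq_ofNat_of_zero_le (sub_nonneg.2 hle)
    have hr' : k0 + r = ku := by rw [show ((r : ℕ) : ℤ) = ku - k0 from hr.symm]; ring
    have := hV.Bf_mid hw k0 t r (by lia)
    rw [hr', hku] at this
    rw [this]
    refine (Vmin_le hfeas ku ku).trans ?_
    simp only [hF0]
    rw [if_pos (by simpa using (by linarith : (0:ℤ) ≤ w)), hku]
  · -- the window
    intro x hx
    have hx' := abs_le.1 hx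
    -- find the cell
    obtain ⟨c, hc, hcx⟩ : ∃ c : ℕ, c < P ∧ x ∈ Set.Icc (-N + c * η) (-N + (c + 1) * η) := by
      have hPη : P * η = 2 * N := by rw [hη]; field_simp
      have hP1 : 1 ≤ P := by
        have : (0:ℝ) < P := hPpos
        exact_mod_cast this
      rcases eq_or_lt_of_le hx'.2 with hxN | hxN
      · refine ⟨P - 1, by lia, ?_⟩
        have e : ((P - 1 : ℕ) : ℝ) = P - 1 := by
          rw [Nat.cast_sub hP1]; simp
        rw [e, hxN, Set.mem_Icc]
        constructor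
        · nlinarith
        · nlinarith
      · have h0 : 0 ≤ (x + N) / η := div_nonneg (by linarith) hη0.le
        refine ⟨⌊(x + N) / η⌋₊, ?_, ?_⟩
        · rw [Nat.floor_lt h0, div_lt_iff₀ hη0, hPη]
          linarith
        · have h1 := Nat.floor_le h0
          have h2 := Nat.lt_floor_add_one ((x + N) / η)
          rw [le_div_iff₀ hη0] at h1
          rw [div_lt_iff₀ hη0] at h2
          rw [Set.mem_Icc]
          constructor <;> linarith
    have hac := ha c
    have hPη : P * η = 2 * N := by rw [hη]; field_simp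
    have hc1 : ((c : ℝ) + 1) * η ≤ 2 * N := by
      rw [← hPη]
      refine mul_le_mul_of_nonneg_right ?_ hη0.le
      exact_mod_cast hc
    have hc0 : 0 ≤ (c : ℝ) * η := by positivity
    rw [Set.mem_Icc] at hac hcx
    have haN : |a c| ≤ N := by
      rw [abs_le]
      constructor <;> linarith
    have haN' := abs_le.1 haN
    obtain ⟨kj, hkj⟩ := hgA (a c - 1) (by
      rw [mem_union]
      right
      rw [mem_image]
      exact ⟨c, mem_range.2 hc, rfl⟩)
    have hle : k0 ≤ kj := by rw [← hg.le_iff_le, hk0, hkj]; linarith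
    have hle' : kj ≤ k1 := by rw [← hg.le_iff_le, hk1, hkj]; linarith
    obtain ⟨r, hr⟩ := Int.eq_ofNat_of_zero_le (sub_nonneg.2 hle)
    have hr' : k0 + r = kj := by rw [show ((r : ℕ) : ℤ) = kj - k0 from hr.symm]; ring
    have htop := hV.Bf_top hw hper k0 t r (by lia)
    rw [hr', hkj, show a c - 1 + 2 = a c + 1 by ring] at htop
    have hbd := (Vmin_feas hg hfeas).bd kj
    simp only [hh] at hbd
    rw [hkj, show a c - 1 + 2 = a c + 1 by ring] at hbd
    have hfa := hf (a c)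
    have hlip := hV.Bf_lip hB n hn hwdef hgn k0 t M htM (a c) x D (hgrid _ haN) (hgrid _ hx)
    have hdist' : |a c - x| ≤ η := by
      rw [abs_le]
      constructor <;> linarith
    have h5 : |Bf g V k0 t (a c + 1) (a c - 1) - Bf g V k0 t (x + 1) (x - 1)| ≤ ε / 2 :=
      hlip.trans ((mul_le_mul_of_nonneg_left hdist' hL0).trans hηL)
    rw [abs_le] at h5
    have h6 := hamax c x (Set.mem_Icc.2 hcx)
    linarith
  · -- the tails
    intro x hx
    have hx1 : 1 ≤ |x| := by linarith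
    have habs : |x| ^ 2 = x ^ 2 := sq_abs x
    have htail := tail_num (m := m) (x := x) hKm
    rcases le_total 0 x with h0 | h0
    · rw [abs_of_nonneg h0] at hx
      have hr := hV.Bf_right hw k0 t x (by rw [hk1', hk1]; linarith)
      rw [hr]
      have hl := hV.Af_lower hB n hn hwdef hgn (k0 + t) x |x| (by
        rw [hk1', hk1, abs_of_nonneg h0, abs_le]
        constructor <;> linarith)
      rw [habs] at hl
      linarith
    · rw [abs_of_nonpos h0] at hx
      have hr := hV.Bf_left hB n hn hwdef hgn k0 t x (by rw [hk0]; linarith)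
      have hl := hV.Af_lower hB n hn hwdef hgn k0 x |x| (by
        rw [hk0, abs_of_nonpos h0, abs_le]
        constructor <;> linarith)
      rw [habs] at hl
      linarith

end Pool.Agent.R196.BB
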