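import Pool.Agent.R196.BB.AsmA
import Pool.Agent.R196.BB.Core5

/-!
# Assembly, part B: the integral inequality
-/

open MeasureTheory Set
open scoped ENNReal

namespace Pool.Agent.R196.BB

section
variable {ζ : ℝ → ℝ} {u : ℝ}

lemma FLaw.int_Lk (hF : FLaw ζ u) (g : ℝ) :
    IntegrableOn (fun t => Lk g (ζ t + 1) (ζ t - 1)) (Icc 0 1) := by
  have hn1 : IntegrableOn (fun t => -ζ t) (Icc 0 1) := hF.int1.neg
  have hn2 : IntegrableOn (fun t => (-ζ t) ^ 2) (Icc 0 1) := by simpa using hF.int2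
  have h := (int_sq hF.int1 hF.int2 g).sub (int_ite hn1 hn2 (-g))
  refine h.congr (Filter.Eventually.of_forall fun t => ?_)
  simp only [Pi.sub_apply]
  rw [Lk_top]

lemma FLaw.int_Rk (hF : FLaw ζ u) (g : ℝ) :
    IntegrableOn (fun t => Rk g (ζ t + 1) (ζ t - 1)) (Icc 0 1) := by
  have h := (int_sq hF.int1 hF.int2 g).sub (int_ite hF.int1 hF.int2 g)
  refine h.congr (Filter.Eventually.of_forall fun t => ?_)
  simp only [Pi.sub_apply]
  rw [Rk_top]

lemma FLaw.int_prod (hF : FLaw ζ u) (g : ℝ) :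
    IntegrableOn (fun t => (ζ t + 1 - g) * (ζ t - 1 - g)) (Icc 0 1) := by
  refine (int_sq hF.int1 hF.int2 g).congr (Filter.Eventually.of_forall fun t => ?_)
  simp only
  ring

lemma FLaw.integral_prod (hF : FLaw ζ u) (g : ℝ) :
    ∫ t in Icc (0:ℝ) 1, (ζ t + 1 - g) * (ζ t - 1 - g) = (u - g) * (u - g) := by
  have e : ∀ t, (ζ t + 1 - g) * (ζ t - 1 - g) = (ζ t - g) ^ 2 - 1 := fun t => by ring
  simp_rw [e]
  rw [integral_sq hF.int1 hF.int2 hF.mean hF.second g]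
  ring

lemma FLaw.int_Af (hF : FLaw ζ u) (g : ℤ → ℝ) (V : ℤ → ℤ → ℝ) (k : ℤ) :
    IntegrableOn (fun t => Af g V k (ζ t + 1) (ζ t - 1)) (Icc 0 1) := by
  have h1 : IntegrableOn (fun t => 2 * sl g V k * ζ t) (Icc 0 1) := hF.int1.const_mul _
  have h2 : IntegrableOn (fun _ : ℝ => V k k - 2 * sl g V k * g k) (Icc (0:ℝ) 1) := by simp
  have h3 : IntegrableOn (fun t => ga g V k * ((ζ t + 1 - g k) * (ζ t - 1 - g k))) (Icc 0 1) :=
    (hF.int_prod (g k)).const_mul _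
  refine ((h1.add h2).add h3).congr (Filter.Eventually.of_forall fun t => ?_)
  simp only [Pi.add_apply, Af]
  ring

lemma FLaw.integral_Af (hF : FLaw ζ u) (g : ℤ → ℝ) (V : ℤ → ℤ → ℝ) (k : ℤ) :
    ∫ t in Icc (0:ℝ) 1, Af g V k (ζ t + 1) (ζ t - 1) = Af g V k u u := by
  have h1 : IntegrableOn (fun t => 2 * sl g V k * ζ t) (Icc 0 1) := hF.int1.const_mul _
  have h2 : IntegrableOn (fun _ : ℝ => V k k - 2 * sl g V k * g k) (Icc (0:ℝ) 1) := by simp
  have h3 : IntegrableOn (fun t => ga g V k * ((ζ t + 1 - g k) * (ζ t - 1 - g k))) (Icc 0 1) :=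
    (hF.int_prod (g k)).const_mul _
  have e : ∀ t, Af g V k (ζ t + 1) (ζ t - 1) = (2 * sl g V k * ζ t +
      (V k k - 2 * sl g V k * g k)) + ga g V k * ((ζ t + 1 - g k) * (ζ t - 1 - g k)) := by
    intro t; unfold Af; ring
  simp_rw [e]
  have h12 : IntegrableOn (fun t => 2 * sl g V k * ζ t + (V k k - 2 * sl g V k * g k))
    (Icc 0 1) := h1.add h2
  rw [integral_add h12 h3, integral_add h1 h2, integral_const_mul, integral_const_mul, hF.mean,
    hF.integral_prod]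
  simp
  unfold Af
  ring

variable {g : ℤ → ℝ} {w : ℤ} {V : ℤ → ℤ → ℝ}

lemma FLaw.int_term (hF : FLaw ζ u) (G a b : ℝ) :
    IntegrableOn (fun t => a * ((ζ t + 1 - G) * (ζ t - 1 - G) - Lk G (ζ t + 1) (ζ t - 1)) -
      b * Rk G (ζ t + 1) (ζ t - 1)) (Icc 0 1) :=
  (((hF.int_prod G).sub (hF.int_Lk G)).const_mul a).sub ((hF.int_Rk G).const_mul b)

lemma FLaw.term_le (hF : FLaw ζ u) (G a b : ℝ) (ha : 0 ≤ a) (hb : 0 ≤ b) :
    ∫ t in Icc (0:ℝ) 1, (a * ((ζ t + 1 - G) * (ζ t - 1 - G) - Lk G (ζ t + 1) (ζ t - 1)) -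
      b * Rk G (ζ t + 1) (ζ t - 1)) ≤
      a * ((u - G) * (u - G) - Lk G u u) - b * Rk G u u := by
  have i1 : IntegrableOn (fun t => (ζ t + 1 - G) * (ζ t - 1 - G) - Lk G (ζ t + 1) (ζ t - 1))
    (Icc 0 1) := (hF.int_prod G).sub (hF.int_Lk G)
  have i2 : IntegrableOn (fun t => a * ((ζ t + 1 - G) * (ζ t - 1 - G) -
    Lk G (ζ t + 1) (ζ t - 1))) (Icc 0 1) := i1.const_mul a
  have i3 : IntegrableOn (fun t => b * Rk G (ζ t + 1) (ζ t - 1)) (Icc 0 1) :=
    (hF.int_Rk G).const_mul b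
  rw [integral_sub i2 i3, integral_const_mul, integral_const_mul,
    integral_sub (hF.int_prod G) (hF.int_Lk G), hF.integral_prod]
  have h1 := hF.left G
  have h2 := hF.right G
  have h3 : a * ((u - G) * (u - G) - ∫ t in Icc (0:ℝ) 1, Lk G (ζ t + 1) (ζ t - 1)) ≤
    a * ((u - G) * (u - G) - Lk G u u) := mul_le_mul_of_nonneg_left (by linarith) ha
  have h4 : b * Rk G u u ≤ b * ∫ t in Icc (0:ℝ) 1, Rk G (ζ t + 1) (ζ t - 1) :=
    mul_le_mul_of_nonneg_left h2 hb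
  linarith

lemma FLaw.int_Bf (hF : FLaw ζ u) (k0 : ℤ) (r : ℕ) :
    IntegrableOn (fun t => Bf g V k0 r (ζ t + 1) (ζ t - 1)) (Icc 0 1) := by
  unfold Bf
  exact (hF.int_Af g V k0).add (integrable_finsetSum _ fun k _ => hF.int_term _ _ _)

lemma FLaw.Bf_le (hF : FLaw ζ u) (hV : Good g w V) (hw : 1 < w) (k0 : ℤ) (r : ℕ) :
    ∫ t in Icc (0:ℝ) 1, Bf g V k0 r (ζ t + 1) (ζ t - 1) ≤ Bf g V k0 r u u := by
  unfold Bf
  rw [integral_add (hF.int_Af g V k0) (integrable_finsetSum _ fun k _ => hF.int_term _ _ _),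
    hF.integral_Af, integral_finsetSum _ fun k _ => hF.int_term _ _ _]
  refine add_le_add le_rfl (Finset.sum_le_sum fun k _ => ?_)
  exact hF.term_le _ _ _ (hV.cm_nonneg hw _) (hV.cp_nonneg hw _)

/-- small tails -/
lemma FLaw.tail (hF : FLaw ζ u) (C ε : ℝ) (hε : 0 < ε) (N0 : ℝ) :
    ∃ N : ℝ, N0 ≤ N ∧ IntegrableOn (fun t => if N < |ζ t| then C * (1 + (ζ t) ^ 2) else 0) (Icc 0 1) ∧
      ∫ t in Icc (0:ℝ) 1, (if N < |ζ t| then C * (1 + (ζ t) ^ 2) else 0) ≤ ε := by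
  have hmz : AEMeasurable ζ (volume.restrict (Icc (0:ℝ) 1)) :=
    hF.int1.aestronglyMeasurable.aemeasurable
  have hbd : IntegrableOn (fun t => |C| * (1 + (ζ t) ^ 2)) (Icc 0 1) := by
    have h0 : IntegrableOn (fun _ : ℝ => (1:ℝ)) (Icc (0:ℝ) 1) := by simp
    exact (h0.add hF.int2).const_mul |C|
  have hmeas : ∀ N : ℝ, AEStronglyMeasurable
      (fun t => if N < |ζ t| then C * (1 + (ζ t) ^ 2) else 0) (volume.restrict (Icc (0:ℝ) 1)) := by
    intro N
    have hφ : Measurable (fun x : ℝ => if N < |x| then C * (1 + x ^ 2) else 0) :=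
      Measurable.ite (measurableSet_lt measurable_const (by fun_prop)) (by fun_prop)
        measurable_const
    exact (hφ.comp_aemeasurable hmz).aestronglyMeasurable
  have hle : ∀ N : ℝ, ∀ t, ‖(if N < |ζ t| then C * (1 + (ζ t) ^ 2) else 0)‖ ≤
      |C| * (1 + (ζ t) ^ 2) := by
    intro N t
    have h0 : 0 ≤ |C| * (1 + (ζ t) ^ 2) := by positivity
    split_ifs
    · rw [Real.norm_eq_abs, abs_mul, abs_of_nonneg (by positivity : 0 ≤ 1 + (ζ t) ^ 2)]
    · simpa using h0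
  have hlim := tendsto_integral_of_dominated_convergence
    (μ := volume.restrict (Icc (0:ℝ) 1))
    (F := fun (n : ℕ) t => if (n : ℝ) < |ζ t| then C * (1 + (ζ t) ^ 2) else 0)
    (f := fun _ => (0:ℝ)) (bound := fun t => |C| * (1 + (ζ t) ^ 2))
    (fun n => hmeas n) hbd (fun n => Filter.Eventually.of_forall fun t => hle n t)
    (Filter.Eventually.of_forall fun t => by
      refine tendsto_const_nhds.congr' ?_
      obtain ⟨n0, hn0⟩ := exists_nat_ge |ζ t|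
      filter_upwards [Filter.eventually_ge_atTop n0] with n hn
      rw [if_neg]
      rw [not_lt]
      exact hn0.trans (by exact_mod_cast hn))
  simp only [integral_zero] at hlim
  have hev := (hlim.eventually (gt_mem_nhds hε)).and
    (Filter.eventually_ge_atTop ⌈N0⌉₊)
  obtain ⟨n, hn, hn2⟩ := hev.exists
  refine ⟨n, (Nat.le_ceil N0).trans (by exact_mod_cast hn2), ?_, hn.le⟩
  exact Integrable.mono' hbd (hmeas n) (Filter.Eventually.of_forall fun t => hle n t)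

/-- The integral inequality for bounded biconcave majorants. -/
theorem flaw_le (hG : GridExists) (W : ℝ → ℝ → ℝ) (m K : ℝ) (hsymm : ∀ p q, W p q = W q p)
    (hconc : ∀ q, ConcaveOn ℝ (Set.Icc (q - 2) (q + 2)) (fun p => W p q))
    (hm : ∀ p q, |p - q| ≤ 2 → m ≤ W p q) (hK : ∀ p q, |p - q| ≤ 2 → W p q ≤ K)
    (f : ℝ → ℝ) (hf : ∀ x, f x ≤ W (x + 1) (x - 1)) (hF : FLaw ζ u)
    (hfi : IntegrableOn (fun t => f (ζ t)) (Icc 0 1)) :
    ∫ t in Icc (0:ℝ) 1, f (ζ t) ≤ W u u := by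
  refine le_of_forall_pos_le_add fun δ hδ => ?_
  obtain ⟨N, hN, hti, ht⟩ := hF.tail (|m| + 35 * (K - m) + |K|) (δ / 2) (by linarith) (|u| + 1)
  obtain ⟨g, w, V, k0, r, hV, hw, hmid, hwin, htail⟩ :=
    majorant hG W m K hsymm hconc hm hK f hf u N (δ / 2) hN (by linarith)
  have hpt : ∀ t, f (ζ t) ≤ (Bf g V k0 r (ζ t + 1) (ζ t - 1) + δ / 2) +
      (if N < |ζ t| then (|m| + 35 * (K - m) + |K|) * (1 + (ζ t) ^ 2) else 0) := by
    intro t
    split_ifs with h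
    · have h1 := htail _ h
      have h2 : f (ζ t) ≤ K := (hf _).trans (hK _ _ (by
        rw [show ζ t + 1 - (ζ t - 1) = 2 by ring]; norm_num))
      have h3 : K ≤ |K| * (1 + (ζ t) ^ 2) := by
        have := le_abs_self K
        nlinarith [abs_nonneg K, sq_nonneg (ζ t), mul_nonneg (abs_nonneg K) (sq_nonneg (ζ t))]
      have h4 : (|m| + 35 * (K - m) + |K|) * (1 + (ζ t) ^ 2) =
        (|m| + 35 * (K - m)) * (1 + (ζ t) ^ 2) + |K| * (1 + (ζ t) ^ 2) := by ring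
      rw [h4]
      linarith
    · have := hwin (ζ t) (not_lt.1 h)
      linarith
  have iB : IntegrableOn (fun t => Bf g V k0 r (ζ t + 1) (ζ t - 1)) (Icc 0 1) := hF.int_Bf k0 r
  have ic : IntegrableOn (fun _ : ℝ => δ / 2) (Icc (0:ℝ) 1) := by simp
  have iBc : IntegrableOn (fun t => Bf g V k0 r (ζ t + 1) (ζ t - 1) + δ / 2) (Icc 0 1) := iB.add ic
  calc ∫ t in Icc (0:ℝ) 1, f (ζ t) ≤ ∫ t in Icc (0:ℝ) 1,
        ((Bf g V k0 r (ζ t + 1) (ζ t - 1) + δ / 2) +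
        (if N < |ζ t| then (|m| + 35 * (K - m) + |K|) * (1 + (ζ t) ^ 2) else 0)) :=
        integral_mono hfi (iBc.add hti) hpt
    _ = (∫ t in Icc (0:ℝ) 1, Bf g V k0 r (ζ t + 1) (ζ t - 1)) + δ / 2 +
        ∫ t in Icc (0:ℝ) 1,
          (if N < |ζ t| then (|m| + 35 * (K - m) + |K|) * (1 + (ζ t) ^ 2) else 0) := by
        rw [integral_add iBc hti, integral_add iB ic]
        simp
    _ ≤ W u u + δ / 2 + δ / 2 := by
        have := hF.Bf_le hV hw k0 r
        linarith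
    _ = W u u + δ := by ring

end

end Pool.Agent.R196.BB
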