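import Pool.Agent.R196.BB.AsmB

/-!
# Assembly, part C: the theorem
-/

open MeasureTheory Set
open scoped ENNReal

namespace Pool.Agent.R196.BB

/-- concavity of a diagonally concave function in the coordinate `p` -/
lemma diag_p {H : ℝ × ℝ → ℝ} (hH : DiagConcave H) (q : ℝ) :
    ConcaveOn ℝ (Icc (q - 2) (q + 2)) (fun p => H ((p + q) / 2, (p - q) / 2)) := by
  have h := (hH (q, 0) (by simp [Strip])).1
  simp only [zero_add] at h
  refine ⟨convex_Icc _ _, ?_⟩
  intro x hx y hy a b ha hb hab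
  have hx' : (x - q) / 2 ∈ {t : ℝ | (q + t, t) ∈ Strip} := by
    simp only [Strip, mem_ofPred_eq]
    rw [mem_Icc] at hx
    rw [abs_le]
    constructor <;> linarith
  have hy' : (y - q) / 2 ∈ {t : ℝ | (q + t, t) ∈ Strip} := by
    simp only [Strip, mem_ofPred_eq]
    rw [mem_Icc] at hy
    rw [abs_le]
    constructor <;> linarith
  have := h.2 hx' hy' ha hb hab
  simp only [smul_eq_mul] at this ⊢
  have e1 : q + (x - q) / 2 = (x + q) / 2 := by ring
  have e2 : q + (y - q) / 2 = (y + q) / 2 := by ring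
  have e4 : a * ((x - q) / 2) + b * ((y - q) / 2) = (a * x + b * y - q) / 2 := by
    have : b = 1 - a := by linarith
    subst this; ring
  have e3 : q + (a * ((x - q) / 2) + b * ((y - q) / 2)) = (a * x + b * y + q) / 2 := by
    rw [e4]; ring
  rw [e1, e2, e3, e4] at this
  exact this

/-- the reflected version -/
lemma diag_p' {H : ℝ × ℝ → ℝ} (hH : DiagConcave H) (q : ℝ) :
    ConcaveOn ℝ (Icc (q - 2) (q + 2)) (fun p => H ((p + q) / 2, (q - p) / 2)) := by
  have h := (hH (q, 0) (by simp [Strip])).2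
  simp only [zero_add] at h
  refine ⟨convex_Icc _ _, ?_⟩
  intro x hx y hy a b ha hb hab
  have hx' : (q - x) / 2 ∈ {t : ℝ | (q - t, t) ∈ Strip} := by
    simp only [Strip, mem_ofPred_eq]
    rw [mem_Icc] at hx
    rw [abs_le]
    constructor <;> linarith
  have hy' : (q - y) / 2 ∈ {t : ℝ | (q - t, t) ∈ Strip} := by
    simp only [Strip, mem_ofPred_eq]
    rw [mem_Icc] at hy
    rw [abs_le]
    constructor <;> linarith
  have := h.2 hx' hy' ha hb hab
  simp only [smul_eq_mul] at this ⊢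
  have e1 : q - (q - x) / 2 = (x + q) / 2 := by ring
  have e2 : q - (q - y) / 2 = (y + q) / 2 := by ring
  have e4 : a * ((q - x) / 2) + b * ((q - y) / 2) = (q - (a * x + b * y)) / 2 := by
    have : b = 1 - a := by linarith
    subst this; ring
  have e3 : q - (a * ((q - x) / 2) + b * ((q - y) / 2)) = (a * x + b * y + q) / 2 := by
    rw [e4]; ring
  rw [e1, e2, e3, e4] at this
  exact this

/-- the symmetric bounded competitor -/
noncomputable def Wf (H : ℝ × ℝ → ℝ) (K p q : ℝ) : ℝ :=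
  min (min (H ((p + q) / 2, (p - q) / 2)) (H ((p + q) / 2, (q - p) / 2))) K

lemma Wf_symm (H : ℝ × ℝ → ℝ) (K p q : ℝ) : Wf H K p q = Wf H K q p := by
  unfold Wf
  rw [add_comm q p, min_comm (H ((p + q) / 2, (p - q) / 2))]

lemma Wf_conc {H : ℝ × ℝ → ℝ} (hH : DiagConcave H) (K q : ℝ) :
    ConcaveOn ℝ (Icc (q - 2) (q + 2)) (fun p => Wf H K p q) :=
  ((diag_p hH q).inf (diag_p' hH q)).inf (concaveOn_const K (convex_Icc _ _))

lemma H_lower {H : ℝ × ℝ → ℝ} {f : ℝ → ℝ} (hH : H ∈ ClassD f) {m : ℝ} (hm : ∀ x, m ≤ f x)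
    {p q : ℝ} (hpq : |p - q| ≤ 2) : m ≤ H ((p + q) / 2, (p - q) / 2) := by
  have h := (diag_p hH.1 q)
  rw [abs_le] at hpq
  have hc := h.min_le_of_mem_Icc (left_mem_Icc.2 (by linarith)) (right_mem_Icc.2 (by linarith))
    (z := p) (by rw [mem_Icc]; constructor <;> linarith)
  refine le_trans (le_min ?_ ?_) hc
  · have e1 : (q - 2 + q) / 2 = q - 1 := by ring
    have e2 : (q - 2 - q) / 2 = -1 := by ring
    rw [e1, e2]
    exact (hm _).trans (hH.2 _).2
  · have e1 : (q + 2 + q) / 2 = q + 1 := by ring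
    have e2 : (q + 2 - q) / 2 = 1 := by ring
    rw [e1, e2]
    exact (hm _).trans (hH.2 _).1

lemma H_lower' {H : ℝ × ℝ → ℝ} {f : ℝ → ℝ} (hH : H ∈ ClassD f) {m : ℝ} (hm : ∀ x, m ≤ f x)
    {p q : ℝ} (hpq : |p - q| ≤ 2) : m ≤ H ((p + q) / 2, (q - p) / 2) := by
  have h := H_lower hH hm (p := q) (q := p) (by rwa [abs_sub_comm])
  rwa [add_comm q p] at h

/-- truncated inequality -/
lemma trunc_le (hG : GridExists) {H : ℝ × ℝ → ℝ} {f : ℝ → ℝ} (hH : H ∈ ClassD f) {m : ℝ}
    (hm : ∀ x, m ≤ f x) {ζ : ℝ → ℝ} {u : ℝ} (hF : FLaw ζ u)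
    (hfm : AEMeasurable (fun t => f (ζ t)) (volume.restrict (Icc 0 1))) (K : ℝ) (hmK : m ≤ K) :
    IntegrableOn (fun t => min (f (ζ t)) K) (Icc 0 1) ∧
    ∫ t in Icc (0:ℝ) 1, min (f (ζ t)) K ≤ H (u, 0) := by
  have hint : IntegrableOn (fun t => min (f (ζ t)) K) (Icc 0 1) := by
    refine Integrable.mono' (g := fun _ => |m| + |K|) (by simp)
      (hfm.min aemeasurable_const).aestronglyMeasurable (Filter.Eventually.of_forall fun t => ?_)
    rw [Real.norm_eq_abs, abs_le]
    have h1 := neg_abs_le m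
    have h2 := le_abs_self K
    have h3 := hm (ζ t)
    have h4 := neg_abs_le K
    have h5 := abs_nonneg m
    have h6 := abs_nonneg K
    constructor
    · refine le_min ?_ ?_ <;> linarith
    · exact (min_le_right _ _).trans (by linarith)
  refine ⟨hint, ?_⟩
  have key := flaw_le (f := fun x => min (f x) K) hG (Wf H K) m K (Wf_symm H K) (Wf_conc hH.1 K)
    (fun p q hpq => le_min (le_min (H_lower hH hm hpq) (H_lower' hH hm hpq)) hmK)
    (fun p q _ => min_le_right _ _)
    (fun x => by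
      unfold Wf
      have e1 : (x + 1 + (x - 1)) / 2 = x := by ring
      have e2 : (x + 1 - (x - 1)) / 2 = 1 := by ring
      have e3 : (x - 1 - (x + 1)) / 2 = -1 := by ring
      rw [e1, e2, e3]
      exact min_le_min (le_min (hH.2 x).1 (hH.2 x).2) le_rfl) hF hint
  refine key.trans ?_
  unfold Wf
  have e1 : (u + u) / 2 = u := by ring
  have e2 : (u - u) / 2 = 0 := by ring
  rw [e1, e2]
  exact (min_le_left _ _).trans (min_le_left _ _)

/-- `𝔹(u,u²+1) ≤ 𝕍(u,0)` -/
theorem bellman_le (hG : GridExists) (hRS : RisingSun) (f : ℝ → ℝ) (m : ℝ) (hm : ∀ x, m ≤ f x)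
    (u : ℝ) : bellman f (u, u ^ 2 + 1) ≤ burkholder f (u, 0) := by
  unfold bellman burkholder
  refine iSup₂_le fun ζ hζ => le_iInf₂ fun H hH => ?_
  obtain ⟨hi, hfm, hb, hmean, hsec⟩ := hζ
  have hF : FLaw ζ u := flaw_of_bmo hRS hi hb hmean hsec
  unfold intE
  set P := ∫⁻ t in Icc (0:ℝ) 1, ENNReal.ofReal (f (ζ t)) with hP
  set Q := ∫⁻ t in Icc (0:ℝ) 1, ENNReal.ofReal (-f (ζ t)) with hQ
  have hQfin : Q ≠ ⊤ := by
    have : Q ≤ ∫⁻ _ in Icc (0:ℝ) 1, ENNReal.ofReal (-m) :=
      lintegral_mono fun t => ENNReal.ofReal_le_ofReal (neg_le_neg (hm _))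
    refine ne_top_of_le_ne_top ?_ this
    simp
  -- the bound for the truncations
  have hn : ∀ n : ℕ, |m| ≤ n → ∫⁻ t in Icc (0:ℝ) 1, ENNReal.ofReal (min (f (ζ t)) n) ≤
      ENNReal.ofReal (H (u, 0) + Q.toReal) := by
    intro n hn
    have hmn : m ≤ n := (le_abs_self m).trans hn
    have hn0 : (0:ℝ) ≤ n := Nat.cast_nonneg n
    obtain ⟨h1, h2⟩ := trunc_le hG hH hm hF hfm n hmn
    rw [integral_eq_lintegral_pos_part_sub_lintegral_neg_part h1] at h2
    have e : ∀ t, ENNReal.ofReal (-min (f (ζ t)) n) = ENNReal.ofReal (-f (ζ t)) := by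
      intro t
      rcases le_total (f (ζ t)) n with h | h
      · rw [min_eq_left h]
      · rw [min_eq_right h, ENNReal.ofReal_of_nonpos (by linarith),
          ENNReal.ofReal_of_nonpos (by linarith)]
    simp_rw [e] at h2
    have hfin : ∫⁻ t in Icc (0:ℝ) 1, ENNReal.ofReal (min (f (ζ t)) n) ≠ ⊤ := by
      have : ∫⁻ t in Icc (0:ℝ) 1, ENNReal.ofReal (min (f (ζ t)) n) ≤
          ∫⁻ _ in Icc (0:ℝ) 1, ENNReal.ofReal n :=
        lintegral_mono fun t => ENNReal.ofReal_le_ofReal (min_le_right _ _)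
      refine ne_top_of_le_ne_top ?_ this
      simp
    rw [← ENNReal.ofReal_toReal hfin]
    refine ENNReal.ofReal_le_ofReal ?_
    linarith
  have hPle : P ≤ ENNReal.ofReal (H (u, 0) + Q.toReal) := by
    have hsup : P = ⨆ n : ℕ, ∫⁻ t in Icc (0:ℝ) 1, ENNReal.ofReal (min (f (ζ t)) n) := by
      rw [hP, ← lintegral_iSup']
      · refine lintegral_congr fun t => ?_
        refine le_antisymm ?_ (iSup_le fun n => ENNReal.ofReal_le_ofReal (min_le_left _ _))
        obtain ⟨n, hn⟩ := exists_nat_ge (f (ζ t))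
        refine le_iSup_of_le n ?_
        rw [min_eq_left hn]
      · intro n
        exact (hfm.min aemeasurable_const).ennreal_ofReal
      · refine Filter.Eventually.of_forall fun t => ?_
        intro a b hab
        refine ENNReal.ofReal_le_ofReal (min_le_min le_rfl ?_)
        exact_mod_cast hab
    rw [hsup]
    refine iSup_le fun n => ?_
    obtain ⟨n', hn'⟩ := exists_nat_ge |m|
    refine le_trans ?_ (hn (max n n') (hn'.trans (by exact_mod_cast le_max_right n n')))
    refine lintegral_mono fun t => ENNReal.ofReal_le_ofReal (min_le_min le_rfl ?_)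
    exact_mod_cast le_max_left n n'
  have hHlow : 0 ≤ H (u, 0) + Q.toReal := by
    by_contra hneg
    push Not at hneg
    -- then P = 0 and the integral of f∘ζ is -Q > H(u,0)
    obtain ⟨n', hn'⟩ := exists_nat_ge |m|
    have hmn : m ≤ n' := (le_abs_self m).trans hn'
    obtain ⟨h1, h2⟩ := trunc_le hG hH hm hF hfm n' hmn
    rw [integral_eq_lintegral_pos_part_sub_lintegral_neg_part h1] at h2
    have hn0 : (0:ℝ) ≤ n' := Nat.cast_nonneg n'
    have e : ∀ t, ENNReal.ofReal (-min (f (ζ t)) n') = ENNReal.ofReal (-f (ζ t)) := by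
      intro t
      rcases le_total (f (ζ t)) n' with h | h
      · rw [min_eq_left h]
      · rw [min_eq_right h, ENNReal.ofReal_of_nonpos (by linarith),
          ENNReal.ofReal_of_nonpos (by linarith)]
    simp_rw [e] at h2
    have h3 : 0 ≤ (∫⁻ t in Icc (0:ℝ) 1, ENNReal.ofReal (min (f (ζ t)) n')).toReal :=
      ENNReal.toReal_nonneg
    have h4 : (∫⁻ t in Icc (0:ℝ) 1, ENNReal.ofReal (min (f (ζ t)) n')).toReal - Q.toReal ≤
      H (u, 0) := h2
    linarith
  have hPfin : P ≠ ⊤ := ne_top_of_le_ne_top ENNReal.ofReal_ne_top hPle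
  have hP' : P.toReal ≤ H (u, 0) + Q.toReal := ENNReal.toReal_le_of_le_ofReal hHlow hPle
  have eP : (P : EReal) = ((P.toReal : ℝ) : EReal) := (EReal.coe_ennreal_toReal hPfin).symm
  have eQ : (Q : EReal) = ((Q.toReal : ℝ) : EReal) := (EReal.coe_ennreal_toReal hQfin).symm
  rw [eP, eQ, ← EReal.coe_sub, EReal.coe_le_coe_iff]
  linarith

/-- finite-range monotone functions compose with everything -/
lemma meas_comp {ζ : ℝ → ℝ} (hmono : Monotone ζ) (hfin : (range ζ).Finite) (φ : ℝ → ℝ) :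
    Measurable (fun t => φ (ζ t)) := by
  have hz : Measurable ζ := hmono.measurable
  let s : SimpleFunc ℝ ℝ := ⟨ζ, fun x => hz (measurableSet_singleton x), hfin⟩
  exact (s.map φ).measurable

lemma int_comp {ζ : ℝ → ℝ} (hmono : Monotone ζ) (hfin : (range ζ).Finite) (φ : ℝ → ℝ) :
    IntegrableOn (fun t => φ (ζ t)) (Icc 0 1) := by
  have hz : Measurable ζ := hmono.measurable
  let s : SimpleFunc ℝ ℝ := ⟨ζ, fun x => hz (measurableSet_singleton x), hfin⟩
  exact (s.map φ).integrable_of_isFiniteMeasure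

/-- `𝕍(u,0) ≤ 𝔹(u,u²+1)` -/
theorem le_bellman (hQU : Quantile) (hMB : MonoBMO) (hSF : SupFinite) (f : ℝ → ℝ) (m : ℝ)
    (hm : ∀ x, m ≤ f x) (u : ℝ) : burkholder f (u, 0) ≤ bellman f (u, u ^ 2 + 1) := by
  have key : ∀ C : ℝ, bellman f (u, u ^ 2 + 1) ≤ (C : EReal) → burkholder f (u, 0) ≤ (C : EReal) := by
    intro C hC
    refine hSF f m hm u C fun n w a hL => ?_
    obtain ⟨ζ, hmono, hfin, hφ⟩ := hQU n w a hL.nonneg hL.total
    have h1 : ∫ t in Icc (0:ℝ) 1, ζ t = u := by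
      rw [hφ (fun x => x), hL.mean]; ring
    have h2 : ∫ t in Icc (0:ℝ) 1, (ζ t) ^ 2 = u ^ 2 + 1 := by
      rw [hφ (fun x => x ^ 2), hL.second]; ring
    have hb : bmoSq ζ ≤ 1 := by
      refine hMB ζ u hmono hfin h1 h2 ?_ ?_
      · intro g
        rw [hφ (fun x => Lk g (x + 1) (x - 1))]
        exact hL.left g
      · intro g
        rw [hφ (fun x => Rk g (x + 1) (x - 1))]
        exact hL.right g
    have hadm : ζ ∈ Admissible f (u, u ^ 2 + 1) := by
      refine ⟨int_comp hmono hfin (fun x => x), (meas_comp hmono hfin f).aemeasurable, hb, ?_, ?_⟩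
      · rw [intervalIntegral.integral_of_le zero_le_one, ← integral_Icc_eq_integral_Ioc, h1]
      · rw [intervalIntegral.integral_of_le zero_le_one, ← integral_Icc_eq_integral_Ioc, h2]
    have h3 : intE (fun t => f (ζ t)) ≤ (C : EReal) :=
      (le_iSup₂_of_le (f := fun ζ (_ : ζ ∈ Admissible f (u, u ^ 2 + 1)) =>
        intE (fun t => f (ζ t))) ζ hadm le_rfl).trans hC
    have hi := int_comp hmono hfin f
    have h4 := integral_eq_lintegral_pos_part_sub_lintegral_neg_part hi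
    rw [hφ f] at h4
    unfold intE at h3
    have hPfin : ∫⁻ t in Icc (0:ℝ) 1, ENNReal.ofReal (f (ζ t)) ≠ ⊤ :=
      ne_top_of_le_ne_top hi.2.ne (lintegral_mono fun t => Real.ofReal_le_enorm _)
    have hQfin : ∫⁻ t in Icc (0:ℝ) 1, ENNReal.ofReal (-f (ζ t)) ≠ ⊤ :=
      ne_top_of_le_ne_top hi.neg.2.ne (lintegral_mono fun t => Real.ofReal_le_enorm _)
    rw [← EReal.coe_ennreal_toReal hPfin, ← EReal.coe_ennreal_toReal hQfin, ← EReal.coe_sub,
      EReal.coe_le_coe_iff] at h3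
    rw [h4]
    exact h3
  induction hB : bellman f (u, u ^ 2 + 1) using EReal.rec with
  | bot =>
    rw [le_bot_iff, EReal.eq_bot_iff_forall_lt]
    intro y
    have := key (y - 1) (by rw [hB]; exact bot_le)
    refine lt_of_le_of_lt this ?_
    exact_mod_cast (by linarith : y - 1 < y)
  | coe r => exact key r (by rw [hB])
  | top => exact le_top

theorem main (hG : GridExists) (hRS : RisingSun) (hQU : Quantile) (hMB : MonoBMO)
    (hSF : SupFinite) (f : ℝ → ℝ) (m : ℝ) (hm : ∀ x, m ≤ f x) (u : ℝ) :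
    burkholder f (u, 0) = bellman f (u, u ^ 2 + 1) :=
  le_antisymm (le_bellman hQU hMB hSF f m hm u) (bellman_le hG hRS f m hm u)

end Pool.Agent.R196.BB
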