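import Pool.Agent.R196.BB.Defs

/-!
# Core, part 1: minimal biconcave functions on a grid
-/

open Finset

namespace Pool.Agent.R196.BB

/-- second difference in the first variable -/
noncomputable def Jp (g : ℤ → ℝ) (V : ℤ → ℤ → ℝ) (i j : ℤ) : ℝ :=
  (V (i + 1) j - V i j) / (g (i + 1) - g i) - (V i j - V (i - 1) j) / (g i - g (i - 1))

/-- feasible grid functions -/
structure Feas (g : ℤ → ℝ) (w : ℤ) (h : ℤ → ℝ) (m : ℝ) (F : ℤ → ℤ → ℝ) : Prop where
  symm : ∀ i j, F i j = F j i
  conc : ∀ i j, |i - j| < w → Jp g F i j ≤ 0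
  bd : ∀ j, h j ≤ F (j + w) j
  low : ∀ i j, m ≤ F i j

/-- the structural properties of the minimal function -/
structure Good (g : ℤ → ℝ) (w : ℤ) (V : ℤ → ℤ → ℝ) : Prop where
  mono : StrictMono g
  symm : ∀ i j, V i j = V j i
  conc : ∀ i j, |i - j| < w → Jp g V i j ≤ 0
  alt : ∀ i j, |i - j| < w → Jp g V i j = 0 ∨ Jp g V j i = 0

lemma gd_pos {g : ℤ → ℝ} (hg : StrictMono g) (i : ℤ) : 0 < g (i + 1) - g i :=
  sub_pos.2 (hg (by lia))

lemma gd_pos' {g : ℤ → ℝ} (hg : StrictMono g) (i : ℤ) : 0 < g i - g (i - 1) :=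
  sub_pos.2 (hg (by lia))

lemma Jp_eq (g : ℤ → ℝ) (V : ℤ → ℤ → ℝ) (i j : ℤ) :
    Jp g V i j = V (i + 1) j / (g (i + 1) - g i) + V (i - 1) j / (g i - g (i - 1)) -
      V i j * (1 / (g (i + 1) - g i) + 1 / (g i - g (i - 1))) := by
  unfold Jp
  ring

/-- the pointwise infimum of the feasible functions -/
noncomputable def Vmin (g : ℤ → ℝ) (w : ℤ) (h : ℤ → ℝ) (m : ℝ) (i j : ℤ) : ℝ :=
  ⨅ F : {F : ℤ → ℤ → ℝ // Feas g w h m F}, F.1 i j

section
variable {g : ℤ → ℝ} {w : ℤ} {h : ℤ → ℝ} {m : ℝ}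

lemma bddBelow_vals (i j : ℤ) :
    BddBelow (Set.range fun F : {F : ℤ → ℤ → ℝ // Feas g w h m F} => F.1 i j) :=
  ⟨m, by rintro _ ⟨F, rfl⟩; exact F.2.low i j⟩

lemma Vmin_le {F : ℤ → ℤ → ℝ} (hF : Feas g w h m F) (i j : ℤ) : Vmin g w h m i j ≤ F i j :=
  ciInf_le (bddBelow_vals i j) ⟨F, hF⟩

lemma Vmin_feas (hg : StrictMono g) {F0 : ℤ → ℤ → ℝ} (hF0 : Feas g w h m F0) :
    Feas g w h m (Vmin g w h m) := by
  have : Nonempty {F : ℤ → ℤ → ℝ // Feas g w h m F} := ⟨⟨F0, hF0⟩⟩
  refine ⟨?_, ?_, ?_, ?_⟩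
  · intro i j
    unfold Vmin
    congr 1
    funext F
    exact F.2.symm i j
  · intro i j hij
    rw [Jp_eq]
    have h1 := gd_pos hg i
    have h2 := gd_pos' hg i
    set P := 1 / (g (i + 1) - g i) + 1 / (g i - g (i - 1)) with hP
    have hPpos : 0 < P := by positivity
    have key : (Vmin g w h m (i + 1) j / (g (i + 1) - g i) +
        Vmin g w h m (i - 1) j / (g i - g (i - 1))) / P ≤ Vmin g w h m i j := by
      refine le_ciInf ?_
      intro F
      rw [div_le_iff₀ hPpos]
      have hc := F.2.conc i j hij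
      rw [Jp_eq] at hc
      have e1 : Vmin g w h m (i + 1) j / (g (i + 1) - g i) ≤ F.1 (i + 1) j / (g (i + 1) - g i) :=
        div_le_div_of_nonneg_right (Vmin_le F.2 _ _) h1.le
      have e2 : Vmin g w h m (i - 1) j / (g i - g (i - 1)) ≤ F.1 (i - 1) j / (g i - g (i - 1)) :=
        div_le_div_of_nonneg_right (Vmin_le F.2 _ _) h2.le
      linarith
    rw [div_le_iff₀ hPpos] at key
    linarith
  · intro j
    exact le_ciInf fun F => F.2.bd j
  · intro i j
    exact le_ciInf fun F => F.2.low i j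

lemma Vmin_alt (hg : StrictMono g) {F0 : ℤ → ℤ → ℝ} (hF0 : Feas g w h m F0) (i j : ℤ)
    (hij : |i - j| < w) :
    Jp g (Vmin g w h m) i j = 0 ∨ Jp g (Vmin g w h m) j i = 0 := by
  classical
  have hV := Vmin_feas hg hF0
  set V := Vmin g w h m with hVdef
  by_contra hcon
  push Not at hcon
  have hji : |j - i| < w := by rwa [abs_sub_comm]
  have h1 : Jp g V i j < 0 := lt_of_le_of_ne (hV.conc i j hij) hcon.1
  have h2 : Jp g V j i < 0 := lt_of_le_of_ne (hV.conc j i hji) hcon.2
  have di := gd_pos hg i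
  have di' := gd_pos' hg i
  have dj := gd_pos hg j
  have dj' := gd_pos' hg j
  set P := 1 / (g (i + 1) - g i) + 1 / (g i - g (i - 1)) with hP
  set Q := 1 / (g (j + 1) - g j) + 1 / (g j - g (j - 1)) with hQ
  have hPpos : 0 < P := by positivity
  have hQpos : 0 < Q := by positivity
  have hm : m < V i j := by
    rcases lt_or_eq_of_le (hV.low i j) with h | h
    · exact h
    · exfalso
      rw [Jp_eq, ← h] at h1
      have e1 : m / (g (i + 1) - g i) ≤ V (i + 1) j / (g (i + 1) - g i) :=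
        div_le_div_of_nonneg_right (hV.low _ _) di.le
      have e2 : m / (g i - g (i - 1)) ≤ V (i - 1) j / (g i - g (i - 1)) :=
        div_le_div_of_nonneg_right (hV.low _ _) di'.le
      have e3 : m * (1 / (g (i + 1) - g i) + 1 / (g i - g (i - 1))) =
        m / (g (i + 1) - g i) + m / (g i - g (i - 1)) := by ring
      rw [e3] at h1
      linarith
  obtain ⟨ε, hε, hε1, hε2, hε3⟩ : ∃ ε : ℝ, 0 < ε ∧ ε * P ≤ - Jp g V i j ∧ ε * Q ≤ - Jp g V j i ∧
      ε ≤ V i j - m := by
    refine ⟨min (min (-Jp g V i j / P) (-Jp g V j i / Q)) (V i j - m), ?_, ?_, ?_, ?_⟩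
    · refine lt_min (lt_min ?_ ?_) (by linarith)
      · exact div_pos (by linarith) hPpos
      · exact div_pos (by linarith) hQpos
    · rw [← le_div_iff₀ hPpos]
      exact (min_le_left _ _).trans (min_le_left _ _)
    · rw [← le_div_iff₀ hQpos]
      exact (min_le_left _ _).trans (min_le_right _ _)
    · exact min_le_right _ _
  set δ : ℤ → ℤ → ℝ := fun a b => if (a = i ∧ b = j) ∨ (a = j ∧ b = i) then ε else 0 with hδ
  have δ0 : ∀ a b, 0 ≤ δ a b := by
    intro a b
    simp only [hδ]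
    split_ifs <;> linarith
  have hV' : Feas g w h m (fun a b => V a b - δ a b) := by
    refine ⟨?_, ?_, ?_, ?_⟩
    · intro a b
      have : δ a b = δ b a := by
        simp only [hδ]
        congr 1
        apply propext
        constructor
        · rintro (⟨h, h'⟩ | ⟨h, h'⟩)
          · exact Or.inr ⟨h', h⟩
          · exact Or.inl ⟨h', h⟩
        · rintro (⟨h, h'⟩ | ⟨h, h'⟩)
          · exact Or.inr ⟨h', h⟩
          · exact Or.inl ⟨h', h⟩
      show V a b - δ a b = V b a - δ b a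
      rw [hV.symm a b, this]
    · intro a b hab
      have ha := gd_pos hg a
      have ha' := gd_pos' hg a
      have e : Jp g (fun a b => V a b - δ a b) a b = Jp g V a b
          + δ a b * (1 / (g (a + 1) - g a) + 1 / (g a - g (a - 1)))
          - δ (a + 1) b / (g (a + 1) - g a) - δ (a - 1) b / (g a - g (a - 1)) := by
        rw [Jp_eq, Jp_eq]
        ring
      have n1 : 0 ≤ δ (a + 1) b / (g (a + 1) - g a) := div_nonneg (δ0 _ _) ha.le
      have n2 : 0 ≤ δ (a - 1) b / (g a - g (a - 1)) := div_nonneg (δ0 _ _) ha'.le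
      rw [e]
      by_cases hS : (a = i ∧ b = j) ∨ (a = j ∧ b = i)
      · have hd : δ a b = ε := by simp only [hδ]; rw [if_pos hS]
        rw [hd]
        rcases hS with ⟨rfl, rfl⟩ | ⟨rfl, rfl⟩
        · linarith
        · linarith
      · have hd : δ a b = 0 := by simp only [hδ]; rw [if_neg hS]
        rw [hd]
        have := hV.conc a b hab
        linarith
    · intro k
      have : δ (k + w) k = 0 := by
        simp only [hδ]
        rw [if_neg]
        rintro (⟨h, h'⟩ | ⟨h, h'⟩)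
        · rw [← h, ← h'] at hij
          have : |k + w - k| = |w| := by ring_nf
          rw [this] at hij
          exact absurd (le_abs_self w) (not_le.2 hij)
        · rw [← h, ← h'] at hji
          have : |k + w - k| = |w| := by ring_nf
          rw [this] at hji
          exact absurd (le_abs_self w) (not_le.2 hji)
      show h k ≤ V (k + w) k - δ (k + w) k
      rw [this, sub_zero]
      exact hV.bd k
    · intro a b
      show m ≤ V a b - δ a b
      by_cases hS : (a = i ∧ b = j) ∨ (a = j ∧ b = i)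
      · have hd : δ a b = ε := by simp only [hδ]; rw [if_pos hS]
        rw [hd]
        rcases hS with ⟨rfl, rfl⟩ | ⟨rfl, rfl⟩
        · linarith
        · rw [hV.symm]; linarith
      · have hd : δ a b = 0 := by simp only [hδ]; rw [if_neg hS]
        rw [hd, sub_zero]
        exact hV.low a b
  have := Vmin_le hV' i j
  have hd : δ i j = ε := by simp [hδ]
  simp only [hd] at this
  rw [← hVdef] at this
  linarith

lemma Vmin_good (hg : StrictMono g) {F0 : ℤ → ℤ → ℝ} (hF0 : Feas g w h m F0) :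
    Good g w (Vmin g w h m) :=
  ⟨hg, (Vmin_feas hg hF0).symm, (Vmin_feas hg hF0).conc, fun i j hij => Vmin_alt hg hF0 i j hij⟩

end

end Pool.Agent.R196.BB
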