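import Pool.Agent.R196.BB.Core1

/-!
# Core, part 2: the structure of good grid functions
-/

open Finset

namespace Pool.Agent.R196.BB

/-- left masses -/
noncomputable def cm (g : ℤ → ℝ) (V : ℤ → ℤ → ℝ) (i : ℤ) : ℝ :=
  - Jp g V i (i - 1) / (g i - g (i - 1))

/-- right masses -/
noncomputable def cp (g : ℤ → ℝ) (V : ℤ → ℤ → ℝ) (i : ℤ) : ℝ :=
  - Jp g V i (i + 1) / (g (i + 1) - g i)

/-- slopes at the midline -/
noncomputable def sl (g : ℤ → ℝ) (V : ℤ → ℤ → ℝ) (i : ℤ) : ℝ :=
  (V (i + 1) i - V i i) / (g (i + 1) - g i)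

/-- curvatures of the midline cells -/
noncomputable def ga (g : ℤ → ℝ) (V : ℤ → ℤ → ℝ) (i : ℤ) : ℝ :=
  (sl g V (i + 1) - sl g V i) / (g (i + 1) - g i)

section
variable {g : ℤ → ℝ} {w : ℤ} {V : ℤ → ℤ → ℝ}

lemma Good.mid (hV : Good g w V) (hw : 0 < w) (i : ℤ) : Jp g V i i = 0 := by
  rcases hV.alt i i (by simpa using hw) with h | h <;> exact h

lemma Good.sl_eq' (hV : Good g w V) (hw : 0 < w) (i : ℤ) :
    sl g V i = (V i i - V (i - 1) i) / (g i - g (i - 1)) := by
  have := hV.mid hw i
  unfold Jp at this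
  unfold sl
  linarith

lemma Good.cm_nonneg (hV : Good g w V) (hw : 1 < w) (i : ℤ) : 0 ≤ cm g V i := by
  unfold cm
  have h := hV.conc i (i - 1) (by rw [show i - (i - 1) = 1 by ring]; simpa using hw)
  exact div_nonneg (by linarith) (gd_pos' hV.mono i).le

lemma Good.cp_nonneg (hV : Good g w V) (hw : 1 < w) (i : ℤ) : 0 ≤ cp g V i := by
  unfold cp
  have h := hV.conc i (i + 1) (by rw [show i - (i + 1) = -1 by ring]; simpa using hw)
  exact div_nonneg (by linarith) (gd_pos hV.mono i).le

/-- exchange of second differences -/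
lemma Jp_exchange (hsymm : ∀ i j, V i j = V j i) (i j : ℤ) :
    (Jp g V i (j + 1) - Jp g V i j) / (g (j + 1) - g j) -
      (Jp g V i j - Jp g V i (j - 1)) / (g j - g (j - 1)) =
    (Jp g V j (i + 1) - Jp g V j i) / (g (i + 1) - g i) -
      (Jp g V j i - Jp g V j (i - 1)) / (g i - g (i - 1)) := by
  unfold Jp
  rw [hsymm (j + 1) (i + 1), hsymm j (i + 1), hsymm (j - 1) (i + 1), hsymm (j + 1) i, hsymm j i,
    hsymm (j - 1) i, hsymm (j + 1) (i - 1), hsymm j (i - 1), hsymm (j - 1) (i - 1)]
  ring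

/-- one step of (P3) -/
lemma Good.step (hV : Good g w V) {i j : ℤ} (hji : j < i) (hw : i - (j - 1) < w)
    (H : Jp g V i j * (g i - g (j + 1)) ≤ Jp g V i (j + 1) * (g i - g j)) :
    Jp g V i (j - 1) * (g i - g j) ≤ Jp g V i j * (g i - g (j - 1)) := by
  have dij : 0 < g i - g j := sub_pos.2 (hV.mono hji)
  have dj := gd_pos hV.mono j
  have dj' := gd_pos' hV.mono j
  have di := gd_pos hV.mono i
  have di' := gd_pos' hV.mono i
  rcases eq_or_lt_of_le (hV.conc i j (by rw [abs_lt]; constructor <;> linarith)) with h0 | h0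
  · have h1 := hV.conc i (j - 1) (by rw [abs_lt]; constructor <;> linarith)
    rw [h0]
    nlinarith
  · have hq : Jp g V j i = 0 := by
      rcases hV.alt i j (by rw [abs_lt]; constructor <;> linarith) with h | h
      · exact absurd h h0.ne
      · exact h
    have q1 : Jp g V j (i + 1) ≤ 0 := hV.conc j (i + 1) (by rw [abs_lt]; constructor <;> linarith)
    have q2 : Jp g V j (i - 1) ≤ 0 := hV.conc j (i - 1) (by rw [abs_lt]; constructor <;> linarith)
    have hex := Jp_exchange (g := g) hV.symm i j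
    rw [hq] at hex
    have r1 : (Jp g V j (i + 1) - 0) / (g (i + 1) - g i) ≤ 0 :=
      div_nonpos_of_nonpos_of_nonneg (by linarith) di.le
    have r2 : 0 ≤ (0 - Jp g V j (i - 1)) / (g i - g (i - 1)) :=
      div_nonneg (by linarith) di'.le
    have hle : (Jp g V i (j + 1) - Jp g V i j) / (g (j + 1) - g j) ≤
      (Jp g V i j - Jp g V i (j - 1)) / (g j - g (j - 1)) := by linarith
    rw [div_le_div_iff₀ dj dj'] at hle
    set a := Jp g V i (j + 1)
    set b := Jp g V i j
    set c := Jp g V i (j - 1)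
    -- H : b * (g i - g (j+1)) ≤ a * (g i - g j); hle : (a-b) * d' ≤ (b-c) * d
    have H' : -b * (g (j + 1) - g j) ≤ (a - b) * (g i - g j) := by nlinarith
    have H2 : -b * (g (j + 1) - g j) * (g j - g (j - 1)) ≤
        (b - c) * (g (j + 1) - g j) * (g i - g j) := by
      calc -b * (g (j + 1) - g j) * (g j - g (j - 1))
          ≤ (a - b) * (g i - g j) * (g j - g (j - 1)) := by
            exact mul_le_mul_of_nonneg_right H' dj'.le
        _ = (a - b) * (g j - g (j - 1)) * (g i - g j) := by ring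
        _ ≤ (b - c) * (g (j + 1) - g j) * (g i - g j) :=
            mul_le_mul_of_nonneg_right hle dij.le
    have H3 : -b * (g j - g (j - 1)) ≤ (b - c) * (g i - g j) := by
      have : (g (j + 1) - g j) * (-b * (g j - g (j - 1))) ≤
          (g (j + 1) - g j) * ((b - c) * (g i - g j)) := by linarith
      exact le_of_mul_le_mul_left this dj
    nlinarith

/-- (P3) -/
lemma Good.ratio (hV : Good g w V) (i : ℤ) (k : ℕ) (hk : (k : ℤ) + 1 < w) :
    Jp g V i (i - 1 - k) ≤ - cm g V i * (g i - g (i - 1 - k)) ∧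
    Jp g V i (i - 1 - k) * (g i - g (i - 1 - k + 1)) ≤
      Jp g V i (i - 1 - k + 1) * (g i - g (i - 1 - k)) := by
  induction k with
  | zero =>
    have h1 := gd_pos' hV.mono i
    have h0 := hV.mid (by linarith [hk] : 0 < w) i
    constructor
    · simp only [Nat.cast_zero, sub_zero]
      unfold cm
      have : -(-Jp g V i (i - 1) / (g i - g (i - 1))) * (g i - g (i - 1)) = Jp g V i (i - 1) := by
        field_simp
      rw [this]
    · simp only [Nat.cast_zero, sub_zero, sub_add_cancel, sub_self, mul_zero, h0, zero_mul, le_refl]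
  | succ k ih =>
    have hk' : (k : ℤ) + 1 < w := by push_cast at hk; linarith
    obtain ⟨ih1, ih2⟩ := ih hk'
    have hst := hV.step (i := i) (j := i - 1 - k) (by linarith [Int.natCast_nonneg k])
      (by push_cast at hk; linarith) ih2
    have e1 : i - 1 - ((k + 1 : ℕ) : ℤ) = i - 1 - k - 1 := by push_cast; ring
    rw [e1]
    have e2 : i - 1 - (k : ℤ) - 1 + 1 = i - 1 - k := by ring
    rw [e2]
    refine ⟨?_, hst⟩
    have d1 : 0 < g i - g (i - 1 - k) :=
      sub_pos.2 (hV.mono (by linarith [Int.natCast_nonneg k]))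
    have d2 : 0 < g i - g (i - 1 - k - 1) :=
      sub_pos.2 (hV.mono (by linarith [Int.natCast_nonneg k]))
    have h3 : Jp g V i (i - 1 - k) * (g i - g (i - 1 - k - 1)) ≤
        (- cm g V i * (g i - g (i - 1 - k))) * (g i - g (i - 1 - k - 1)) :=
      mul_le_mul_of_nonneg_right ih1 d2.le
    have h4 : (g i - g (i - 1 - k)) * Jp g V i (i - 1 - k - 1) ≤
        (g i - g (i - 1 - k)) * (- cm g V i * (g i - g (i - 1 - k - 1))) := by nlinarith
    exact le_of_mul_le_mul_left h4 d1

lemma Good.ratio' (hV : Good g w V) {i j : ℤ} (hji : j < i) (hw : i - j < w) :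
    Jp g V i j ≤ - cm g V i * (g i - g j) := by
  obtain ⟨k, hk⟩ := Int.eq_ofNat_of_zero_le (show 0 ≤ i - 1 - j by lia)
  have h := (hV.ratio i k (by lia)).1
  have e : i - 1 - (k : ℤ) = j := by lia
  rwa [e] at h

/-- (P4) along a line -/
lemma Good.line (hV : Good g w V) (j : ℤ) (t : ℕ) (ht : (t : ℤ) < w) :
    V (j + t) j ≤ V j j + sl g V j * (g (j + t) - g j) -
      ∑ k ∈ range t, cm g V (j + k) * (g (j + k) - g j) * (g (j + t) - g (j + k)) ∧
    (V (j + t + 1) j - V (j + t) j) / (g (j + t + 1) - g (j + t)) ≤ sl g V j -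
      ∑ k ∈ range (t + 1), cm g V (j + k) * (g (j + k) - g j) := by
  induction t with
  | zero =>
    simp [sl]
  | succ t ih =>
    have ht' : (t : ℤ) < w := by push_cast at ht; linarith
    obtain ⟨ih1, ih2⟩ := ih ht'
    have d := gd_pos hV.mono (j + t)
    have e1 : j + ((t + 1 : ℕ) : ℤ) = j + t + 1 := by push_cast; ring
    rw [e1]
    constructor
    · rw [div_le_iff₀ d] at ih2
      have hs : ∑ k ∈ range (t + 1), cm g V (j + k) * (g (j + k) - g j) * (g (j + t + 1) - g (j + k))
          = ∑ k ∈ range t, cm g V (j + k) * (g (j + k) - g j) * (g (j + t) - g (j + k)) +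
            (∑ k ∈ range (t + 1), cm g V (j + k) * (g (j + k) - g j)) *
              (g (j + t + 1) - g (j + t)) := by
        rw [sum_range_succ, sum_range_succ, add_mul, sum_mul, ← add_assoc, ← sum_add_distrib]
        congr 1
        refine sum_congr rfl fun k _ => ?_
        ring
      rw [hs]
      linarith
    · rw [sum_range_succ]
      have hJ := hV.ratio' (i := j + t + 1) (j := j) (by linarith [Int.natCast_nonneg t])
        (by push_cast at ht; linarith)
      have hdef : Jp g V (j + t + 1) j = (V (j + t + 1 + 1) j - V (j + t + 1) j) /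
          (g (j + t + 1 + 1) - g (j + t + 1)) - (V (j + t + 1) j - V (j + t) j) /
            (g (j + t + 1) - g (j + t)) := by
        unfold Jp
        rw [show j + (t : ℤ) + 1 - 1 = j + t by ring]
      rw [hdef] at hJ
      have e2 : j + ((t + 1 : ℕ) : ℤ) = j + t + 1 := by push_cast; ring
      rw [e2]
      linarith

/-- (P4) -/
lemma Good.top (hV : Good g w V) (hw : 1 < w) (hper : ∀ k, g (k + w) = g k + 2) (j : ℤ) :
    V (j + w) j ≤ V j j + 2 * sl g V j -
      ∑ k ∈ range w.toNat, cm g V (j + k) * (g (j + k) - g j) * (g j + 2 - g (j + k)) := by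
  obtain ⟨n, hn⟩ : ∃ n : ℕ, w = n + 1 := ⟨(w - 1).toNat, by lia⟩
  obtain ⟨h1, h2⟩ := hV.line j n (by lia)
  have d := gd_pos hV.mono (j + n)
  have e1 : j + w = j + n + 1 := by lia
  have e2 : w.toNat = n + 1 := by lia
  have e3 : g (j + n + 1) = g j + 2 := by rw [← e1, hper]
  rw [e1, e2]
  rw [div_le_iff₀ d] at h2
  have hs : ∑ k ∈ range (n + 1), cm g V (j + k) * (g (j + k) - g j) * (g j + 2 - g (j + k))
      = ∑ k ∈ range n, cm g V (j + k) * (g (j + k) - g j) * (g (j + n) - g (j + k)) +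
        (∑ k ∈ range (n + 1), cm g V (j + k) * (g (j + k) - g j)) *
          (g (j + n + 1) - g (j + n)) := by
    rw [sum_range_succ, sum_range_succ, add_mul, sum_mul, ← add_assoc, ← sum_add_distrib, e3]
    congr 1
    refine sum_congr rfl fun k _ => ?_
    ring
  rw [hs]
  have : sl g V j * (g (j + ↑n) - g j) + sl g V j * (g (j + n + 1) - g (j + n)) =
    2 * sl g V j := by rw [e3]; ring
  nlinarith

/-- (P5) -/
lemma Good.gamma (hV : Good g w V) (hw : 1 < w) (i : ℤ) :
    ga g V i - ga g V (i - 1) = cm g V i - cp g V i := by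
  have h1 := hV.sl_eq' (by linarith) i
  have h2 := hV.sl_eq' (by linarith) (i + 1)
  have d := gd_pos hV.mono i
  have d' := gd_pos' hV.mono i
  simp only [add_sub_cancel_right] at h2
  have s0 : sl g V i = (V (i + 1) i - V i i) / (g (i + 1) - g i) := rfl
  have sm : sl g V (i - 1) = (V i (i - 1) - V (i - 1) (i - 1)) / (g i - g (i - 1)) := by
    unfold sl; rw [sub_add_cancel]
  have y1 : V i (i - 1) = V i i - sl g V i * (g i - g (i - 1)) := by
    rw [h1, hV.symm i (i - 1)]; field_simp; ring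
  have y2 : V (i + 1) i = V i i + sl g V i * (g (i + 1) - g i) := by
    rw [s0]; field_simp; ring
  have y3 : V (i - 1) (i - 1) = V i (i - 1) - sl g V (i - 1) * (g i - g (i - 1)) := by
    rw [sm]; field_simp; ring
  have y4 : V (i + 1) (i + 1) = V i (i + 1) + sl g V (i + 1) * (g (i + 1) - g i) := by
    rw [h2]; field_simp; ring
  have hcm : cm g V i = -((V (i + 1) (i - 1) - V i (i - 1)) / (g (i + 1) - g i)
      - (V i (i - 1) - V (i - 1) (i - 1)) / (g i - g (i - 1))) / (g i - g (i - 1)) := rfl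
  have hcp : cp g V i = -((V (i + 1) (i + 1) - V i (i + 1)) / (g (i + 1) - g i)
      - (V i (i + 1) - V (i - 1) (i + 1)) / (g i - g (i - 1))) / (g (i + 1) - g i) := rfl
  have hga : ga g V i = (sl g V (i + 1) - sl g V i) / (g (i + 1) - g i) := rfl
  have hga' : ga g V (i - 1) = (sl g V i - sl g V (i - 1)) / (g i - g (i - 1)) := by
    unfold ga; rw [sub_add_cancel]
  rw [hga, hga', hcm, hcp, y4, y3, hV.symm (i - 1) (i + 1), hV.symm i (i + 1), y2, y1]
  generalize V (i + 1) (i - 1) = X
  generalize sl g V (i + 1) = a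
  generalize sl g V i = b
  generalize sl g V (i - 1) = c
  generalize V i i = v
  have hd : g (i + 1) - g i ≠ 0 := d.ne'
  have hd' : g i - g (i - 1) ≠ 0 := d'.ne'
  generalize g (i + 1) - g i = D at hd ⊢
  generalize g i - g (i - 1) = D' at hd' ⊢
  field_simp
  ring

end

end Pool.Agent.R196.BB
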