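import Pool.Agent.R196.BB.Core2

/-!
# Core, part 3: reflection and uniform bounds
-/

open Finset

namespace Pool.Agent.R196.BB

/-- reflected grid -/
def refg (g : ℤ → ℝ) (k : ℤ) : ℝ := - g (-k)

/-- reflected grid function -/
def refV (V : ℤ → ℤ → ℝ) (i j : ℤ) : ℝ := V (-i) (-j)

section
variable {g : ℤ → ℝ} {w : ℤ} {V : ℤ → ℤ → ℝ}

lemma Jp_ref (i j : ℤ) : Jp (refg g) (refV V) i j = Jp g V (-i) (-j) := by
  unfold Jp refg refV
  rw [show -(i + 1) = -i - 1 by ring, show -(i - 1) = -i + 1 by ring]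
  rw [show - g (-i - 1) - - g (-i) = g (-i) - g (-i - 1) by ring,
    show - g (-i) - - g (-i + 1) = g (-i + 1) - g (-i) by ring]
  ring

lemma Good.ref (hV : Good g w V) : Good (refg g) w (refV V) := by
  refine ⟨?_, ?_, ?_, ?_⟩
  · intro a b hab
    unfold refg
    have := hV.mono (show -b < -a by linarith)
    linarith
  · intro i j
    exact hV.symm _ _
  · intro i j hij
    rw [Jp_ref]
    exact hV.conc _ _ (by rw [show -i - -j = -(i - j) by ring, abs_neg]; exact hij)
  · intro i j hij
    rw [Jp_ref, Jp_ref]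
    exact hV.alt _ _ (by rw [show -i - -j = -(i - j) by ring, abs_neg]; exact hij)

lemma cm_ref (i : ℤ) : cm (refg g) (refV V) i = cp g V (-i) := by
  unfold cm cp
  rw [Jp_ref]
  unfold refg
  rw [show -(i - 1) = -i + 1 by ring]
  congr 1
  ring

lemma sl_ref (hV : Good g w V) (hw : 0 < w) (i : ℤ) : sl (refg g) (refV V) i = - sl g V (-i) := by
  rw [hV.sl_eq' hw]
  unfold sl refg refV
  rw [show -(i + 1) = -i - 1 by ring]
  have d := gd_pos' hV.mono (-i)
  rw [show -g (-i - 1) - -g (-i) = g (-i) - g (-i - 1) by ring]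
  field_simp
  ring

lemma refg_per (hper : ∀ k, g (k + w) = g k + 2) (k : ℤ) : refg g (k + w) = refg g k + 2 := by
  unfold refg
  have := hper (-(k + w))
  rw [show -(k + w) + w = -k by ring] at this
  linarith

/-- the uniform bounds -/
structure Bdd (g : ℤ → ℝ) (w : ℤ) (V : ℤ → ℤ → ℝ) (m K : ℝ) : Prop where
  per : ∀ k, g (k + w) = g k + 2
  lo : ∀ i j, |i - j| ≤ w → m ≤ V i j
  hi : ∀ i j, |i - j| ≤ w → V i j ≤ K

lemma Bdd.ref {m K : ℝ} (hB : Bdd g w V m K) : Bdd (refg g) w (refV V) m K := by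
  refine ⟨refg_per hB.per, ?_, ?_⟩
  · intro i j hij
    exact hB.lo _ _ (by rw [show -i - -j = -(i - j) by ring, abs_neg]; exact hij)
  · intro i j hij
    exact hB.hi _ _ (by rw [show -i - -j = -(i - j) by ring, abs_neg]; exact hij)

variable {m K : ℝ}

lemma Good.term_nonneg (hV : Good g w V) (hw : 1 < w) (hB : Bdd g w V m K) (j : ℤ) (k : ℕ)
    (hk : (k : ℤ) < w) :
    0 ≤ cm g V (j + k) * (g (j + k) - g j) * (g j + 2 - g (j + k)) := by
  have h1 : g j ≤ g (j + k) := hV.mono.monotone (by linarith [Int.natCast_nonneg k])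
  have h2 : g (j + k) ≤ g j + 2 := by
    rw [← hB.per]
    exact hV.mono.monotone (by linarith)
  exact mul_nonneg (mul_nonneg (hV.cm_nonneg hw _) (by linarith)) (by linarith)

lemma Good.sl_lower (hV : Good g w V) (hw : 1 < w) (hB : Bdd g w V m K) (j : ℤ) :
    -(K - m) / 2 ≤ sl g V j := by
  have h := hV.top hw hB.per j
  have h0 : 0 ≤ ∑ k ∈ range w.toNat,
      cm g V (j + k) * (g (j + k) - g j) * (g j + 2 - g (j + k)) := by
    refine sum_nonneg fun k hk => hV.term_nonneg hw hB j k ?_
    rw [mem_range] at hk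
    lia
  have h1 := hB.lo (j + w) j (by rw [add_sub_cancel_left, abs_of_pos (by linarith)])
  have h2 := hB.hi j j (by simpa using (by linarith : (0:ℤ) ≤ w))
  linarith

lemma Good.sl_upper (hV : Good g w V) (hw : 1 < w) (hB : Bdd g w V m K) (j : ℤ) :
    sl g V j ≤ (K - m) / 2 := by
  have h := hV.ref.sl_lower hw hB.ref (-j)
  rw [sl_ref hV (by linarith), neg_neg] at h
  linarith

lemma Good.sl_abs (hV : Good g w V) (hw : 1 < w) (hB : Bdd g w V m K) (j : ℤ) :
    |sl g V j| ≤ (K - m) / 2 := by
  rw [abs_le]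
  exact ⟨by have := hV.sl_lower hw hB j; linarith, hV.sl_upper hw hB j⟩

lemma Good.sum_term_le (hV : Good g w V) (hw : 1 < w) (hB : Bdd g w V m K) (j : ℤ) :
    ∑ k ∈ range w.toNat, cm g V (j + k) * (g (j + k) - g j) * (g j + 2 - g (j + k))
      ≤ 2 * (K - m) := by
  have h := hV.top hw hB.per j
  have h1 := hB.lo (j + w) j (by rw [add_sub_cancel_left, abs_of_pos (by linarith)])
  have h2 := hB.hi j j (by simpa using (by linarith : (0:ℤ) ≤ w))
  have h3 := hV.sl_upper hw hB j
  linarith

/-- the sum of the left masses over a block of length `1/2` -/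
lemma Good.cm_block (hV : Good g w V) (hB : Bdd g w V m K) (n : ℕ) (hn : 1 ≤ n)
    (hwn : w = 4 * n) (hgn : ∀ k, g (k + n) = g k + 1 / 2) (l : ℤ) :
    ∑ k ∈ range (n + 1), cm g V (l + k) ≤ 4 * (K - m) := by
  have hw : 1 < w := by lia
  have h := hV.sum_term_le hw hB (l - n)
  have hsub : ∑ k ∈ range (n + 1), cm g V (l + k) * (1 / 2) ≤
      ∑ k ∈ range w.toNat, cm g V (l - n + k) * (g (l - n + k) - g (l - n)) *
        (g (l - n) + 2 - g (l - n + k)) := by
    have hemb : ∑ k ∈ range (n + 1), cm g V (l + k) * (1 / 2) ≤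
        ∑ k ∈ (range (n + 1)).map (addLeftEmbedding n), cm g V (l - n + k) *
          (g (l - n + k) - g (l - n)) * (g (l - n) + 2 - g (l - n + k)) := by
      rw [sum_map]
      refine sum_le_sum fun k hk => ?_
      rw [mem_range] at hk
      simp only [addLeftEmbedding_apply]
      have e : l - (n : ℤ) + ((n + k : ℕ) : ℤ) = l + k := by push_cast; ring
      rw [e]
      have g1 : g (l - n) = g l - 1 / 2 := by
        have := hgn (l - n)
        rw [sub_add_cancel] at this
        linarith
      have g2 : g l ≤ g (l + k) := hV.mono.monotone (by linarith [Int.natCast_nonneg k])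
      have g3 : g (l + k) ≤ g l + 1 / 2 := by
        rw [← hgn]
        exact hV.mono.monotone (by lia)
      have hc := hV.cm_nonneg hw (l + k)
      rw [g1]
      set x := g (l + k) - g l with hx
      have hx0 : 0 ≤ x := by linarith
      have hx1 : x ≤ 1 / 2 := by linarith
      have e2 : (g (l + ↑k) - (g l - 1 / 2)) * (g l - 1 / 2 + 2 - g (l + ↑k)) =
        (x + 1 / 2) * (3 / 2 - x) := by rw [hx]; ring
      rw [mul_assoc, e2]
      refine mul_le_mul_of_nonneg_left ?_ hc
      nlinarith
    refine hemb.trans (sum_le_sum_of_subset_of_nonneg ?_ ?_)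
    · intro k hk
      simp only [mem_map, mem_range, addLeftEmbedding_apply] at hk ⊢
      obtain ⟨a, ha, rfl⟩ := hk
      lia
    · intro k hk _
      rw [mem_range] at hk
      exact hV.term_nonneg hw hB _ k (by lia)
  rw [← sum_mul] at hsub
  linarith

/-- same for the right masses -/
lemma Good.cp_block (hV : Good g w V) (hB : Bdd g w V m K) (n : ℕ) (hn : 1 ≤ n)
    (hwn : w = 4 * n) (hgn : ∀ k, g (k + n) = g k + 1 / 2) (l : ℤ) :
    ∑ k ∈ range (n + 1), cp g V (l + k) ≤ 4 * (K - m) := by
  have hgn' : ∀ k, refg g (k + n) = refg g k + 1 / 2 := by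
    intro k
    unfold refg
    have := hgn (-(k + n))
    rw [show -(k + (n : ℤ)) + n = -k by ring] at this
    linarith
  have h := hV.ref.cm_block hB.ref n hn hwn hgn' (-(l + n))
  refine le_trans (le_of_eq ?_) h
  rw [← sum_range_reflect]
  refine sum_congr rfl fun k hk => ?_
  rw [mem_range] at hk
  rw [cm_ref]
  congr 1
  have : ((n + 1 - 1 - k : ℕ) : ℤ) = n - k := by
    rw [Nat.cast_sub (by lia)]
    push_cast
    ring
  rw [this]
  ring

/-- the bound for the curvature -/
lemma Good.ga_abs (hV : Good g w V) (hB : Bdd g w V m K) (n : ℕ) (hn : 1 ≤ n)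
    (hwn : w = 4 * n) (hgn : ∀ k, g (k + n) = g k + 1 / 2) (l : ℤ) :
    |ga g V l| ≤ 18 * (K - m) := by
  have hw : 1 < w := by lia
  have hc := hV.cm_block hB n hn hwn hgn l
  have hd := hV.cp_block hB n hn hwn hgn l
  have hcm0 := fun i => hV.cm_nonneg hw i
  have hcp0 := fun i => hV.cp_nonneg hw i
  -- telescoping of the curvature
  have tel : ∀ t : ℕ, ga g V (l + t) - ga g V l =
      ∑ k ∈ range t, (cm g V (l + (k + 1)) - cp g V (l + (k + 1))) := by
    intro t
    induction t with
    | zero => simp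
    | succ t ih =>
      rw [sum_range_succ, ← ih]
      have := hV.gamma hw (l + (t + 1))
      rw [show l + ((t : ℤ) + 1) - 1 = l + t by ring] at this
      push_cast
      linarith
  have dev : ∀ t : ℕ, t < n → |ga g V (l + t) - ga g V l| ≤ 8 * (K - m) := by
    intro t ht
    rw [tel]
    have hA : ∑ k ∈ range t, cm g V (l + (k + 1)) ≤ ∑ k ∈ range (n + 1), cm g V (l + k) := by
      rw [sum_range_succ']
      have : ∑ k ∈ range t, cm g V (l + (k + 1)) ≤ ∑ k ∈ range n, cm g V (l + (k + 1)) :=
        sum_le_sum_of_subset_of_nonneg (range_subset_range.2 ht.le) fun i _ _ => hcm0 _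
      have h0 := hcm0 (l + ((0 : ℕ) : ℤ))
      push_cast at *
      linarith
    have hB' : ∑ k ∈ range t, cp g V (l + (k + 1)) ≤ ∑ k ∈ range (n + 1), cp g V (l + k) := by
      rw [sum_range_succ']
      have : ∑ k ∈ range t, cp g V (l + (k + 1)) ≤ ∑ k ∈ range n, cp g V (l + (k + 1)) :=
        sum_le_sum_of_subset_of_nonneg (range_subset_range.2 ht.le) fun i _ _ => hcp0 _
      have h0 := hcp0 (l + ((0 : ℕ) : ℤ))
      push_cast at *
      linarith
    have hA0 : 0 ≤ ∑ k ∈ range t, cm g V (l + (k + 1)) := sum_nonneg fun i _ => hcm0 _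
    have hB0 : 0 ≤ ∑ k ∈ range t, cp g V (l + (k + 1)) := sum_nonneg fun i _ => hcp0 _
    rw [sum_sub_distrib, abs_le]
    constructor <;> linarith
  -- the average of the curvature
  have avg1 : ∀ t : ℕ, ∑ k ∈ range t, ga g V (l + k) * (g (l + k + 1) - g (l + k)) =
      sl g V (l + t) - sl g V l := by
    intro t
    induction t with
    | zero => simp
    | succ t ih =>
      rw [sum_range_succ, ih]
      have d := gd_pos hV.mono (l + t)
      have : ga g V (l + t) * (g (l + t + 1) - g (l + t)) = sl g V (l + t + 1) - sl g V (l + t) := by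
        unfold ga; field_simp
      rw [this]
      push_cast
      rw [show l + ((t : ℤ) + 1) = l + t + 1 by ring]
      ring
  have len : ∀ t : ℕ, ∑ k ∈ range t, (g (l + k + 1) - g (l + k)) = g (l + t) - g l := by
    intro t
    induction t with
    | zero => simp
    | succ t ih =>
      rw [sum_range_succ, ih]
      push_cast
      rw [show l + ((t : ℤ) + 1) = l + t + 1 by ring]
      ring
  have hlen : ∑ k ∈ range n, (g (l + k + 1) - g (l + k)) = 1 / 2 := by
    rw [len, hgn]; ring
  have hs1 := hV.sl_abs hw hB (l + n)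
  have hs2 := hV.sl_abs hw hB l
  rw [abs_le] at hs1 hs2
  have hav := avg1 n
  have up : ga g V l * (1 / 2) ≤ (K - m) + 8 * (K - m) * (1 / 2) := by
    have : ∑ k ∈ range n, ga g V l * (g (l + k + 1) - g (l + k)) ≤
        ∑ k ∈ range n, (ga g V (l + k) + 8 * (K - m)) * (g (l + k + 1) - g (l + k)) := by
      refine sum_le_sum fun k hk => ?_
      have hd := gd_pos hV.mono (l + k)
      have := dev k (mem_range.1 hk)
      rw [abs_le] at this
      exact mul_le_mul_of_nonneg_right (by linarith) hd.le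
    rw [← mul_sum, hlen] at this
    simp only [add_mul] at this
    rw [sum_add_distrib, ← mul_sum, hlen, hav] at this
    linarith
  have dn : -((K - m) + 8 * (K - m) * (1 / 2)) ≤ ga g V l * (1 / 2) := by
    have : ∑ k ∈ range n, (ga g V (l + k) - 8 * (K - m)) * (g (l + k + 1) - g (l + k)) ≤
        ∑ k ∈ range n, ga g V l * (g (l + k + 1) - g (l + k)) := by
      refine sum_le_sum fun k hk => ?_
      have hd := gd_pos hV.mono (l + k)
      have := dev k (mem_range.1 hk)
      rw [abs_le] at this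
      exact mul_le_mul_of_nonneg_right (by linarith) hd.le
    rw [← mul_sum, hlen] at this
    simp only [sub_mul] at this
    rw [sum_sub_distrib, ← mul_sum, hlen, hav] at this
    linarith
  rw [abs_le]
  have hKm : 0 ≤ K - m := by linarith
  constructor <;> linarith

end

end Pool.Agent.R196.BB
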