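import Pool.Agent.R196.BB.Core3

/-!
# Core, part 4: the explicit majorant
-/

open Finset

namespace Pool.Agent.R196.BB

/-- affine piece of the midline cell `k` -/
noncomputable def Af (g : ℤ → ℝ) (V : ℤ → ℤ → ℝ) (k : ℤ) (p q : ℝ) : ℝ :=
  V k k + sl g V k * (p - g k) + sl g V k * (q - g k) + ga g V k * ((p - g k) * (q - g k))

/-- the majorant -/
noncomputable def Bf (g : ℤ → ℝ) (V : ℤ → ℤ → ℝ) (k0 : ℤ) (t : ℕ) (p q : ℝ) : ℝ :=
  Af g V k0 p q + ∑ k ∈ range t,
    (cm g V (k0 + 1 + k) * ((p - g (k0 + 1 + k)) * (q - g (k0 + 1 + k)) - Lk (g (k0 + 1 + k)) p q) -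
      cp g V (k0 + 1 + k) * Rk (g (k0 + 1 + k)) p q)

section
variable {g : ℤ → ℝ} {w : ℤ} {V : ℤ → ℤ → ℝ}

lemma Good.Af_step (hV : Good g w V) (hw : 1 < w) (k : ℤ) (p q : ℝ) :
    Af g V (k + 1) p q = Af g V k p q +
      (cm g V (k + 1) - cp g V (k + 1)) * ((p - g (k + 1)) * (q - g (k + 1))) := by
  have hgam := hV.gamma hw (k + 1)
  rw [add_sub_cancel_right] at hgam
  rw [← hgam]
  have d := gd_pos hV.mono k
  have h1 := hV.sl_eq' (by linarith) (k + 1)
  rw [add_sub_cancel_right] at h1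
  have r1 : sl g V (k + 1) = sl g V k + ga g V k * (g (k + 1) - g k) := by
    unfold ga; field_simp; ring
  have r2 : V (k + 1) (k + 1) = V k k + (sl g V k + sl g V (k + 1)) * (g (k + 1) - g k) := by
    have a1 : V (k + 1) k = V k k + sl g V k * (g (k + 1) - g k) := by
      unfold sl; field_simp; ring
    have a2 : V (k + 1) (k + 1) = V k (k + 1) + sl g V (k + 1) * (g (k + 1) - g k) := by
      rw [h1]; field_simp; ring
    rw [a2, hV.symm k (k + 1), a1]; ring
  unfold Af
  rw [r2, r1]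
  ring

lemma Good.Af_tel (hV : Good g w V) (hw : 1 < w) (k0 : ℤ) (r : ℕ) (p q : ℝ) :
    Af g V (k0 + r) p q = Af g V k0 p q + ∑ k ∈ range r,
      (cm g V (k0 + 1 + k) - cp g V (k0 + 1 + k)) *
        ((p - g (k0 + 1 + k)) * (q - g (k0 + 1 + k))) := by
  induction r with
  | zero => simp
  | succ r ih =>
    rw [sum_range_succ, ← add_assoc, ← ih]
    have e : k0 + ((r + 1 : ℕ) : ℤ) = (k0 + r) + 1 := by push_cast; ring
    have e' : k0 + 1 + (r : ℤ) = (k0 + r) + 1 := by ring
    rw [e, e', hV.Af_step hw]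

lemma Good.Bf_split (hV : Good g w V) (hw : 1 < w) (k0 : ℤ) (t r : ℕ) (hr : r ≤ t) (p q : ℝ)
    (hqp : q ≤ p) (h1 : ∀ k : ℕ, k < r → g (k0 + 1 + k) ≤ q)
    (h2 : ∀ k : ℕ, r ≤ k → k < t → q ≤ g (k0 + 1 + k)) :
    Bf g V k0 t p q = Af g V (k0 + r) p q - ∑ k ∈ Ico r t,
      cm g V (k0 + 1 + k) * (max (p - g (k0 + 1 + k)) 0 * (g (k0 + 1 + k) - q)) := by
  unfold Bf
  rw [hV.Af_tel hw, range_eq_Ico, ← sum_Ico_consecutive _ (Nat.zero_le r) hr, ← range_eq_Ico,
    sub_eq_add_neg, ← sum_neg_distrib, add_assoc]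
  congr 2
  · refine sum_congr rfl fun k hk => ?_
    have := h1 k (mem_range.1 hk)
    unfold Lk Rk
    rw [max_eq_right (by linarith : g (k0 + 1 + k) - p ≤ 0), zero_mul,
      max_eq_left (by linarith : 0 ≤ p - g (k0 + 1 + k)),
      max_eq_left (by linarith : 0 ≤ q - g (k0 + 1 + k))]
    ring
  · refine sum_congr rfl fun k hk => ?_
    rw [mem_Ico] at hk
    have := h2 k hk.1 hk.2
    unfold Lk Rk
    rw [max_eq_right (by linarith : q - g (k0 + 1 + k) ≤ 0), mul_zero, mul_zero, sub_zero,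
      max_eq_left (by linarith : 0 ≤ g (k0 + 1 + k) - q)]
    rcases le_total (g (k0 + 1 + k)) p with h | h
    · rw [max_eq_right (by linarith : g (k0 + 1 + k) - p ≤ 0),
        max_eq_left (by linarith : 0 ≤ p - g (k0 + 1 + k))]
      ring
    · rw [max_eq_left (by linarith : 0 ≤ g (k0 + 1 + k) - p),
        max_eq_right (by linarith : p - g (k0 + 1 + k) ≤ 0)]
      ring

/-- value on the midline -/
lemma Good.Bf_mid (hV : Good g w V) (hw : 1 < w) (k0 : ℤ) (t r : ℕ) (hr : r ≤ t) :
    Bf g V k0 t (g (k0 + r)) (g (k0 + r)) = V (k0 + r) (k0 + r) := by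
  rw [hV.Bf_split hw k0 t r hr _ _ le_rfl]
  · have : ∑ k ∈ Ico r t, cm g V (k0 + 1 + k) *
        (max (g (k0 + r) - g (k0 + 1 + k)) 0 * (g (k0 + 1 + k) - g (k0 + r))) = 0 := by
      refine sum_eq_zero fun k hk => ?_
      rw [mem_Ico] at hk
      have : g (k0 + r) ≤ g (k0 + 1 + k) := hV.mono.monotone (by lia)
      rw [max_eq_right (by linarith), zero_mul, mul_zero]
    rw [this, sub_zero]
    unfold Af
    ring
  · intro k hk
    exact hV.mono.monotone (by lia)
  · intro k hk _
    exact hV.mono.monotone (by lia)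

/-- value at the top -/
lemma Good.Bf_top (hV : Good g w V) (hw : 1 < w) (hper : ∀ k, g (k + w) = g k + 2)
    (k0 : ℤ) (t r : ℕ) (hr : r ≤ t) :
    V (k0 + r + w) (k0 + r) ≤ Bf g V k0 t (g (k0 + r) + 2) (g (k0 + r)) := by
  rw [hV.Bf_split hw k0 t r hr _ _ (by linarith)]
  · refine (hV.top hw hper (k0 + r)).trans ?_
    have hA : Af g V (k0 + r) (g (k0 + r) + 2) (g (k0 + r)) =
        V (k0 + r) (k0 + r) + 2 * sl g V (k0 + r) := by
      unfold Af; ring
    rw [hA]
    have key : ∑ k ∈ Ico r t, cm g V (k0 + 1 + k) *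
        (max (g (k0 + r) + 2 - g (k0 + 1 + k)) 0 * (g (k0 + 1 + k) - g (k0 + r))) ≤
        ∑ k ∈ range w.toNat, cm g V (k0 + r + k) * (g (k0 + r + k) - g (k0 + r)) *
          (g (k0 + r) + 2 - g (k0 + r + k)) := by
      -- reindex k = r + l
      rw [sum_Ico_eq_sum_range]
      have hz : ∀ k : ℕ, 0 ≤ cm g V (k0 + r + k) * (g (k0 + r + k) - g (k0 + r)) := by
        intro k
        exact mul_nonneg (hV.cm_nonneg hw _)
          (sub_nonneg.2 (hV.mono.monotone (by lia)))
      calc ∑ l ∈ range (t - r), cm g V (k0 + 1 + ((r + l : ℕ) : ℤ)) *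
            (max (g (k0 + r) + 2 - g (k0 + 1 + ((r + l : ℕ) : ℤ))) 0 *
              (g (k0 + 1 + ((r + l : ℕ) : ℤ)) - g (k0 + r)))
          = ∑ l ∈ range (t - r), cm g V (k0 + r + ((l + 1 : ℕ) : ℤ)) *
              (g (k0 + r + ((l + 1 : ℕ) : ℤ)) - g (k0 + r)) *
              max (g (k0 + r) + 2 - g (k0 + r + ((l + 1 : ℕ) : ℤ))) 0 := by
            refine sum_congr rfl fun l _ => ?_
            have e : k0 + 1 + ((r + l : ℕ) : ℤ) = k0 + r + ((l + 1 : ℕ) : ℤ) := by
              push_cast; ring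
            rw [e]; ring
        _ ≤ ∑ l ∈ range (t - r + 1), cm g V (k0 + r + l) * (g (k0 + r + l) - g (k0 + r)) *
              max (g (k0 + r) + 2 - g (k0 + r + l)) 0 := by
            rw [sum_range_succ' _ (t - r)]
            have : 0 ≤ cm g V (k0 + r + ((0 : ℕ) : ℤ)) *
              (g (k0 + r + ((0 : ℕ) : ℤ)) - g (k0 + r)) *
              max (g (k0 + r) + 2 - g (k0 + r + ((0 : ℕ) : ℤ))) 0 :=
              mul_nonneg (hz 0) (le_max_right _ _)
            linarith
        _ ≤ ∑ l ∈ range (max (t - r + 1) w.toNat), cm g V (k0 + r + l) *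
              (g (k0 + r + l) - g (k0 + r)) * max (g (k0 + r) + 2 - g (k0 + r + l)) 0 := by
            refine sum_le_sum_of_subset_of_nonneg (range_subset_range.2 (le_max_left _ _)) ?_
            intro l _ _
            exact mul_nonneg (hz l) (le_max_right _ _)
        _ = ∑ l ∈ range w.toNat, cm g V (k0 + r + l) *
              (g (k0 + r + l) - g (k0 + r)) * max (g (k0 + r) + 2 - g (k0 + r + l)) 0 := by
            symm
            refine sum_subset (range_subset_range.2 (le_max_right _ _)) ?_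
            intro l _ hl
            rw [mem_range, not_lt] at hl
            have : g (k0 + r) + 2 ≤ g (k0 + r + l) := by
              rw [← hper]
              exact hV.mono.monotone (by lia)
            rw [max_eq_right (by linarith), mul_zero]
        _ ≤ ∑ k ∈ range w.toNat, cm g V (k0 + r + k) * (g (k0 + r + k) - g (k0 + r)) *
          (g (k0 + r) + 2 - g (k0 + r + k)) := by
            refine le_of_eq (sum_congr rfl fun l hl => ?_)
            rw [mem_range] at hl
            have : g (k0 + r + l) ≤ g (k0 + r) + 2 := by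
              rw [← hper]
              exact hV.mono.monotone (by lia)
            rw [max_eq_left (by linarith)]
    linarith
  · intro k hk
    exact hV.mono.monotone (by lia)
  · intro k hk _
    exact hV.mono.monotone (by lia)

variable {m K : ℝ}

/-- sums of masses over long ranges -/
lemma Good.cm_long (hV : Good g w V) (hB : Bdd g w V m K) (n : ℕ) (hn : 1 ≤ n)
    (hwn : w = 4 * n) (hgn : ∀ k, g (k + n) = g k + 1 / 2) (l : ℤ) (M : ℕ) :
    ∑ k ∈ range (M * n), cm g V (l + k) ≤ M * (4 * (K - m)) := by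
  induction M with
  | zero => simp
  | succ M ih =>
    have e : (M + 1) * n = M * n + n := by ring
    rw [e, sum_range_add]
    have h := hV.cm_block hB n hn hwn hgn (l + (M * n : ℕ))
    rw [sum_range_succ] at h
    have h0 := hV.cm_nonneg (by lia) (l + ((M * n : ℕ) : ℤ) + n)
    have h2 : ∑ x ∈ range n, cm g V (l + ((M * n + x : ℕ) : ℤ)) =
        ∑ x ∈ range n, cm g V (l + ((M * n : ℕ) : ℤ) + x) := by
      refine sum_congr rfl fun x _ => ?_
      congr 1
      push_cast
      ring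
    rw [h2]
    push_cast at *
    linarith

lemma Good.cp_long (hV : Good g w V) (hB : Bdd g w V m K) (n : ℕ) (hn : 1 ≤ n)
    (hwn : w = 4 * n) (hgn : ∀ k, g (k + n) = g k + 1 / 2) (l : ℤ) (M : ℕ) :
    ∑ k ∈ range (M * n), cp g V (l + k) ≤ M * (4 * (K - m)) := by
  induction M with
  | zero => simp
  | succ M ih =>
    have e : (M + 1) * n = M * n + n := by ring
    rw [e, sum_range_add]
    have h := hV.cp_block hB n hn hwn hgn (l + (M * n : ℕ))
    rw [sum_range_succ] at h
    have h0 := hV.cp_nonneg (by lia) (l + ((M * n : ℕ) : ℤ) + n)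
    have h2 : ∑ x ∈ range n, cp g V (l + ((M * n + x : ℕ) : ℤ)) =
        ∑ x ∈ range n, cp g V (l + ((M * n : ℕ) : ℤ) + x) := by
      refine sum_congr rfl fun x _ => ?_
      congr 1
      push_cast
      ring
    rw [h2]
    push_cast at *
    linarith

/-- lower bound of the affine pieces at the top -/
lemma Good.Af_lower (hV : Good g w V) (hB : Bdd g w V m K) (n : ℕ) (hn : 1 ≤ n)
    (hwn : w = 4 * n) (hgn : ∀ k, g (k + n) = g k + 1 / 2) (k : ℤ) (x D : ℝ)
    (hx : |x - g k| ≤ D) :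
    m - (K - m) * D - 18 * (K - m) * (D ^ 2 + 1) ≤ Af g V k (x + 1) (x - 1) := by
  have hs := hV.sl_abs (by lia) hB k
  have hg := hV.ga_abs hB n hn hwn hgn k
  have hv := hB.lo k k (by simp; lia)
  have hv' := hB.hi k k (by simp; lia)
  have hKm : 0 ≤ K - m := by linarith
  have hD : 0 ≤ D := (abs_nonneg _).trans hx
  have e : Af g V k (x + 1) (x - 1) = V k k + 2 * sl g V k * (x - g k) +
      ga g V k * ((x - g k) ^ 2 - 1) := by
    unfold Af; ring
  rw [e]
  have h1 : |2 * sl g V k * (x - g k)| ≤ (K - m) * D := by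
    rw [abs_mul, abs_mul]
    have : |(2:ℝ)| = 2 := by norm_num
    rw [this]
    calc 2 * |sl g V k| * |x - g k| ≤ 2 * ((K - m) / 2) * D := by
          refine mul_le_mul ?_ hx (abs_nonneg _) (by linarith)
          linarith
      _ = (K - m) * D := by ring
  have h2 : |ga g V k * ((x - g k) ^ 2 - 1)| ≤ 18 * (K - m) * (D ^ 2 + 1) := by
    rw [abs_mul]
    refine mul_le_mul hg ?_ (abs_nonneg _) (by linarith)
    have h3 : (x - g k) ^ 2 ≤ D ^ 2 := by
      rw [← sq_abs]
      exact pow_le_pow_left₀ (abs_nonneg _) hx 2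
    rw [abs_le]
    constructor <;> nlinarith [sq_nonneg (x - g k)]
  rw [abs_le] at h1 h2
  linarith

/-- right tail -/
lemma Good.Bf_right (hV : Good g w V) (hw : 1 < w) (k0 : ℤ) (t : ℕ) (x : ℝ)
    (hx : g (k0 + t) ≤ x - 1) :
    Bf g V k0 t (x + 1) (x - 1) = Af g V (k0 + t) (x + 1) (x - 1) := by
  rw [hV.Bf_split hw k0 t t le_rfl _ _ (by linarith)]
  · simp
  · intro k hk
    exact (hV.mono.monotone (by lia)).trans hx
  · intro k hk hk'
    exact absurd hk' (not_lt.2 hk)

/-- left tail -/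
lemma Good.Bf_left (hV : Good g w V) (hB : Bdd g w V m K) (n : ℕ) (hn : 1 ≤ n)
    (hwn : w = 4 * n) (hgn : ∀ k, g (k + n) = g k + 1 / 2) (k0 : ℤ) (t : ℕ) (x : ℝ)
    (hx : x - 1 ≤ g k0) :
    Af g V k0 (x + 1) (x - 1) - 16 * (K - m) ≤ Bf g V k0 t (x + 1) (x - 1) := by
  have hw : 1 < w := by lia
  rw [hV.Bf_split hw k0 t 0 (Nat.zero_le _) _ _ (by linarith)]
  · simp only [Nat.cast_zero, add_zero]
    have h := hV.cm_long hB n hn hwn hgn (k0 + 1) 4
    have key : ∑ k ∈ Ico 0 t, cm g V (k0 + 1 + k) *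
        (max (x + 1 - g (k0 + 1 + k)) 0 * (g (k0 + 1 + k) - (x - 1))) ≤
        ∑ k ∈ range (4 * n), cm g V (k0 + 1 + k) := by
      have hgr : ∀ k : ℕ, x - 1 ≤ g (k0 + 1 + k) := fun k =>
        hx.trans (hV.mono.monotone (by lia))
      have hterm : ∀ k : ℕ, cm g V (k0 + 1 + k) *
          (max (x + 1 - g (k0 + 1 + k)) 0 * (g (k0 + 1 + k) - (x - 1))) ≤
          if k < 4 * n then cm g V (k0 + 1 + k) else 0 := by
        intro k
        split_ifs with hk
        · refine mul_le_of_le_one_right (hV.cm_nonneg hw _) ?_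
          rcases le_total (g (k0 + 1 + k)) (x + 1) with h' | h'
          · rw [max_eq_left (by linarith)]
            nlinarith [sq_nonneg (g (k0 + 1 + k) - x)]
          · rw [max_eq_right (by linarith), zero_mul]
            norm_num
        · have : x + 1 ≤ g (k0 + 1 + k) := by
            have h3 : g (k0 + w) ≤ g (k0 + 1 + k) := hV.mono.monotone (by lia)
            rw [hB.per] at h3
            linarith
          rw [max_eq_right (by linarith), zero_mul, mul_zero]
      calc ∑ k ∈ Ico 0 t, cm g V (k0 + 1 + k) *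
          (max (x + 1 - g (k0 + 1 + k)) 0 * (g (k0 + 1 + k) - (x - 1)))
          ≤ ∑ k ∈ Ico 0 t, (if k < 4 * n then cm g V (k0 + 1 + k) else 0) :=
            sum_le_sum fun k _ => hterm k
        _ = ∑ k ∈ (Ico 0 t).filter (fun k => k < 4 * n), cm g V (k0 + 1 + k) := by
            rw [sum_filter]
        _ ≤ ∑ k ∈ range (4 * n), cm g V (k0 + 1 + k) := by
            refine sum_le_sum_of_subset_of_nonneg ?_ fun k _ _ => hV.cm_nonneg hw _
            intro k hk
            rw [mem_filter] at hk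
            exact mem_range.2 hk.2
    push_cast at h
    linarith
  · intro k hk
    exact absurd hk (Nat.not_lt_zero k)
  · intro k _ _
    exact hx.trans (hV.mono.monotone (by lia))

end

end Pool.Agent.R196.BB
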