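import Pool.Agent.R196.BB.Stmt

/-!
# MP_a39268_an : statements of the pieces of the proof
-/

open MeasureTheory Set
open scoped ENNReal

namespace Pool.Agent.R196.BB

/-! ## Half-tangent kernels.  Coordinates on the strip: `p = x₁ + x₂`, `q = x₁ - x₂`. -/

/-- left kernel `(g-p)⁺ (g-q)⁺` -/
noncomputable def Lk (g p q : ℝ) : ℝ := max (g - p) 0 * max (g - q) 0

/-- right kernel `(p-g)⁺ (q-g)⁺` -/
noncomputable def Rk (g p q : ℝ) : ℝ := max (p - g) 0 * max (q - g) 0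

/-- A finite law (weights `w`, values `a`) is in the class `M(p,q)`. -/
structure Law {ι : Type*} [Fintype ι] (w a : ι → ℝ) (p q : ℝ) : Prop where
  nonneg : ∀ i, 0 ≤ w i
  total : ∑ i, w i = 1
  mean : ∑ i, w i * a i = (p + q) / 2
  second : ∑ i, w i * (a i) ^ 2 = p * q + 1
  left : ∀ g, Lk g p q ≤ ∑ i, w i * Lk g (a i + 1) (a i - 1)
  right : ∀ g, Rk g p q ≤ ∑ i, w i * Rk g (a i + 1) (a i - 1)

/-! ## Statements of the pieces -/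

/-- (RS) consequence of the rising sun lemma for functions of BMO seminorm at most one:
if `⟨ζ⟩ > g` then `∫ ((ζ-g)²-1) 1_{ζ ≤ g+1} ≤ 0`. -/
def RisingSun : Prop :=
  ∀ (ζ : ℝ → ℝ), IntegrableOn ζ (Icc 0 1) → IntegrableOn (fun t => (ζ t) ^ 2) (Icc 0 1) →
    (∀ a b, 0 ≤ a → a < b → b ≤ 1 → ∫ t in a..b, (ζ t - avg ζ a b) ^ 2 ≤ b - a) →
    ∀ g, g < ∫ t in (0:ℝ)..1, ζ t →
      ∫ t in Icc (0:ℝ) 1, (if ζ t ≤ g + 1 then (ζ t - g) ^ 2 - 1 else 0) ≤ 0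

/-- (QU) quantile function of a finite law. -/
def Quantile : Prop :=
  ∀ (n : ℕ) (w a : Fin n → ℝ), (∀ i, 0 ≤ w i) → ∑ i, w i = 1 →
    ∃ ζ : ℝ → ℝ, Monotone ζ ∧ (range ζ).Finite ∧
      ∀ φ : ℝ → ℝ, ∫ t in Icc (0:ℝ) 1, φ (ζ t) = ∑ i, w i * φ (a i)

/-- (MB) a bounded monotone function with the half-tangent moment conditions has BMO seminorm at
most one. -/
def MonoBMO : Prop :=
  ∀ (ζ : ℝ → ℝ) (u : ℝ), Monotone ζ → (range ζ).Finite →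
    ∫ t in Icc (0:ℝ) 1, ζ t = u → ∫ t in Icc (0:ℝ) 1, (ζ t) ^ 2 = u ^ 2 + 1 →
    (∀ g, Lk g u u ≤ ∫ t in Icc (0:ℝ) 1, Lk g (ζ t + 1) (ζ t - 1)) →
    (∀ g, Rk g u u ≤ ∫ t in Icc (0:ℝ) 1, Rk g (ζ t + 1) (ζ t - 1)) →
    bmoSq ζ ≤ 1

/-- (SF) the supremum over finite laws dominates the Burkholder function on the midline:
if all finite laws `μ ∈ M(u,u)` satisfy `∫ f dμ ≤ C` then `𝕍(u,0) ≤ C`. -/
def SupFinite : Prop :=
  ∀ (f : ℝ → ℝ) (m : ℝ), (∀ x, m ≤ f x) → ∀ (u C : ℝ),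
    (∀ (n : ℕ) (w a : Fin n → ℝ), Law w a u u → ∑ i, w i * f (a i) ≤ C) →
    burkholder f (u, 0) ≤ (C : EReal)

/-- (GR) periodic grids through finitely many points. -/
def GridExists : Prop :=
  ∀ A : Finset ℝ, ∃ (n : ℕ) (g : ℤ → ℝ), 1 ≤ n ∧ StrictMono g ∧ (∀ k, g (k + n) = g k + 1 / 2) ∧
    ∀ a ∈ A, ∃ k, g k = a

end Pool.Agent.R196.BB
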