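import Pool.Agent.R196.BB.Defs

/-! Periodic grids through finitely many points. -/

namespace Pool.Agent.R196.BB

theorem gridExists : GridExists := by
  classical
  intro A
  let r : ℝ → ℝ := fun a => Int.fract (2 * a) / 2
  let S : Finset ℝ := insert 0 (A.image r)
  have hS0 : ∀ s ∈ S, 0 ≤ s := by
    intro s hs
    rcases Finset.mem_insert.1 hs with rfl | hs
    · exact le_refl _
    · obtain ⟨a, -, rfl⟩ := Finset.mem_image.1 hs
      have := Int.fract_nonneg (2 * a)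
      change 0 ≤ Int.fract (2 * a) / 2
      linarith
  have hS1 : ∀ s ∈ S, s < 1 / 2 := by
    intro s hs
    rcases Finset.mem_insert.1 hs with rfl | hs
    · norm_num
    · obtain ⟨a, -, rfl⟩ := Finset.mem_image.1 hs
      have := Int.fract_lt_one (2 * a)
      change Int.fract (2 * a) / 2 < 1 / 2
      linarith
  obtain ⟨n, hn⟩ : ∃ n, S.card = n := ⟨_, rfl⟩
  have hn1 : 0 < n := by
    rw [← hn]
    exact Finset.card_pos.2 ⟨0, Finset.mem_insert_self _ _⟩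
  have hnz : (0 : ℤ) < (n : ℤ) := by exact_mod_cast hn1
  let e := S.orderIsoOfFin hn
  have hidx : ∀ k : ℤ, (k % n).toNat < n := by
    intro k
    have h1 := Int.emod_nonneg k hnz.ne'
    have h2 := Int.emod_lt_of_pos k hnz
    omega
  let g : ℤ → ℝ := fun k => (e ⟨(k % n).toNat, hidx k⟩ : ℝ) + ((k / n : ℤ) : ℝ) / 2
  refine ⟨n, g, hn1, ?_, ?_, ?_⟩
  · intro k l hkl
    have hq : k / n ≤ l / n := Int.ediv_le_ediv hnz hkl.le
    have hk := Int.emod_add_mul_ediv k n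
    have hl := Int.emod_add_mul_ediv l n
    rcases hq.eq_or_lt with h | h
    · have h3 : (⟨(k % n).toNat, hidx k⟩ : Fin n) < ⟨(l % n).toNat, hidx l⟩ := by
        rw [Fin.mk_lt_mk]
        have h1 := Int.emod_nonneg k hnz.ne'
        have h2 := Int.emod_nonneg l hnz.ne'
        rw [h] at hk
        have : k % n < l % n := by omega
        omega
      have h4 : (e ⟨(k % n).toNat, hidx k⟩ : ℝ) < e ⟨(l % n).toNat, hidx l⟩ := by
        exact_mod_cast e.strictMono h3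
      change (e ⟨(k % n).toNat, hidx k⟩ : ℝ) + ((k / n : ℤ) : ℝ) / 2 <
        (e ⟨(l % n).toNat, hidx l⟩ : ℝ) + ((l / n : ℤ) : ℝ) / 2
      rw [h]
      linarith
    · have h3 := hS1 _ (e ⟨(k % n).toNat, hidx k⟩).2
      have h4 := hS0 _ (e ⟨(l % n).toNat, hidx l⟩).2
      have h5 : ((k / n : ℤ) : ℝ) + 1 ≤ ((l / n : ℤ) : ℝ) := by exact_mod_cast h
      change (e ⟨(k % n).toNat, hidx k⟩ : ℝ) + ((k / n : ℤ) : ℝ) / 2 <
        (e ⟨(l % n).toNat, hidx l⟩ : ℝ) + ((l / n : ℤ) : ℝ) / 2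
      linarith
  · intro k
    have h1 : (k + n) % (n : ℤ) = k % n := Int.add_emod_right k n
    have h2 : (k + n) / (n : ℤ) = k / n + 1 := by
      rw [Int.add_ediv_of_dvd_right (dvd_refl _), Int.ediv_self hnz.ne']
    change (e ⟨((k + n) % (n : ℤ)).toNat, hidx (k + n)⟩ : ℝ) + (((k + n) / (n : ℤ) : ℤ) : ℝ) / 2 =
      (e ⟨(k % n).toNat, hidx k⟩ : ℝ) + ((k / n : ℤ) : ℝ) / 2 + 1 / 2
    have h3 : (⟨((k + n) % (n : ℤ)).toNat, hidx (k + n)⟩ : Fin n) = ⟨(k % n).toNat, hidx k⟩ := by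
      rw [Fin.mk.injEq, h1]
    rw [h3, h2]
    push_cast
    ring
  · intro a ha
    have hr : r a ∈ S := Finset.mem_insert_of_mem (Finset.mem_image_of_mem _ ha)
    obtain ⟨i, hi⟩ := e.surjective ⟨r a, hr⟩
    refine ⟨⌊2 * a⌋ * n + (i : ℕ), ?_⟩
    have hi2 : ((i : ℕ) : ℤ) < n := by exact_mod_cast i.2
    have hi0 : (0 : ℤ) ≤ ((i : ℕ) : ℤ) := by positivity
    have h1 : (⌊2 * a⌋ * n + ((i : ℕ) : ℤ)) % (n : ℤ) = (i : ℕ) := by
      rw [Int.add_comm, Int.add_mul_emod_self_right]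
      exact Int.emod_eq_of_lt hi0 hi2
    have h2 : (⌊2 * a⌋ * n + ((i : ℕ) : ℤ)) / (n : ℤ) = ⌊2 * a⌋ := by
      rw [Int.add_comm, Int.add_mul_ediv_right _ _ hnz.ne', Int.ediv_eq_zero_of_lt hi0 hi2, zero_add]
    change (e ⟨((⌊2 * a⌋ * n + ((i : ℕ) : ℤ)) % (n : ℤ)).toNat, _⟩ : ℝ) +
      (((⌊2 * a⌋ * n + ((i : ℕ) : ℤ)) / (n : ℤ) : ℤ) : ℝ) / 2 = a
    have h3 : (⟨((⌊2 * a⌋ * n + ((i : ℕ) : ℤ)) % (n : ℤ)).toNat, hidx _⟩ : Fin n) = i := by
      apply Fin.ext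
      change ((⌊2 * a⌋ * n + ((i : ℕ) : ℤ)) % (n : ℤ)).toNat = i
      rw [h1]
      simp
    rw [h3, h2, hi]
    change Int.fract (2 * a) / 2 + (⌊2 * a⌋ : ℝ) / 2 = a
    have := Int.floor_add_fract (2 * a)
    linarith

end Pool.Agent.R196.BB
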