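import Pool.Agent.R196.BB.Defs

/-!
Piece (MB) of MP_a39268_an: a monotone step function with the half-tangent moment conditions has BMO
seminorm at most one.
-/

set_option autoImplicit false

open MeasureTheory Set
open scoped ENNReal

namespace Pool.Agent.R196.BB

namespace MB

variable {ζ : ℝ → ℝ}

lemma int_comp (hζ : Monotone ζ) (hf : (range ζ).Finite) {φ : ℝ → ℝ} (hφ : Measurable φ)
    (a b : ℝ) : IntegrableOn (fun t => φ (ζ t)) (Icc a b) := by
  have h1 : (range fun t => φ (ζ t)).Finite := by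
    have : (range fun t => φ (ζ t)) = φ '' range ζ := range_comp φ ζ
    rw [this]
    exact hf.image φ
  obtain ⟨C, hC⟩ := h1.isBounded.exists_norm_le
  exact Measure.integrableOn_of_bounded (M := C) (by simp)
    (hφ.comp hζ.measurable).aestronglyMeasurable (ae_of_all _ fun t => hC _ ⟨t, rfl⟩)

/-- The tangent kernel. -/
def l (g x : ℝ) : ℝ := (x - g) ^ 2 - 1

lemma measurable_l (g : ℝ) : Measurable (l g) := by unfold l; fun_prop

lemma integral_l (hζ : Monotone ζ) (hf : (range ζ).Finite) {u : ℝ}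
    (h1 : ∫ t in Icc (0:ℝ) 1, ζ t = u) (h2 : ∫ t in Icc (0:ℝ) 1, (ζ t) ^ 2 = u ^ 2 + 1) (g : ℝ) :
    ∫ t in Icc (0:ℝ) 1, l g (ζ t) = (u - g) ^ 2 := by
  have e : ∀ t, l g (ζ t) = (ζ t) ^ 2 + ((-2 * g) * ζ t + (g ^ 2 - 1)) := fun t => by
    unfold l; ring
  simp_rw [e]
  have i1 : IntegrableOn (fun t => (ζ t) ^ 2) (Icc 0 1) := int_comp hζ hf (φ := fun x => x ^ 2)
    (by fun_prop) 0 1
  have i2 : IntegrableOn (fun t => (-2 * g) * ζ t) (Icc 0 1) := int_comp hζ hf
    (φ := fun x => (-2 * g) * x) (by fun_prop) 0 1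
  have i3 : IntegrableOn (fun _ : ℝ => (g ^ 2 - 1)) (Icc (0:ℝ) 1) := int_comp hζ hf
    (φ := fun x => (g ^ 2 - 1)) (by fun_prop) 0 1
  have i23 : IntegrableOn (fun t => (-2 * g) * ζ t + (g ^ 2 - 1)) (Icc 0 1) := i2.add i3
  rw [integral_add i1 i23, integral_add i2 i3, integral_const_mul, h1, h2,
    setIntegral_const]
  simp
  ring

lemma Rk_eq (g x : ℝ) : Rk g (x + 1) (x - 1) = l g x - if x ≤ g + 1 then l g x else 0 := by
  unfold Rk
  split_ifs with h
  · have : max (x - 1 - g) 0 = 0 := max_eq_right (by linarith)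
    rw [this]; ring
  · push Not at h
    rw [max_eq_left (by linarith), max_eq_left (by linarith)]
    unfold l; ring

lemma Lk_eq (g x : ℝ) : Lk g (x + 1) (x - 1) = l g x - if g - 1 ≤ x then l g x else 0 := by
  unfold Lk
  split_ifs with h
  · have : max (g - (x + 1)) 0 = 0 := max_eq_right (by linarith)
    rw [this]; ring
  · push Not at h
    rw [max_eq_left (by linarith), max_eq_left (by linarith)]
    unfold l; ring

/-- Restriction of the interval. -/
lemma restr {Ψ : ℝ → ℝ} (hi : IntegrableOn Ψ (Icc 0 1)) {s t : ℝ} (hs : 0 ≤ s) (ht : t ≤ 1)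
    (hpos : ∀ x ∈ Icc (0:ℝ) 1, x ∉ Icc s t → 0 ≤ Ψ x) (h : ∫ x in Icc (0:ℝ) 1, Ψ x ≤ 0) :
    ∫ x in Icc s t, Ψ x ≤ 0 := by
  have hsub : Icc s t ⊆ Icc (0:ℝ) 1 := Icc_subset_Icc hs ht
  have h1 : ∫ x in Icc (0:ℝ) 1 \ Icc s t, Ψ x = (∫ x in Icc (0:ℝ) 1, Ψ x) - ∫ x in Icc s t, Ψ x :=
    setIntegral_sdiff measurableSet_Icc hi hsub
  have h2 : 0 ≤ ∫ x in Icc (0:ℝ) 1 \ Icc s t, Ψ x :=
    setIntegral_nonneg (measurableSet_Icc.diff measurableSet_Icc) fun x hx => hpos x hx.1 hx.2
  linarith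

lemma exists_g (hζ : Monotone ζ) (hf : (range ζ).Finite) {u : ℝ}
    (h1 : ∫ t in Icc (0:ℝ) 1, ζ t = u) (h2 : ∫ t in Icc (0:ℝ) 1, (ζ t) ^ 2 = u ^ 2 + 1)
    (hL : ∀ g, Lk g u u ≤ ∫ t in Icc (0:ℝ) 1, Lk g (ζ t + 1) (ζ t - 1))
    (hR : ∀ g, Rk g u u ≤ ∫ t in Icc (0:ℝ) 1, Rk g (ζ t + 1) (ζ t - 1)) {s t : ℝ}
    (hs : 0 ≤ s) (ht : t ≤ 1) : ∃ g, ∫ x in Icc s t, l g (ζ x) ≤ 0 := by
  set α := ζ s with hα
  set β := ζ t with hβ
  by_cases c1 : β - α ≤ 2
  · refine ⟨(α + β) / 2, setIntegral_nonpos measurableSet_Icc fun x hx => ?_⟩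
    have h3 : α ≤ ζ x := hζ hx.1
    have h4 : ζ x ≤ β := hζ hx.2
    unfold l
    nlinarith
  push Not at c1
  by_cases c2 : β < u + 1
  · refine ⟨β - 1, ?_⟩
    set g := β - 1 with hg
    set Ψ : ℝ → ℝ := fun x => if ζ x ≤ g + 1 then l g (ζ x) else 0 with hΨ
    have hm : Measurable fun y : ℝ => if y ≤ g + 1 then l g y else 0 :=
      Measurable.ite measurableSet_Iic (measurable_l g) measurable_const
    have hi : IntegrableOn Ψ (Icc 0 1) := int_comp hζ hf hm 0 1
    have h3 : ∫ x in Icc (0:ℝ) 1, Ψ x ≤ 0 := by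
      have h4 := hR g
      simp_rw [Rk_eq] at h4
      rw [integral_sub (int_comp hζ hf (measurable_l g) 0 1) hi,
        integral_l hζ hf h1 h2] at h4
      have h5 : Rk g u u = (u - g) ^ 2 := by
        unfold Rk
        rw [max_eq_left (by linarith)]
        ring
      rw [h5] at h4
      linarith
    have h4 := restr hi hs ht (fun x hx hn => ?_) h3
    · refine le_trans (le_of_eq ?_) h4
      refine setIntegral_congr_fun measurableSet_Icc fun x hx => ?_
      have h5 : ζ x ≤ β := hζ hx.2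
      simp only [hΨ]
      rw [if_pos (by linarith)]
    · simp only [hΨ]
      split_ifs with h5
      · rcases lt_or_ge x s with h6 | h6
        · have h7 : ζ x ≤ α := hζ h6.le
          unfold l
          nlinarith
        · have h7 : t < x := by
            by_contra hc
            exact hn ⟨h6, not_lt.1 hc⟩
          have h8 : β ≤ ζ x := hζ h7.le
          have h9 : ζ x = g + 1 := by linarith
          rw [h9]
          unfold l
          ring_nf
          exact le_rfl
      · exact le_rfl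
  push Not at c2
  by_cases c3 : u - 1 < α
  · refine ⟨α + 1, ?_⟩
    set g := α + 1 with hg
    set Ψ : ℝ → ℝ := fun x => if g - 1 ≤ ζ x then l g (ζ x) else 0 with hΨ
    have hm : Measurable fun y : ℝ => if g - 1 ≤ y then l g y else 0 :=
      Measurable.ite measurableSet_Ici (measurable_l g) measurable_const
    have hi : IntegrableOn Ψ (Icc 0 1) := int_comp hζ hf hm 0 1
    have h3 : ∫ x in Icc (0:ℝ) 1, Ψ x ≤ 0 := by
      have h4 := hL g
      simp_rw [Lk_eq] at h4
      rw [integral_sub (int_comp hζ hf (measurable_l g) 0 1) hi,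
        integral_l hζ hf h1 h2] at h4
      have h5 : Lk g u u = (u - g) ^ 2 := by
        unfold Lk
        rw [max_eq_left (by linarith)]
        ring
      rw [h5] at h4
      linarith
    have h4 := restr hi hs ht (fun x hx hn => ?_) h3
    · refine le_trans (le_of_eq ?_) h4
      refine setIntegral_congr_fun measurableSet_Icc fun x hx => ?_
      have h5 : α ≤ ζ x := hζ hx.1
      simp only [hΨ]
      rw [if_pos (by linarith)]
    · simp only [hΨ]
      split_ifs with h5
      · rcases lt_or_ge x s with h6 | h6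
        · have h7 : ζ x ≤ α := hζ h6.le
          have h9 : ζ x = g - 1 := by linarith
          rw [h9]
          unfold l
          ring_nf
          exact le_rfl
        · have h7 : t < x := by
            by_contra hc
            exact hn ⟨h6, not_lt.1 hc⟩
          have h8 : β ≤ ζ x := hζ h7.le
          unfold l
          nlinarith
      · exact le_rfl
  push Not at c3
  refine ⟨u, restr (int_comp hζ hf (measurable_l u) 0 1) hs ht (fun x hx hn => ?_) ?_⟩
  · rcases lt_or_ge x s with h6 | h6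
    · have h7 : ζ x ≤ α := hζ h6.le
      unfold l
      nlinarith
    · have h7 : t < x := by
        by_contra hc
        exact hn ⟨h6, not_lt.1 hc⟩
      have h8 : β ≤ ζ x := hζ h7.le
      unfold l
      nlinarith
  · rw [integral_l hζ hf h1 h2]
    simp

end MB

open MB in
theorem monoBMO : MonoBMO := by
  intro ζ u hζ hf h1 h2 hL hR
  unfold bmoSq
  refine iSup_le fun s => iSup_le fun t => iSup_le fun ⟨hs, hst, ht⟩ => ?_
  obtain ⟨g, hg⟩ := exists_g hζ hf h1 h2 hL hR hs ht
  set m := avg ζ s t with hm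
  have hst' : 0 < t - s := by linarith
  have hi1 : IntegrableOn (fun x => (ζ x - m) ^ 2) (Icc s t) :=
    int_comp hζ hf (φ := fun x => (x - m) ^ 2) (by fun_prop) s t
  have hi0 : IntegrableOn ζ (Icc s t) := int_comp hζ hf (φ := fun x => x) (by fun_prop) s t
  have hmean : ∫ x in Icc s t, ζ x = m * (t - s) := by
    rw [hm, avg, intervalIntegral.integral_of_le hst.le, ← integral_Icc_eq_integral_Ioc]
    field_simp
  have key : ∫ x in Icc s t, (ζ x - m) ^ 2 ≤ t - s := by
    have e : ∀ x, l g (ζ x) = (ζ x - m) ^ 2 + (2 * (m - g) * ζ x + ((g ^ 2 - m ^ 2) - 1)) := fun x => by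
      unfold l; ring
    simp_rw [e] at hg
    have i2 : IntegrableOn (fun x => 2 * (m - g) * ζ x) (Icc s t) := hi0.const_mul _
    have i3 : IntegrableOn (fun _ : ℝ => ((g ^ 2 - m ^ 2) - 1)) (Icc s t) := int_comp hζ hf
      (φ := fun x => ((g ^ 2 - m ^ 2) - 1)) (by fun_prop) s t
    have i23 : IntegrableOn (fun x => 2 * (m - g) * ζ x + ((g ^ 2 - m ^ 2) - 1)) (Icc s t) :=
      i2.add i3
    rw [integral_add hi1 i23, integral_add i2 i3, integral_const_mul, hmean,
      setIntegral_const] at hg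
    simp only [smul_eq_mul, Measure.real, Real.volume_Icc, ENNReal.toReal_ofReal hst'.le] at hg
    nlinarith [mul_nonneg hst'.le (sq_nonneg (m - g))]
  have h3 : ∫⁻ x in Icc s t, ENNReal.ofReal (|ζ x - m| ^ 2) ≤ ENNReal.ofReal (t - s) := by
    simp_rw [sq_abs]
    rw [← ofReal_integral_eq_lintegral_ofReal hi1 (ae_of_all _ fun x => sq_nonneg _)]
    exact ENNReal.ofReal_le_ofReal key
  rw [ENNReal.div_le_iff (by simpa using hst') ENNReal.ofReal_ne_top, one_mul]
  exact h3

end Pool.Agent.R196.BB
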