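import Pool.Agent.R196.BB.Defs

/-!
Piece (QU) of MP_a39268_an: quantile function of a finite law.
-/

set_option autoImplicit false

open MeasureTheory Set
open scoped ENNReal

namespace Pool.Agent.R196.BB

namespace QU

lemma int_comp {ζ : ℝ → ℝ} (hζ : Monotone ζ) (hf : (range ζ).Finite) (φ : ℝ → ℝ) {s : Set ℝ}
    (hs : volume s ≠ ⊤) : IntegrableOn (fun t => φ (ζ t)) s := by
  have h1 : (range fun t => φ (ζ t)).Finite := by
    have : (range fun t => φ (ζ t)) = φ '' range ζ := range_comp φ ζ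
    rw [this]
    exact hf.image φ
  have hm : Measurable fun t => φ (ζ t) := by
    intro B _
    have : (fun t => φ (ζ t)) ⁻¹' B = ζ ⁻¹' (φ ⁻¹' B ∩ range ζ) := by
      ext t; simp
    rw [this]
    exact hζ.measurable (hf.inter_of_right _).measurableSet
  obtain ⟨C, hC⟩ := h1.isBounded.exists_norm_le
  exact Measure.integrableOn_of_bounded (M := C) hs
    hm.aestronglyMeasurable (ae_of_all _ fun t => hC _ ⟨t, rfl⟩)

lemma sorted : ∀ (n : ℕ) (w a : Fin n → ℝ), (∀ i, 0 ≤ w i) → Monotone a → ∀ M : ℝ,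
    (∀ i, a i ≤ M) → ∃ ζ : ℝ → ℝ, Monotone ζ ∧ (range ζ).Finite ∧ (∀ t, ζ t ≤ M) ∧
      ∀ φ : ℝ → ℝ, ∫ t in Icc (0:ℝ) (∑ i, w i), φ (ζ t) = ∑ i, w i * φ (a i) := by
  intro n
  induction n with
  | zero =>
    intro w a _ _ M _
    refine ⟨fun _ => M, monotone_const, ?_, fun _ => le_rfl, fun φ => ?_⟩
    · exact (Set.finite_singleton M).subset (by rintro _ ⟨t, rfl⟩; rfl)
    · simp
  | succ n ih =>
    intro w a hw ha M hM
    obtain ⟨ζ', h1, h2, h3, h4⟩ := ih (fun i => w i.castSucc) (fun i => a i.castSucc)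
      (fun i => hw _) (fun i j hij => ha (by simpa using hij)) (a (Fin.last n))
      (fun i => ha (Fin.le_last _))
    set m := ∑ i : Fin n, w i.castSucc with hm
    have hm0 : 0 ≤ m := Finset.sum_nonneg fun i _ => hw _
    set b := a (Fin.last n) with hb
    set v := w (Fin.last n) with hv
    have hv0 : 0 ≤ v := hw _
    set ζ : ℝ → ℝ := fun t => if t ≤ m then ζ' t else b with hζ
    have g1 : Monotone ζ := by
      intro t t' htt
      simp only [hζ]
      split_ifs with c1 c2 c2
      · exact h1 htt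
      · exact h3 t
      · exact absurd (htt.trans c2) c1
      · exact le_rfl
    have g2 : (range ζ).Finite := by
      refine (h2.union (Set.finite_singleton b)).subset ?_
      rintro _ ⟨t, rfl⟩
      simp only [hζ]
      split_ifs
      · exact Or.inl ⟨t, rfl⟩
      · exact Or.inr rfl
    refine ⟨ζ, g1, g2, ?_, ?_⟩
    · intro t
      simp only [hζ]
      split_ifs
      · exact (h3 t).trans (hM _)
      · exact hM _
    · intro φ
      rw [Fin.sum_univ_castSucc, Fin.sum_univ_castSucc, ← h4 φ]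
      have hu : Icc (0:ℝ) (m + v) = Icc 0 m ∪ Ioc m (m + v) := by
        rw [Icc_union_Ioc_eq_Icc hm0 (by linarith)]
      have hd : Disjoint (Icc (0:ℝ) m) (Ioc m (m + v)) := by
        rw [Set.disjoint_left]
        intro x hx hx'
        exact absurd hx.2 (not_le.2 hx'.1)
      rw [hu, setIntegral_union hd measurableSet_Ioc (int_comp g1 g2 φ (by simp))
        (int_comp g1 g2 φ (by simp))]
      congr 1
      · refine setIntegral_congr_fun measurableSet_Icc fun t ht => ?_
        simp only [hζ]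
        rw [if_pos ht.2]
      · have : ∫ t in Ioc m (m + v), φ (ζ t) = ∫ t in Ioc m (m + v), φ b := by
          refine setIntegral_congr_fun measurableSet_Ioc fun t ht => ?_
          simp only [hζ]
          rw [if_neg (not_le.2 ht.1)]
        rw [this, setIntegral_const]
        simp only [Measure.real, Real.volume_Ioc, add_sub_cancel_left,
          ENNReal.toReal_ofReal hv0, smul_eq_mul]
        rfl

end QU

open QU in
theorem quantile : Quantile := by
  intro n w a hw h1
  set σ := Tuple.sort a with hσ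
  have hmono : Monotone (a ∘ σ) := Tuple.monotone_sort a
  obtain ⟨M, hM⟩ : ∃ M, ∀ i, (a ∘ σ) i ≤ M := by
    obtain ⟨M, hM⟩ := (Set.finite_range (a ∘ σ)).bddAbove
    exact ⟨M, fun i => hM ⟨i, rfl⟩⟩
  obtain ⟨ζ, g1, g2, -, g4⟩ := sorted n (w ∘ σ) (a ∘ σ) (fun i => hw _) hmono M hM
  refine ⟨ζ, g1, g2, fun φ => ?_⟩
  have h2 : ∑ i, (w ∘ σ) i = 1 := by
    rw [← h1]
    exact Equiv.sum_comp σ w
  have h3 := g4 φ
  rw [h2] at h3
  rw [h3]
  exact Equiv.sum_comp σ (fun i => w i * φ (a i))

end Pool.Agent.R196.BB
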