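import Pool.Agent.R196.BB.Defs

/-! (RS) rising sun lemma consequence. -/

open MeasureTheory Set
open scoped ENNReal

namespace Pool.Agent.R196.BB

/-- the gaps of a closed set inside `(b0, 1)` -/
lemma gaps_le {P : Set ℝ} (hP : IsClosed P) {b0 b1 : ℝ} (hb0 : b0 ∈ P) (hb1 : b1 ∈ P)
    {h : ℝ → ℝ} (hh : IntegrableOn h (Ioo b0 b1))
    (hgap : ∀ a b, a ∈ P → b ∈ P → b0 ≤ a → a < b → b ≤ b1 → Disjoint (Ioo a b) P →
      ∫ t in Ioo a b, h t ≤ 0) :
    ∫ t in Ioo b0 b1 \ P, h t ≤ 0 := by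
  let J : Type := {p : ℝ × ℝ // p.1 ∈ P ∧ p.2 ∈ P ∧ b0 ≤ p.1 ∧ p.1 < p.2 ∧ p.2 ≤ b1 ∧
    Disjoint (Ioo p.1 p.2) P}
  let s : J → Set ℝ := fun p => Ioo p.1.1 p.1.2
  have hdisj : Pairwise (Function.onFun Disjoint s) := by
    intro p q hpq
    rw [Function.onFun, Set.disjoint_left]
    intro y hy hy'
    apply hpq
    obtain ⟨⟨a, b⟩, ha, hb, h1, h2, h3, h4⟩ := p
    obtain ⟨⟨a', b'⟩, ha', hb', h1', h2', h3', h4'⟩ := q
    simp only [s, mem_Ioo] at hy hy'
    simp only at ha hb h1 h2 h3 h4 ha' hb' h1' h2' h3' h4'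
    rw [Set.disjoint_left] at h4 h4'
    have e1 : a = a' := by
      rcases lt_trichotomy a a' with h | h | h
      · exact absurd ha' (h4 ⟨h, hy'.1.trans hy.2⟩)
      · exact h
      · exact absurd ha (h4' ⟨h, hy.1.trans hy'.2⟩)
    have e2 : b = b' := by
      rcases lt_trichotomy b b' with h | h | h
      · exact absurd hb (h4' ⟨hy'.1.trans hy.2, h⟩)
      · exact h
      · exact absurd hb' (h4 ⟨hy.1.trans hy'.2, h⟩)
    subst e1; subst e2; rfl
  have hcount : Countable J := by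
    have h1 : (Set.univ : Set J).PairwiseDisjoint s := fun p _ q _ hpq => hdisj hpq
    have h2 := h1.countable_of_isOpen (fun p _ => isOpen_Ioo)
      (fun p _ => nonempty_Ioo.mpr p.2.2.2.2.1)
    exact Set.countable_univ_iff.mp h2
  have hU : (⋃ p : J, s p) = Ioo b0 b1 \ P := by
    ext x
    rw [Set.mem_iUnion]
    constructor
    · rintro ⟨p, hp⟩
      refine ⟨⟨lt_of_le_of_lt p.2.2.2.1 hp.1, lt_of_lt_of_le hp.2 p.2.2.2.2.2.1⟩, ?_⟩
      exact Set.disjoint_left.mp p.2.2.2.2.2.2 hp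
    · rintro ⟨⟨hx0, hx1⟩, hxP⟩
      have hc1 : IsCompact (P ∩ Icc b0 x) := isCompact_Icc.inter_left hP
      have hc2 : IsCompact (P ∩ Icc x b1) := isCompact_Icc.inter_left hP
      obtain ⟨ha, ha2⟩ := hc1.isGreatest_sSup ⟨b0, hb0, le_rfl, hx0.le⟩
      obtain ⟨hb, hb2⟩ := hc2.isLeast_sInf ⟨b1, hb1, hx1.le, le_rfl⟩
      set a := sSup (P ∩ Icc b0 x)
      set b := sInf (P ∩ Icc x b1)
      have hax : a < x := lt_of_le_of_ne ha.2.2 (fun h => hxP (h ▸ ha.1))
      have hxb : x < b := lt_of_le_of_ne hb.2.1 (fun h => hxP (h ▸ hb.1))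
      refine ⟨⟨(a, b), ha.1, hb.1, ha.2.1, hax.trans hxb, hb.2.2, ?_⟩, hax, hxb⟩
      rw [Set.disjoint_left]
      intro y hy hyP
      rcases le_total y x with hyx | hxy
      · have := ha2 ⟨hyP, ha.2.1.trans hy.1.le, hyx⟩
        exact absurd hy.1 (not_lt.mpr this)
      · have := hb2 ⟨hyP, hxy, hy.2.le.trans hb.2.2⟩
        exact absurd hy.2 (not_lt.mpr this)
  rw [← hU, integral_iUnion (fun p => measurableSet_Ioo) hdisj (by
    rw [hU]; exact hh.mono_set Set.sdiff_subset)]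
  refine tsum_nonpos fun p => ?_
  exact hgap _ _ p.2.1 p.2.2.1 p.2.2.2.1 p.2.2.2.2.1 p.2.2.2.2.2.1 p.2.2.2.2.2.2

theorem risingSun : RisingSun := by
  intro ζ hζ hζ2 hbmo g hg
  -- the truncated function and its primitive
  set f : ℝ → ℝ := (Icc (0 : ℝ) 1).indicator (fun t => ζ t - g) with hf
  have hfint : Integrable f := by
    rw [hf, integrable_indicator_iff measurableSet_Icc]
    exact hζ.sub (integrableOn_const (by simp))
  set F : ℝ → ℝ := fun x => ∫ t in (0 : ℝ)..x, f t with hF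
  have hFc : Continuous F := intervalIntegral.continuous_primitive (fun a b => hfint.intervalIntegrable) 0
  have hFsub : ∀ a b, 0 ≤ a → a ≤ b → b ≤ 1 → F b - F a = (∫ t in a..b, ζ t) - g * (b - a) := by
    intro a b ha hab hb
    have e1 : F b - F a = ∫ t in a..b, f t := by
      simp only [hF]
      rw [intervalIntegral.integral_interval_sub_left hfint.intervalIntegrable
        hfint.intervalIntegrable]
    rw [e1]
    have e2 : ∫ t in a..b, f t = ∫ t in a..b, (ζ t - g) := by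
      refine intervalIntegral.integral_congr fun t ht => ?_
      rw [uIcc_of_le hab] at ht
      simp only [hf]
      have hm : t ∈ Icc (0 : ℝ) 1 := ⟨ha.trans ht.1, ht.2.trans hb⟩
      rw [indicator_of_mem hm]
    rw [e2, intervalIntegral.integral_sub]
    · simp [mul_comm]
    · rw [intervalIntegrable_iff_integrableOn_Icc_of_le hab]
      exact hζ.mono_set (Icc_subset_Icc ha hb)
    · exact intervalIntegrable_const
  have hF0 : F 0 = 0 := by simp [hF]
  have hF1 : 0 < F 1 := by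
    have := hFsub 0 1 le_rfl zero_le_one le_rfl
    rw [hF0] at this
    linarith
  -- the function to be integrated
  set φ : ℝ → ℝ := fun x => if x ≤ g + 1 then (x - g) ^ 2 - 1 else 0 with hφ
  have hφm : Measurable φ := by
    refine Measurable.ite measurableSet_Iic ?_ measurable_const
    fun_prop
  have hsq : IntegrableOn (fun t => (ζ t - g) ^ 2 - 1) (Icc 0 1) := by
    have : (fun t => (ζ t - g) ^ 2 - 1) = fun t => (ζ t) ^ 2 - 2 * g * ζ t + (g ^ 2 - 1) := by
      funext t; ring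
    rw [this]
    exact (hζ2.sub (hζ.const_mul _)).add (integrableOn_const (by simp))
  have hsq' : IntegrableOn (fun t => (ζ t - g) ^ 2 + 1) (Icc 0 1) := by
    have : (fun t => (ζ t - g) ^ 2 + 1) = fun t => (ζ t) ^ 2 - 2 * g * ζ t + (g ^ 2 + 1) := by
      funext t; ring
    rw [this]
    exact (hζ2.sub (hζ.const_mul _)).add (integrableOn_const (by simp))
  have hh : IntegrableOn (fun t => φ (ζ t)) (Icc 0 1) := by
    refine Integrable.mono' hsq' (hφm.comp_aemeasurable hζ.aemeasurable).aestronglyMeasurable ?_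
    refine Filter.Eventually.of_forall fun t => ?_
    simp only [hφ]
    split_ifs
    · rw [Real.norm_eq_abs, abs_le]
      constructor <;> nlinarith [sq_nonneg (ζ t - g)]
    · rw [norm_zero]; positivity
  have hφle : ∀ x, φ x ≤ (x - g) ^ 2 - 1 := by
    intro x
    simp only [hφ]
    split_ifs with h
    · exact le_rfl
    · push Not at h
      nlinarith
  -- intervals with the same value of `F` at the end points
  have hJ : ∀ a b, 0 ≤ a → a < b → b ≤ 1 → F a = F b → ∫ t in Ioo a b, φ (ζ t) ≤ 0 := by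
    intro a b ha hab hb hFab
    have h1 : ∫ t in a..b, ζ t = g * (b - a) := by
      have := hFsub a b ha hab.le hb
      linarith
    have h2 : avg ζ a b = g := by
      unfold avg
      rw [h1]
      have : b - a ≠ 0 := by linarith
      field_simp
    have h3 := hbmo a b ha hab hb
    rw [h2, intervalIntegral.integral_of_le hab.le] at h3
    have h4 : ∫ t in Ioo a b, φ (ζ t) ≤ ∫ t in Ioo a b, ((ζ t - g) ^ 2 - 1) := by
      refine setIntegral_mono_on (hh.mono_set ?_) (hsq.mono_set ?_) measurableSet_Ioo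
        (fun t _ => hφle _)
      · exact (Ioo_subset_Icc_self.trans (Icc_subset_Icc ha hb))
      · exact (Ioo_subset_Icc_self.trans (Icc_subset_Icc ha hb))
    refine h4.trans ?_
    rw [← integral_Ioc_eq_integral_Ioo]
    have hsq1 : IntegrableOn (fun t => (ζ t - g) ^ 2) (Ioc a b) := by
      have := (hsq'.sub (integrableOn_const (C := (1 : ℝ)) (by simp))).mono_set
        (Ioc_subset_Icc_self.trans (Icc_subset_Icc ha hb))
      refine this.congr_fun (fun t _ => ?_) measurableSet_Ioc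
      simp
    rw [integral_sub hsq1 (integrableOn_const (by simp))]
    simp [hab.le]
    linarith
  -- the last point with `F ≤ 0`
  have hc0 : IsCompact (Icc (0 : ℝ) 1 ∩ F ⁻¹' Iic 0) :=
    isCompact_Icc.inter_right (isClosed_Iic.preimage hFc)
  obtain ⟨hb0m, hb0g⟩ := hc0.isGreatest_sSup ⟨0, ⟨le_rfl, zero_le_one⟩, hF0.le⟩
  set b0 := sSup (Icc (0 : ℝ) 1 ∩ F ⁻¹' Iic 0)
  have hb0le : F b0 ≤ 0 := hb0m.2
  have hb0lt : b0 < 1 := lt_of_le_of_ne hb0m.1.2 (fun h => by rw [h] at hb0le; linarith)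
  have hpos : ∀ y, b0 < y → y ≤ 1 → 0 < F y := by
    intro y hy hy1
    by_contra hcon
    push Not at hcon
    have := hb0g ⟨⟨hb0m.1.1.trans hy.le, hy1⟩, hcon⟩
    exact absurd hy (not_lt.mpr this)
  have hFb0 : F b0 = 0 := by
    refine le_antisymm hb0le ?_
    by_contra hcon
    push Not at hcon
    obtain ⟨c, hc, hc0⟩ : (0 : ℝ) ∈ F '' Icc b0 1 :=
      intermediate_value_Icc hb0lt.le hFc.continuousOn ⟨hcon.le, hF1.le⟩
    have hcb : b0 < c := lt_of_le_of_ne hc.1 (fun h => by rw [← h] at hc0; linarith)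
    have := hpos c hcb hc.2
    linarith
  -- the set of record points
  set P : Set ℝ := {x | x ∈ Icc b0 1 ∧ ∀ y ∈ Icc b0 1, F x ≤ F (max x y)} with hP
  have hPc : IsClosed P := by
    have : P = Icc b0 1 ∩ ⋂ y ∈ Icc b0 1, {x | F x ≤ F (max x y)} := by
      ext x; simp [hP]
    rw [this]
    refine isClosed_Icc.inter (isClosed_biInter fun y _ => ?_)
    exact isClosed_le hFc (hFc.comp (continuous_id.max continuous_const))
  have hPiff : ∀ x, x ∈ P ↔ x ∈ Icc b0 1 ∧ ∀ y, x ≤ y → y ≤ 1 → F x ≤ F y := by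
    intro x
    constructor
    · rintro ⟨hx, h⟩
      refine ⟨hx, fun y hxy hy => ?_⟩
      have := h y ⟨hx.1.trans hxy, hy⟩
      rwa [max_eq_right hxy] at this
    · rintro ⟨hx, h⟩
      refine ⟨hx, fun y hy => h _ (le_max_left _ _) (max_le hx.2 hy.2)⟩
  have hb0P : b0 ∈ P := by
    rw [hPiff]
    refine ⟨⟨le_rfl, hb0lt.le⟩, fun y hy hy1 => ?_⟩
    rw [hFb0]
    rcases hy.eq_or_lt with h | h
    · rw [← h, hFb0]
    · exact (hpos y h hy1).le
  have h1P : (1 : ℝ) ∈ P := by
    rw [hPiff]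
    refine ⟨⟨hb0lt.le, le_rfl⟩, fun y hy hy1 => ?_⟩
    rw [le_antisymm hy1 hy]
  have hgapF : ∀ a b, a ∈ P → b ∈ P → b0 ≤ a → a < b → b ≤ 1 → Disjoint (Ioo a b) P → F a = F b := by
    intro a b ha hb hba hab hb1 hdis
    have hle : F a ≤ F b := ((hPiff a).mp ha).2 b hab.le hb1
    by_contra hne
    have hlt : F a < F b := lt_of_le_of_ne hle hne
    set v := (F a + F b) / 2 with hv
    have hcomp : IsCompact (Icc a b ∩ F ⁻¹' Iic v) :=
      isCompact_Icc.inter_right (isClosed_Iic.preimage hFc)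
    obtain ⟨hcm, hcg⟩ := hcomp.isGreatest_sSup ⟨a, ⟨le_rfl, hab.le⟩, by
      show F a ≤ v
      rw [hv]; linarith⟩
    set c := sSup (Icc a b ∩ F ⁻¹' Iic v)
    have hFc' : F c ≤ v := hcm.2
    have hcb : c < b := lt_of_le_of_ne hcm.1.2 (fun h => by rw [h, hv] at hFc'; linarith)
    obtain ⟨d, hd, hdv⟩ : v ∈ F '' Icc a b :=
      intermediate_value_Icc hab.le hFc.continuousOn ⟨by rw [hv]; linarith, by rw [hv]; linarith⟩
    have hdc : d ≤ c := hcg ⟨hd, hdv.le⟩
    have had : a < d := lt_of_le_of_ne hd.1 (fun h => by rw [← h, hv] at hdv; linarith)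
    have hac : a < c := had.trans_le hdc
    refine Set.disjoint_left.mp hdis (⟨hac, hcb⟩ : c ∈ Ioo a b) ?_
    rw [hPiff]
    refine ⟨⟨hba.trans hac.le, hcb.le.trans hb1⟩, fun y hcy hy1 => ?_⟩
    rcases le_total y b with hyb | hby
    · rcases hcy.eq_or_lt with h | h
      · rw [h]
      · by_contra hcon
        push Not at hcon
        have := hcg ⟨⟨hac.le.trans hcy, hyb⟩, (hcon.le.trans hFc')⟩
        exact absurd h (not_lt.mpr this)
    · have := ((hPiff b).mp hb).2 y hby hy1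
      rw [hv] at hFc'
      linarith
  -- the part outside `P`
  have hout : ∫ t in Ioo b0 1 \ P, φ (ζ t) ≤ 0 := by
    refine gaps_le hPc hb0P h1P (hh.mono_set ?_) ?_
    · exact Ioo_subset_Icc_self.trans (Icc_subset_Icc hb0m.1.1 le_rfl)
    · intro a b ha hb hba hab hb1 hdis
      exact hJ a b (hb0m.1.1.trans hba) hab hb1 (hgapF a b ha hb hba hab hb1 hdis)
  -- the part inside `P`
  have hin : ∫ t in Ioo b0 1 ∩ P, φ (ζ t) ≤ 0 := by
    refine integral_nonpos_of_ae ?_
    have hae := LocallyIntegrable.ae_hasDerivAt_integral hfint.locallyIntegrable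
    rw [Filter.EventuallyLE, ae_restrict_iff' (measurableSet_Ioo.inter hPc.measurableSet)]
    filter_upwards [hae] with x hx hxP
    have hder : HasDerivAt F (f x) x := hx 0
    have hx01 : x ∈ Icc (0 : ℝ) 1 := ⟨hb0m.1.1.trans hxP.1.1.le, hxP.1.2.le⟩
    have hge : 0 ≤ f x := by
      have hslope := hder.hasDerivWithinAt (s := Ioi x)
      rw [hasDerivWithinAt_iff_tendsto_slope' (by simp)] at hslope
      refine ge_of_tendsto hslope ?_
      have : Ioo x 1 ∈ nhdsWithin x (Ioi x) := Ioo_mem_nhdsGT hxP.1.2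
      filter_upwards [this] with y hy
      rw [slope_def_field]
      have h5 := ((hPiff x).mp hxP.2).2 y hy.1.le hy.2.le
      exact div_nonneg (by linarith) (by linarith [hy.1])
    simp only [hf] at hge
    rw [indicator_of_mem hx01] at hge
    show φ (ζ x) ≤ 0
    simp only [hφ]
    split_ifs with h
    · nlinarith
    · exact le_rfl
  -- the initial interval
  have hinit : ∫ t in Ioo 0 b0, φ (ζ t) ≤ 0 := by
    rcases hb0m.1.1.eq_or_lt with h | h
    · rw [← h]; simp
    · exact hJ 0 b0 le_rfl h hb0lt.le (by rw [hF0, hFb0])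
  -- assembling
  have hsplit1 : ∫ t in Ioo b0 1, φ (ζ t) ≤ 0 := by
    have h5 := integral_inter_add_sdiff (s := Ioo b0 1) (t := P) (f := fun t => φ (ζ t))
      (μ := volume) hPc.measurableSet
      (hh.mono_set (Ioo_subset_Icc_self.trans (Icc_subset_Icc hb0m.1.1 le_rfl)))
    linarith
  have htot : ∫ t in Icc (0 : ℝ) 1, φ (ζ t)
      = (∫ t in Ioo 0 b0, φ (ζ t)) + ∫ t in Ioo b0 1, φ (ζ t) := by
    rw [integral_Icc_eq_integral_Ioc, ← Ioc_union_Ioc_eq_Ioc hb0m.1.1 hb0lt.le,
      setIntegral_union (Ioc_disjoint_Ioc_of_le le_rfl) measurableSet_Ioc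
        (hh.mono_set (Ioc_subset_Icc_self.trans (Icc_subset_Icc le_rfl hb0lt.le)))
        (hh.mono_set (Ioc_subset_Icc_self.trans (Icc_subset_Icc hb0m.1.1 le_rfl))),
      integral_Ioc_eq_integral_Ioo, integral_Ioc_eq_integral_Ioo]
  show ∫ t in Icc (0 : ℝ) 1, φ (ζ t) ≤ 0
  rw [htot]
  linarith

end Pool.Agent.R196.BB
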