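import Pool.Agent.R196.BB.Defs

/-! (SF) the supremum over finite laws dominates the Burkholder function. -/

open MeasureTheory Set
open scoped ENNReal

namespace Pool.Agent.R196.BB

lemma Lk_comm (g p q : ℝ) : Lk g p q = Lk g q p := mul_comm _ _
lemma Rk_comm (g p q : ℝ) : Rk g p q = Rk g q p := mul_comm _ _

lemma Law.symm {ι : Type*} [Fintype ι] {w a : ι → ℝ} {p q : ℝ} (h : Law w a p q) :
    Law w a q p where
  nonneg := h.nonneg
  total := h.total
  mean := by rw [h.mean]; ring
  second := by rw [h.second]; ring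
  left := fun g => by rw [Lk_comm]; exact h.left g
  right := fun g => by rw [Rk_comm]; exact h.right g

lemma max_convex (g p p' c d : ℝ) (hc : 0 ≤ c) (hd : 0 ≤ d) (hcd : c + d = 1) :
    max (g - (c * p + d * p')) 0 ≤ c * max (g - p) 0 + d * max (g - p') 0 := by
  refine max_le ?_ (by positivity)
  have h1 : c * (g - p) ≤ c * max (g - p) 0 := mul_le_mul_of_nonneg_left (le_max_left _ _) hc
  have h2 : d * (g - p') ≤ d * max (g - p') 0 := mul_le_mul_of_nonneg_left (le_max_left _ _) hd
  have h3 : g = (c + d) * g := by rw [hcd, one_mul]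
  nlinarith

lemma max_convex' (g p p' c d : ℝ) (hc : 0 ≤ c) (hd : 0 ≤ d) (hcd : c + d = 1) :
    max ((c * p + d * p') - g) 0 ≤ c * max (p - g) 0 + d * max (p' - g) 0 := by
  refine max_le ?_ (by positivity)
  have h1 : c * (p - g) ≤ c * max (p - g) 0 := mul_le_mul_of_nonneg_left (le_max_left _ _) hc
  have h2 : d * (p' - g) ≤ d * max (p' - g) 0 := mul_le_mul_of_nonneg_left (le_max_left _ _) hd
  have h3 : g = (c + d) * g := by rw [hcd, one_mul]
  nlinarith

/-- mixing two laws on the same line `q = const` -/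
lemma Law.mix {ι κ : Type*} [Fintype ι] [Fintype κ] {w a : ι → ℝ} {w' a' : κ → ℝ} {p p' q : ℝ}
    (h : Law w a p q) (h' : Law w' a' p' q) {c d : ℝ} (hc : 0 ≤ c) (hd : 0 ≤ d) (hcd : c + d = 1) :
    Law (Sum.elim (fun i => c * w i) (fun i => d * w' i)) (Sum.elim a a') (c * p + d * p') q := by
  have key : ∀ φ : ℝ → ℝ, ∑ i, Sum.elim (fun i => c * w i) (fun i => d * w' i) i
      * φ (Sum.elim a a' i) = c * ∑ i, w i * φ (a i) + d * ∑ i, w' i * φ (a' i) := by
    intro φ
    rw [Fintype.sum_sum_type, Finset.mul_sum, Finset.mul_sum]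
    simp only [Sum.elim_inl, Sum.elim_inr, mul_assoc]
  refine ⟨?_, ?_, ?_, ?_, ?_, ?_⟩
  · rintro (i | i)
    · exact mul_nonneg hc (h.nonneg i)
    · exact mul_nonneg hd (h'.nonneg i)
  · rw [Fintype.sum_sum_type]
    simp only [Sum.elim_inl, Sum.elim_inr]
    rw [← Finset.mul_sum, ← Finset.mul_sum, h.total, h'.total]
    linarith
  · have := key (fun x => x)
    rw [this, h.mean, h'.mean]
    have h3 : q = (c + d) * q := by rw [hcd, one_mul]
    linear_combination (-q / 2 + q / 2) + (q / 2) * hcd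
  · have := key (fun x => x ^ 2)
    rw [this, h.second, h'.second]
    linear_combination hcd
  · intro g
    have := key (fun x => Lk g (x + 1) (x - 1))
    rw [this]
    have h1 := mul_le_mul_of_nonneg_left (h.left g) hc
    have h2 := mul_le_mul_of_nonneg_left (h'.left g) hd
    refine le_trans ?_ (add_le_add h1 h2)
    unfold Lk
    have h3 := mul_le_mul_of_nonneg_right (max_convex g p p' c d hc hd hcd)
      (le_max_right (g - q) 0)
    linarith
  · intro g
    have := key (fun x => Rk g (x + 1) (x - 1))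
    rw [this]
    have h1 := mul_le_mul_of_nonneg_left (h.right g) hc
    have h2 := mul_le_mul_of_nonneg_left (h'.right g) hd
    refine le_trans ?_ (add_le_add h1 h2)
    unfold Rk
    have h3 := mul_le_mul_of_nonneg_right (max_convex' g p p' c d hc hd hcd)
      (le_max_right (q - g) 0)
    linarith

/-- the values of the finite laws -/
def SV (f : ℝ → ℝ) (p q : ℝ) : Set ℝ :=
  {r | ∃ (n : ℕ) (w a : Fin n → ℝ), Law w a p q ∧ r = ∑ i, w i * f (a i)}

lemma mem_SV {f : ℝ → ℝ} {ι : Type} [Fintype ι] {w a : ι → ℝ} {p q : ℝ} (h : Law w a p q) :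
    (∑ i, w i * f (a i)) ∈ SV f p q := by
  classical
  let e := (Fintype.equivFin ι).symm
  have key : ∀ φ : ι → ℝ, ∑ i, φ (e i) = ∑ i, φ i := fun φ => e.sum_comp φ
  refine ⟨Fintype.card ι, fun i => w (e i), fun i => a (e i), ⟨?_, ?_, ?_, ?_, ?_, ?_⟩, ?_⟩
  · exact fun i => h.nonneg _
  · rw [key w]; exact h.total
  · rw [key (fun i => w i * a i)]; exact h.mean
  · rw [key (fun i => w i * (a i) ^ 2)]; exact h.second
  · intro g
    rw [key (fun i => w i * Lk g (a i + 1) (a i - 1))]; exact h.left g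
  · intro g
    rw [key (fun i => w i * Rk g (a i + 1) (a i - 1))]; exact h.right g
  · exact (key (fun i => w i * f (a i))).symm

lemma SV_symm {f : ℝ → ℝ} (p q : ℝ) : SV f p q = SV f q p := by
  ext r
  constructor <;> rintro ⟨n, w, a, h, hr⟩ <;> exact ⟨n, w, a, h.symm, hr⟩

lemma SV_mix {f : ℝ → ℝ} {p p' q r r' : ℝ} (hr : r ∈ SV f p q) (hr' : r' ∈ SV f p' q) {c d : ℝ}
    (hc : 0 ≤ c) (hd : 0 ≤ d) (hcd : c + d = 1) : c * r + d * r' ∈ SV f (c * p + d * p') q := by
  obtain ⟨n, w, a, h, rfl⟩ := hr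
  obtain ⟨n', w', a', h', rfl⟩ := hr'
  have h1 := mem_SV (f := f) (h.mix h' hc hd hcd)
  rw [Fintype.sum_sum_type] at h1
  simp only [Sum.elim_inl, Sum.elim_inr] at h1
  rw [Finset.mul_sum, Finset.mul_sum]
  simp only [← mul_assoc]
  exact h1

lemma SV_ge {f : ℝ → ℝ} {m : ℝ} (hm : ∀ x, m ≤ f x) {p q r : ℝ} (hr : r ∈ SV f p q) : m ≤ r := by
  obtain ⟨n, w, a, h, rfl⟩ := hr
  calc m = ∑ i, w i * m := by rw [← Finset.sum_mul, h.total, one_mul]
    _ ≤ _ := Finset.sum_le_sum fun i _ => mul_le_mul_of_nonneg_left (hm _) (h.nonneg i)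

/-- point mass -/
lemma SV_top (f : ℝ → ℝ) (x : ℝ) : f x ∈ SV f (x + 1) (x - 1) := by
  have h : Law (fun _ : Unit => (1 : ℝ)) (fun _ => x) (x + 1) (x - 1) := by
    refine ⟨fun _ => zero_le_one, by simp, by simp, by simp; ring, fun g => by simp, fun g => by simp⟩
  simpa using mem_SV (f := f) h

lemma SV_top_only {f : ℝ → ℝ} {x r : ℝ} (hr : r ∈ SV f (x + 1) (x - 1)) : r = f x := by
  obtain ⟨n, w, a, h, rfl⟩ := hr
  have h1 : ∑ i, w i * (a i - x) ^ 2 = 0 := by
    have : ∀ i, w i * (a i - x) ^ 2 = w i * (a i) ^ 2 - 2 * x * (w i * a i) + x ^ 2 * w i := by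
      intro i; ring
    simp_rw [this]
    rw [Finset.sum_add_distrib, Finset.sum_sub_distrib, ← Finset.mul_sum, ← Finset.mul_sum,
      h.second, h.mean, h.total]
    ring
  have h2 : ∀ i, w i * (a i - x) ^ 2 = 0 := by
    intro i
    exact (Finset.sum_eq_zero_iff_of_nonneg
      (fun i _ => mul_nonneg (h.nonneg i) (sq_nonneg _))).mp h1 i (Finset.mem_univ i)
  have h3 : ∀ i, w i * f (a i) = w i * f x := by
    intro i
    rcases mul_eq_zero.mp (h2 i) with h4 | h4
    · rw [h4]; ring
    · have : a i = x := by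
        have := pow_eq_zero_iff (two_ne_zero) |>.mp h4
        linarith
      rw [this]
  simp_rw [h3]
  rw [← Finset.sum_mul, h.total, one_mul]

lemma SV_nonempty (f : ℝ → ℝ) {p q : ℝ} (h : |p - q| ≤ 2) : (SV f p q).Nonempty := by
  obtain ⟨h1, h2⟩ := abs_le.mp h
  have e1 : f (q + 1) ∈ SV f (q + 2) q := by
    have := SV_top f (q + 1)
    rwa [show q + 1 + 1 = q + 2 by ring, show q + 1 - 1 = q by ring] at this
  have e2 : f (q - 1) ∈ SV f (q - 2) q := by
    have := SV_top f (q - 1)
    rw [SV_symm] at this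
    rwa [show q - 1 + 1 = q by ring, show q - 1 - 1 = q - 2 by ring] at this
  have := SV_mix e1 e2 (c := (p - q + 2) / 4) (d := 1 - (p - q + 2) / 4) (by linarith)
    (by linarith) (by ring)
  rw [show (p - q + 2) / 4 * (q + 2) + (1 - (p - q + 2) / 4) * (q - 2) = p by ring] at this
  exact ⟨_, this⟩

/-- propagation of boundedness along a line `q = const` -/
lemma SV_bdd_step {f : ℝ → ℝ} {m : ℝ} (hm : ∀ x, m ≤ f x) {p p' q : ℝ} (hp : |p - q| < 2)
    (hp' : |p' - q| < 2) (hb : BddAbove (SV f p q)) : BddAbove (SV f p' q) := by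
  obtain ⟨B, hB⟩ := hb
  obtain ⟨h1, h2⟩ := abs_lt.mp hp
  obtain ⟨h3, h4⟩ := abs_lt.mp hp'
  rcases le_total p' p with hle | hle
  · -- other end `q + 2`
    have e1 : f (q + 1) ∈ SV f (q + 2) q := by
      have := SV_top f (q + 1)
      rwa [show q + 1 + 1 = q + 2 by ring, show q + 1 - 1 = q by ring] at this
    have hden : 0 < q + 2 - p' := by linarith
    set c := (q + 2 - p) / (q + 2 - p') with hc
    have hc0 : 0 < c := div_pos (by linarith) hden
    have hc1 : c ≤ 1 := by rw [hc, div_le_one hden]; linarith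
    refine ⟨(B - (1 - c) * m) / c, ?_⟩
    intro r hr
    have h5 := SV_mix hr e1 hc0.le (show 0 ≤ 1 - c by linarith) (by ring)
    have e2 : c * p' + (1 - c) * (q + 2) = p := by
      rw [hc]; field_simp; ring
    rw [e2] at h5
    have h6 := hB h5
    have h7 : (1 - c) * m ≤ (1 - c) * f (q + 1) := mul_le_mul_of_nonneg_left (hm _) (by linarith)
    rw [le_div_iff₀ hc0]
    linarith
  · have e1 : f (q - 1) ∈ SV f (q - 2) q := by
      have := SV_top f (q - 1)
      rw [SV_symm] at this
      rwa [show q - 1 + 1 = q by ring, show q - 1 - 1 = q - 2 by ring] at this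
    have hden : 0 < p' - (q - 2) := by linarith
    set c := (p - (q - 2)) / (p' - (q - 2)) with hc
    have hc0 : 0 < c := div_pos (by linarith) hden
    have hc1 : c ≤ 1 := by rw [hc, div_le_one hden]; linarith
    refine ⟨(B - (1 - c) * m) / c, ?_⟩
    intro r hr
    have h5 := SV_mix hr e1 hc0.le (show 0 ≤ 1 - c by linarith) (by ring)
    have e2 : c * p' + (1 - c) * (q - 2) = p := by
      have : p' - (q - 2) ≠ 0 := hden.ne'
      rw [hc]; field_simp; ring
    rw [e2] at h5
    have h6 := hB h5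
    have h7 : (1 - c) * m ≤ (1 - c) * f (q - 1) := mul_le_mul_of_nonneg_left (hm _) (by linarith)
    rw [le_div_iff₀ hc0]
    linarith

lemma SV_bdd {f : ℝ → ℝ} {m : ℝ} (hm : ∀ x, m ≤ f x) {u : ℝ} (hb : BddAbove (SV f u u))
    {p q : ℝ} (hpq : |p - q| ≤ 2) : BddAbove (SV f p q) := by
  have hdiag : ∀ n : ℕ, ∀ v, |v - u| ≤ n → BddAbove (SV f v v) := by
    intro n
    induction n with
    | zero =>
      intro v hv
      have : v = u := by
        simp at hv
        linarith
      rw [this]; exact hb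
    | succ n ih =>
      intro v hv
      push_cast at hv
      have hn : (0 : ℝ) < n + 1 := by positivity
      set v' := u + (v - u) * (n / (n + 1)) with hv'
      have h1 : |v' - u| ≤ n := by
        rw [hv', add_sub_cancel_left, abs_mul, abs_of_nonneg (by positivity : (0 : ℝ) ≤ n / (n + 1))]
        calc |v - u| * (n / (n + 1)) ≤ (n + 1) * (n / (n + 1)) :=
              mul_le_mul_of_nonneg_right hv (by positivity)
          _ = n := by field_simp
      have h2 : |v - v'| < 2 := by
        have e : v - v' = (v - u) * (1 / (n + 1)) := by rw [hv']; field_simp; ring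
        rw [e, abs_mul, abs_of_nonneg (by positivity : (0 : ℝ) ≤ 1 / ((n : ℝ) + 1))]
        calc |v - u| * (1 / (n + 1)) ≤ (n + 1) * (1 / (n + 1)) :=
              mul_le_mul_of_nonneg_right hv (by positivity)
          _ = 1 := by field_simp
          _ < 2 := by norm_num
      have h3 := ih v' h1
      have h4 : BddAbove (SV f v v') := SV_bdd_step hm (by simp) h2 h3
      rw [SV_symm] at h4
      exact SV_bdd_step hm (by rw [abs_sub_comm]; exact h2) (by simp) h4
  have hdiag' : ∀ v, BddAbove (SV f v v) := by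
    intro v
    obtain ⟨n, hn⟩ := exists_nat_ge |v - u|
    exact hdiag n v hn
  rcases hpq.lt_or_eq with h | h
  · exact SV_bdd_step hm (by simp) h (hdiag' q)
  · rcases (abs_eq (by norm_num : (0 : ℝ) ≤ 2)).mp h with h1 | h1
    · refine ⟨f (q + 1), fun r hr => ?_⟩
      have hr' : r ∈ SV f (q + 1 + 1) (q + 1 - 1) := by
        rwa [show q + 1 + 1 = p by linarith, show q + 1 - 1 = q by ring]
      exact (SV_top_only hr').le
    · refine ⟨f (p + 1), fun r hr => ?_⟩
      have hr' : r ∈ SV f (p + 1 + 1) (p + 1 - 1) := by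
        rw [SV_symm] at hr
        rwa [show p + 1 + 1 = q by linarith, show p + 1 - 1 = p by ring]
      exact (SV_top_only hr').le

/-- concavity of the supremum along a line -/
lemma SV_concave {f : ℝ → ℝ} {p p' q : ℝ} (hp : |p - q| ≤ 2) (hp' : |p' - q| ≤ 2) {c d : ℝ}
    (hc : 0 ≤ c) (hd : 0 ≤ d) (hcd : c + d = 1)
    (hb : BddAbove (SV f (c * p + d * p') q)) :
    c * sSup (SV f p q) + d * sSup (SV f p' q) ≤ sSup (SV f (c * p + d * p') q) := by
  rcases hc.eq_or_lt with h | hc0
  · have : d = 1 := by linarith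
    rw [← h, this]; simp
  rcases hd.eq_or_lt with h | hd0
  · have : c = 1 := by linarith
    rw [← h, this]; simp
  set X := sSup (SV f (c * p + d * p') q) with hX
  have h1 : ∀ r ∈ SV f p q, ∀ r' ∈ SV f p' q, c * r + d * r' ≤ X := fun r hr r' hr' =>
    le_csSup hb (SV_mix hr hr' hc hd hcd)
  have h2 : ∀ r' ∈ SV f p' q, sSup (SV f p q) ≤ (X - d * r') / c := by
    intro r' hr'
    refine csSup_le (SV_nonempty f hp) fun r hr => ?_
    rw [le_div_iff₀ hc0]
    linarith [h1 r hr r' hr']
  have h3 : sSup (SV f p' q) ≤ (X - c * sSup (SV f p q)) / d := by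
    refine csSup_le (SV_nonempty f hp') fun r' hr' => ?_
    have := h2 r' hr'
    rw [le_div_iff₀ hc0] at this
    rw [le_div_iff₀ hd0]
    linarith
  rw [le_div_iff₀ hd0] at h3
  linarith

theorem supFinite : SupFinite := by
  intro f m hm u C hC
  have hub : BddAbove (SV f u u) := by
    refine ⟨C, ?_⟩
    rintro r ⟨n, w, a, h, rfl⟩
    exact hC n w a h
  let G : ℝ × ℝ → ℝ := fun x => sSup (SV f (x.1 + x.2) (x.1 - x.2))
  have hG : G ∈ ClassD f := by
    refine ⟨?_, ?_⟩
    · intro x hx
      constructor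
      · refine ⟨?_, ?_⟩
        · intro s hs t ht c d hc hd hcd
          have hs' : |x.2 + s| ≤ 1 := hs
          have ht' : |x.2 + t| ≤ 1 := ht
          show |x.2 + (c • s + d • t)| ≤ 1
          have e : x.2 + (c • s + d • t) = c * (x.2 + s) + d * (x.2 + t) := by
            simp only [smul_eq_mul]; linear_combination (-x.2) * hcd
          rw [e]
          obtain ⟨a1, a2⟩ := abs_le.mp hs'
          obtain ⟨b1, b2⟩ := abs_le.mp ht'
          rw [abs_le]
          constructor <;> nlinarith
        · intro s hs t ht c d hc hd hcd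
          have hs' : |x.2 + s| ≤ 1 := hs
          have ht' : |x.2 + t| ≤ 1 := ht
          have hps : |(x.1 + s + (x.2 + s)) - (x.1 - x.2)| ≤ 2 := by
            rw [show (x.1 + s + (x.2 + s)) - (x.1 - x.2) = 2 * (x.2 + s) by ring, abs_mul]
            rw [abs_of_pos (by norm_num : (0 : ℝ) < 2)]; linarith
          have hpt : |(x.1 + t + (x.2 + t)) - (x.1 - x.2)| ≤ 2 := by
            rw [show (x.1 + t + (x.2 + t)) - (x.1 - x.2) = 2 * (x.2 + t) by ring, abs_mul]
            rw [abs_of_pos (by norm_num : (0 : ℝ) < 2)]; linarith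
          have hmix : |(c * (x.1 + s + (x.2 + s)) + d * (x.1 + t + (x.2 + t))) - (x.1 - x.2)| ≤ 2 := by
            obtain ⟨a1, a2⟩ := abs_le.mp hps
            obtain ⟨b1, b2⟩ := abs_le.mp hpt
            have e : (c * (x.1 + s + (x.2 + s)) + d * (x.1 + t + (x.2 + t))) - (x.1 - x.2)
                = c * ((x.1 + s + (x.2 + s)) - (x.1 - x.2)) + d * ((x.1 + t + (x.2 + t)) - (x.1 - x.2)) := by
              linear_combination (x.1 - x.2) * hcd
            rw [e, abs_le]
            constructor <;> nlinarith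
          have h1 := SV_concave (f := f) hps hpt hc hd hcd (SV_bdd hm hub hmix)
          show c * sSup (SV f (x.1 + s + (x.2 + s)) (x.1 + s - (x.2 + s)))
            + d * sSup (SV f (x.1 + t + (x.2 + t)) (x.1 + t - (x.2 + t)))
            ≤ sSup (SV f (x.1 + (c * s + d * t) + (x.2 + (c * s + d * t)))
              (x.1 + (c * s + d * t) - (x.2 + (c * s + d * t))))
          rw [show x.1 + s - (x.2 + s) = x.1 - x.2 by ring, show x.1 + t - (x.2 + t) = x.1 - x.2 by ring,
            show x.1 + (c * s + d * t) - (x.2 + (c * s + d * t)) = x.1 - x.2 by ring,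
            show x.1 + (c * s + d * t) + (x.2 + (c * s + d * t))
              = c * (x.1 + s + (x.2 + s)) + d * (x.1 + t + (x.2 + t)) by
                linear_combination (-(x.1 + x.2)) * hcd]
          exact h1
      · refine ⟨?_, ?_⟩
        · intro s hs t ht c d hc hd hcd
          have hs' : |x.2 + s| ≤ 1 := hs
          have ht' : |x.2 + t| ≤ 1 := ht
          show |x.2 + (c • s + d • t)| ≤ 1
          have e : x.2 + (c • s + d • t) = c * (x.2 + s) + d * (x.2 + t) := by
            simp only [smul_eq_mul]; linear_combination (-x.2) * hcd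
          rw [e]
          obtain ⟨a1, a2⟩ := abs_le.mp hs'
          obtain ⟨b1, b2⟩ := abs_le.mp ht'
          rw [abs_le]
          constructor <;> nlinarith
        · intro s hs t ht c d hc hd hcd
          have hs' : |x.2 + s| ≤ 1 := hs
          have ht' : |x.2 + t| ≤ 1 := ht
          have hps : |(x.1 - s - (x.2 + s)) - (x.1 + x.2)| ≤ 2 := by
            rw [show (x.1 - s - (x.2 + s)) - (x.1 + x.2) = -2 * (x.2 + s) by ring, abs_mul]
            rw [abs_of_neg (by norm_num : (-2 : ℝ) < 0)]; linarith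
          have hpt : |(x.1 - t - (x.2 + t)) - (x.1 + x.2)| ≤ 2 := by
            rw [show (x.1 - t - (x.2 + t)) - (x.1 + x.2) = -2 * (x.2 + t) by ring, abs_mul]
            rw [abs_of_neg (by norm_num : (-2 : ℝ) < 0)]; linarith
          have hmix : |(c * (x.1 - s - (x.2 + s)) + d * (x.1 - t - (x.2 + t))) - (x.1 + x.2)| ≤ 2 := by
            obtain ⟨a1, a2⟩ := abs_le.mp hps
            obtain ⟨b1, b2⟩ := abs_le.mp hpt
            have e : (c * (x.1 - s - (x.2 + s)) + d * (x.1 - t - (x.2 + t))) - (x.1 + x.2)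
                = c * ((x.1 - s - (x.2 + s)) - (x.1 + x.2)) + d * ((x.1 - t - (x.2 + t)) - (x.1 + x.2)) := by
              linear_combination (x.1 + x.2) * hcd
            rw [e, abs_le]
            constructor <;> nlinarith
          have h1 := SV_concave (f := f) hps hpt hc hd hcd (SV_bdd hm hub hmix)
          show c * sSup (SV f (x.1 - s + (x.2 + s)) (x.1 - s - (x.2 + s)))
            + d * sSup (SV f (x.1 - t + (x.2 + t)) (x.1 - t - (x.2 + t)))
            ≤ sSup (SV f (x.1 - (c * s + d * t) + (x.2 + (c * s + d * t)))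
              (x.1 - (c * s + d * t) - (x.2 + (c * s + d * t))))
          rw [SV_symm (x.1 - s + (x.2 + s)), SV_symm (x.1 - t + (x.2 + t)),
            SV_symm (x.1 - (c * s + d * t) + (x.2 + (c * s + d * t)))]
          rw [show x.1 - s + (x.2 + s) = x.1 + x.2 by ring, show x.1 - t + (x.2 + t) = x.1 + x.2 by ring,
            show x.1 - (c * s + d * t) + (x.2 + (c * s + d * t)) = x.1 + x.2 by ring,
            show x.1 - (c * s + d * t) - (x.2 + (c * s + d * t))
              = c * (x.1 - s - (x.2 + s)) + d * (x.1 - t - (x.2 + t)) by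
                linear_combination (-(x.1 - x.2)) * hcd]
          exact h1
    · intro x
      constructor
      · refine le_csSup (SV_bdd hm hub ?_) (SV_top f x)
        rw [show x + 1 - (x - 1) = 2 by ring]; norm_num
      · show f x ≤ sSup (SV f (x + -1) (x - -1))
        rw [SV_symm, show x - -1 = x + 1 by ring, show x + -1 = x - 1 by ring]
        refine le_csSup (SV_bdd hm hub ?_) (SV_top f x)
        rw [show x + 1 - (x - 1) = 2 by ring]; norm_num
  have h1 : burkholder f (u, 0) ≤ ((G (u, 0) : ℝ) : EReal) := iInf₂_le G hG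
  refine h1.trans ?_
  rw [EReal.coe_le_coe_iff]
  show sSup (SV f (u + 0) (u - 0)) ≤ C
  rw [add_zero, sub_zero]
  refine csSup_le (SV_nonempty f (by simp)) ?_
  rintro r ⟨n, w, a, h, rfl⟩
  exact hC n w a h

end Pool.Agent.R196.BB
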