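import Mathlib

/-!
# MP_a39268_an : the Burkholder function on the midline and the BMO Bellman function

Definitions of the problem.
-/

open MeasureTheory Set
open scoped ENNReal

namespace Pool.Agent.R196.BB

/-! ## The strip and the Burkholder function -/

/-- The strip `Σ = {x : |x₂| ≤ 1}`. -/
def Strip : Set (ℝ × ℝ) := {x | |x.2| ≤ 1}

/-- Diagonally concave functions on the strip: for every `x ∈ Σ` both `t ↦ G (x₁ + t, x₂ + t)` and
`t ↦ G (x₁ - t, x₂ + t)` are concave on their (interval) domains. -/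
def DiagConcave (G : ℝ × ℝ → ℝ) : Prop :=
  ∀ x ∈ Strip,
    ConcaveOn ℝ {t : ℝ | (x.1 + t, x.2 + t) ∈ Strip} (fun t => G (x.1 + t, x.2 + t)) ∧
    ConcaveOn ℝ {t : ℝ | (x.1 - t, x.2 + t) ∈ Strip} (fun t => G (x.1 - t, x.2 + t))

/-- The class `𝔇[f]`. -/
def ClassD (f : ℝ → ℝ) : Set (ℝ × ℝ → ℝ) :=
  {G | DiagConcave G ∧ ∀ x₁ : ℝ, f x₁ ≤ G (x₁, 1) ∧ f x₁ ≤ G (x₁, -1)}

/-- The Burkholder function `𝕍 = inf {G : G ∈ 𝔇[f]}` (value `⊤` if `𝔇[f]` is empty). -/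
noncomputable def burkholder (f : ℝ → ℝ) (x : ℝ × ℝ) : EReal :=
  ⨅ G ∈ ClassD f, ((G x : ℝ) : EReal)

/-! ## BMO and the Bellman function -/

/-- The average of `ζ` over the interval `[a,b]`. -/
noncomputable def avg (ζ : ℝ → ℝ) (a b : ℝ) : ℝ := (b - a)⁻¹ * ∫ t in a..b, ζ t

/-- The square of the quadratic BMO seminorm on `[0,1]`, a value in `[0,∞]`. -/
noncomputable def bmoSq (ζ : ℝ → ℝ) : ℝ≥0∞ :=
  ⨆ (a : ℝ) (b : ℝ) (_ : 0 ≤ a ∧ a < b ∧ b ≤ 1),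
    (∫⁻ t in Icc a b, ENNReal.ofReal (|ζ t - avg ζ a b| ^ 2)) / ENNReal.ofReal (b - a)

/-- The extended real integral over `[0,1]` (difference of the integrals of the positive and
negative parts). -/
noncomputable def intE (h : ℝ → ℝ) : EReal :=
  ((∫⁻ t in Icc (0 : ℝ) 1, ENNReal.ofReal (h t) : ℝ≥0∞) : EReal) -
    ((∫⁻ t in Icc (0 : ℝ) 1, ENNReal.ofReal (-h t) : ℝ≥0∞) : EReal)

/-- The functions admissible in the Bellman problem at the point `y`: integrable `ζ` on `[0,1]`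
with BMO seminorm at most one, with `⟨ζ⟩ = y₁`, `⟨ζ²⟩ = y₂`, for which the integral of `f ∘ ζ` makes
sense, that is `f ∘ ζ` is measurable (automatic when `f` is Borel). -/
def Admissible (f : ℝ → ℝ) (y : ℝ × ℝ) : Set (ℝ → ℝ) :=
  {ζ | IntegrableOn ζ (Icc 0 1) ∧ AEMeasurable (fun t => f (ζ t)) (volume.restrict (Icc 0 1)) ∧
    bmoSq ζ ≤ 1 ∧ (∫ t in (0:ℝ)..1, ζ t) = y.1 ∧ (∫ t in (0:ℝ)..1, (ζ t) ^ 2) = y.2}

/-- The Bellman function `𝔹(y) = sup ∫₀¹ f(ζ)`. -/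
noncomputable def bellman (f : ℝ → ℝ) (y : ℝ × ℝ) : EReal :=
  ⨆ ζ ∈ Admissible f y, intE (fun t => f (ζ t))

end Pool.Agent.R196.BB
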